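import Pool.Agent.MP_d6d24d_co.H35.Ver

/-! The case analysis: no weakly convex dual realization of Barnette's sphere exists. -/

namespace Pool.Agent.MP_d6d24d_co.H35

theorem forall8 {p : Fin 8 → Prop} (h0 : p 0) (h1 : p 1) (h2 : p 2) (h3 : p 3) (h4 : p 4)
    (h5 : p 5) (h6 : p 6) (h7 : p 7) : ∀ i, p i := by
  intro i; fin_cases i <;> assumption

namespace WR

variable {W : Type*} [NormedAddCommGroup W] [NormedSpace ℝ W] (X : WR W SB)
  [FiniteDimensional ℝ W]

omit [FiniteDimensional ℝ W] in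
theorem c0
    (e12 : X.L {1} = X.L {2})
    (e25 : X.L {2} = X.L {5})
    (e15 : ¬ X.L {1} = X.L {5}) : False :=
  e15 (Eq.trans e12 e25)

theorem c1
    (e12 : X.L {1} = X.L {2})
    (e13 : X.L {1} = X.L {3})
    (e14 : X.L {1} = X.L {4})
    (e15 : X.L {1} = X.L {5}) : False :=
  X.ruleFive (by decide) 0 1 6 7
    (forall8 (Or.inl rfl) (Or.inr (Or.inl rfl)) (Or.inr (Or.inl e12.symm)) (Or.inr (Or.inl e13.symm))
      (Or.inr (Or.inl e14.symm)) (Or.inr (Or.inl e15.symm)) (Or.inr (Or.inr (Or.inl rfl))) (Or.inr (Or.inr (Or.inr (rfl)))))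

theorem c2
    (r314 : X.L {1, 3} = X.L {4, 3})
    (e14 : ¬ X.L {1} = X.L {4}) : False :=
  e14 (X.ruleL1 (by decide) (by decide) r314)

theorem c3
    (e12 : X.L {1} = X.L {2})
    (e13 : X.L {1} = X.L {3})
    (e15 : X.L {1} = X.L {5})
    (e17 : X.L {1} = X.L {7}) : False :=
  X.ruleFive (by decide) 0 1 4 6
    (forall8 (Or.inl rfl) (Or.inr (Or.inl rfl)) (Or.inr (Or.inl e12.symm)) (Or.inr (Or.inl e13.symm))
      (Or.inr (Or.inr (Or.inl rfl))) (Or.inr (Or.inl e15.symm)) (Or.inr (Or.inr (Or.inr (rfl)))) (Or.inr (Or.inl e17.symm)))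

theorem c4
    (r317 : X.L {1, 3} = X.L {7, 3})
    (e17 : ¬ X.L {1} = X.L {7}) : False :=
  e17 (X.ruleL1 (by decide) (by decide) r317)

theorem c5
    (r312 : X.L {1, 3} = X.L {2, 3})
    (r314 : ¬ X.L {1, 3} = X.L {4, 3})
    (r317 : ¬ X.L {1, 3} = X.L {7, 3}) : False :=
  (X.ruleEdge (u := 4) (v := 7) (by decide) (by decide) (by decide) (by decide) (by decide)
    r312).elim (fun t => r314 t) (fun t => r317 t)

theorem c6
    (e12 : X.L {1} = X.L {2})
    (e13 : X.L {1} = X.L {3})
    (e15 : X.L {1} = X.L {5})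
    (e16 : X.L {1} = X.L {6}) : False :=
  X.ruleFive (by decide) 0 1 4 7
    (forall8 (Or.inl rfl) (Or.inr (Or.inl rfl)) (Or.inr (Or.inl e12.symm)) (Or.inr (Or.inl e13.symm))
      (Or.inr (Or.inr (Or.inl rfl))) (Or.inr (Or.inl e15.symm)) (Or.inr (Or.inl e16.symm)) (Or.inr (Or.inr (Or.inr (rfl)))))

omit [FiniteDimensional ℝ W] in
theorem c7
    (e12 : X.L {1} = X.L {2})
    (e26 : X.L {2} = X.L {6})
    (e16 : ¬ X.L {1} = X.L {6}) : False :=
  e16 (Eq.trans e12 e26)

theorem c8
    (r526 : X.L {2, 5} = X.L {6, 5})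
    (e26 : ¬ X.L {2} = X.L {6}) : False :=
  e26 (X.ruleL1 (by decide) (by decide) r526)

omit [FiniteDimensional ℝ W] in
theorem c9
    (e13 : X.L {1} = X.L {3})
    (e36 : X.L {3} = X.L {6})
    (e16 : ¬ X.L {1} = X.L {6}) : False :=
  e16 (Eq.trans e13 e36)

theorem c10
    (r536 : X.L {3, 5} = X.L {6, 5})
    (e36 : ¬ X.L {3} = X.L {6}) : False :=
  e36 (X.ruleL1 (by decide) (by decide) r536)

omit [FiniteDimensional ℝ W] in
theorem c11
    (e13 : X.L {1} = X.L {3})
    (e34 : X.L {3} = X.L {4})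
    (e14 : ¬ X.L {1} = X.L {4}) : False :=
  e14 (Eq.trans e13 e34)

theorem c12
    (r234 : X.L {3, 2} = X.L {4, 2})
    (e34 : ¬ X.L {3} = X.L {4}) : False :=
  e34 (X.ruleL1 (by decide) (by decide) r234)

theorem c13
    (e12 : X.L {1} = X.L {2})
    (e13 : X.L {1} = X.L {3})
    (e15 : X.L {1} = X.L {5})
    (e46 : X.L {4} = X.L {6}) : False :=
  X.ruleFive (by decide) 0 1 4 7
    (forall8 (Or.inl rfl) (Or.inr (Or.inl rfl)) (Or.inr (Or.inl e12.symm)) (Or.inr (Or.inl e13.symm))
      (Or.inr (Or.inr (Or.inl rfl))) (Or.inr (Or.inl e15.symm)) (Or.inr (Or.inr (Or.inl e46.symm))) (Or.inr (Or.inr (Or.inr (rfl)))))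

theorem c14
    (r246 : X.L {4, 2} = X.L {6, 2})
    (e46 : ¬ X.L {4} = X.L {6}) : False :=
  e46 (X.ruleL1 (by decide) (by decide) r246)

theorem c15
    (e12 : X.L {1} = X.L {2})
    (e13 : X.L {1} = X.L {3})
    (e15 : X.L {1} = X.L {5})
    (e47 : X.L {4} = X.L {7}) : False :=
  X.ruleFive (by decide) 0 1 4 6
    (forall8 (Or.inl rfl) (Or.inr (Or.inl rfl)) (Or.inr (Or.inl e12.symm)) (Or.inr (Or.inl e13.symm))
      (Or.inr (Or.inr (Or.inl rfl))) (Or.inr (Or.inl e15.symm)) (Or.inr (Or.inr (Or.inr (rfl)))) (Or.inr (Or.inr (Or.inl e47.symm))))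

theorem c16
    (r247 : X.L {4, 2} = X.L {7, 2})
    (e47 : ¬ X.L {4} = X.L {7}) : False :=
  e47 (X.ruleL1 (by decide) (by decide) r247)

theorem c17
    (r245 : X.L {4, 2} = X.L {5, 2})
    (r246 : ¬ X.L {4, 2} = X.L {6, 2})
    (r247 : ¬ X.L {4, 2} = X.L {7, 2}) : False :=
  (X.ruleEdge (u := 6) (v := 7) (by decide) (by decide) (by decide) (by decide) (by decide)
    r245).elim (fun t => r246 t) (fun t => r247 t)

theorem c18
    (r214 : X.L {1, 2} = X.L {4, 2})
    (e14 : ¬ X.L {1} = X.L {4}) : False :=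
  e14 (X.ruleL1 (by decide) (by decide) r214)

theorem c19
    (r315 : ¬ X.L {1, 3} = X.L {5, 3})
    (r312 : ¬ X.L {1, 3} = X.L {2, 3})
    (r526 : ¬ X.L {2, 5} = X.L {6, 5})
    (r536 : ¬ X.L {3, 5} = X.L {6, 5})
    (r234 : ¬ X.L {3, 2} = X.L {4, 2})
    (r245 : ¬ X.L {4, 2} = X.L {5, 2})
    (r214 : ¬ X.L {1, 2} = X.L {4, 2}) : False :=
  r214 (X.verB (fun t => r315 t)
    (fun t => r312 t)
    (fun t => r526 t.symm)
    (fun t => r536 t.symm)
    (fun t => r234 t.symm)
    (fun t => r245 t)).2.2.2.2.1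

theorem c20
    (r315 : X.L {1, 3} = X.L {5, 3})
    (r301 : ¬ X.L {0, 3} = X.L {1, 3})
    (r312 : ¬ X.L {1, 3} = X.L {2, 3}) : False :=
  (X.ruleEdge (u := 0) (v := 2) (by decide) (by decide) (by decide) (by decide) (by decide)
    r315).elim (fun t => r301 t.symm) (fun t => r312 t)

omit [FiniteDimensional ℝ W] in
theorem c21
    (r301 : X.L {0, 3} = X.L {1, 3})
    (r315 : X.L {1, 3} = X.L {5, 3})
    (r305 : ¬ X.L {0, 3} = X.L {5, 3}) : False :=
  r305 (Eq.trans r301 r315)

omit [FiniteDimensional ℝ W] in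
theorem c22
    (r315 : X.L {1, 3} = X.L {5, 3})
    (r325 : X.L {2, 3} = X.L {5, 3})
    (r312 : ¬ X.L {1, 3} = X.L {2, 3}) : False :=
  r312 (Eq.trans r315 r325.symm)

omit [FiniteDimensional ℝ W] in
theorem c23
    (r302 : X.L {0, 3} = X.L {2, 3})
    (r305 : X.L {0, 3} = X.L {5, 3})
    (r325 : ¬ X.L {2, 3} = X.L {5, 3}) : False :=
  r325 (Eq.trans r302.symm r305)

theorem c24
    (e12 : X.L {1} = X.L {2})
    (e13 : X.L {1} = X.L {3})
    (e04 : X.L {0} = X.L {4})
    (e15 : X.L {1} = X.L {5}) : False :=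
  X.ruleFive (by decide) 0 1 6 7
    (forall8 (Or.inl rfl) (Or.inr (Or.inl rfl)) (Or.inr (Or.inl e12.symm)) (Or.inr (Or.inl e13.symm))
      (Or.inl e04.symm) (Or.inr (Or.inl e15.symm)) (Or.inr (Or.inr (Or.inl rfl))) (Or.inr (Or.inr (Or.inr (rfl)))))

theorem c25
    (r304 : X.L {0, 3} = X.L {4, 3})
    (e04 : ¬ X.L {0} = X.L {4}) : False :=
  e04 (X.ruleL1 (by decide) (by decide) r304)

theorem c26
    (e12 : X.L {1} = X.L {2})
    (e13 : X.L {1} = X.L {3})
    (e15 : X.L {1} = X.L {5})
    (e06 : X.L {0} = X.L {6}) : False :=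
  X.ruleFive (by decide) 0 1 4 7
    (forall8 (Or.inl rfl) (Or.inr (Or.inl rfl)) (Or.inr (Or.inl e12.symm)) (Or.inr (Or.inl e13.symm))
      (Or.inr (Or.inr (Or.inl rfl))) (Or.inr (Or.inl e15.symm)) (Or.inl e06.symm) (Or.inr (Or.inr (Or.inr (rfl)))))

theorem c27
    (r306 : X.L {0, 3} = X.L {6, 3})
    (e06 : ¬ X.L {0} = X.L {6}) : False :=
  e06 (X.ruleL1 (by decide) (by decide) r306)

theorem c28
    (e12 : X.L {1} = X.L {2})
    (e13 : X.L {1} = X.L {3})
    (e15 : X.L {1} = X.L {5})
    (e07 : X.L {0} = X.L {7}) : False :=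
  X.ruleFive (by decide) 0 1 4 6
    (forall8 (Or.inl rfl) (Or.inr (Or.inl rfl)) (Or.inr (Or.inl e12.symm)) (Or.inr (Or.inl e13.symm))
      (Or.inr (Or.inr (Or.inl rfl))) (Or.inr (Or.inl e15.symm)) (Or.inr (Or.inr (Or.inr (rfl)))) (Or.inl e07.symm))

theorem c29
    (r307 : X.L {0, 3} = X.L {7, 3})
    (e07 : ¬ X.L {0} = X.L {7}) : False :=
  e07 (X.ruleL1 (by decide) (by decide) r307)

theorem c30
    (r301 : X.L {0, 3} = X.L {1, 3})
    (r302 : ¬ X.L {0, 3} = X.L {2, 3})
    (r304 : ¬ X.L {0, 3} = X.L {4, 3})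
    (r306 : ¬ X.L {0, 3} = X.L {6, 3})
    (r307 : ¬ X.L {0, 3} = X.L {7, 3}) : False :=
  X.ruleBerge (w := 5) (by decide) (by decide) (by decide) (by decide) (by decide) r301
    (forall8 (fun _ _ _ => Or.inl rfl)
      (fun _ _ _ => Or.inr (Or.inl rfl))
      (fun _ _ h => absurd h r302)
      (fun _ h _ => absurd rfl h)
      (fun _ _ h => absurd h r304)
      (fun _ _ _ => Or.inr (Or.inr (rfl)))
      (fun _ _ h => absurd h r306)
      (fun _ _ h => absurd h r307))

omit [FiniteDimensional ℝ W] in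
theorem c31
    (e12 : X.L {1} = X.L {2})
    (e23 : X.L {2} = X.L {3})
    (e13 : ¬ X.L {1} = X.L {3}) : False :=
  e13 (Eq.trans e12 e23)

theorem c32
    (r523 : X.L {2, 5} = X.L {3, 5})
    (e23 : ¬ X.L {2} = X.L {3}) : False :=
  e23 (X.ruleL1 (by decide) (by decide) r523)

theorem c33
    (r123 : X.L {2, 1} = X.L {3, 1})
    (e23 : ¬ X.L {2} = X.L {3}) : False :=
  e23 (X.ruleL1 (by decide) (by decide) r123)

theorem c34
    (r413 : X.L {1, 4} = X.L {3, 4})
    (e13 : ¬ X.L {1} = X.L {3}) : False :=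
  e13 (X.ruleL1 (by decide) (by decide) r413)

omit [FiniteDimensional ℝ W] in
theorem c35
    (e15 : X.L {1} = X.L {5})
    (e35 : X.L {3} = X.L {5})
    (e13 : ¬ X.L {1} = X.L {3}) : False :=
  e13 (Eq.trans e15 e35.symm)

theorem c36
    (r135 : X.L {3, 1} = X.L {5, 1})
    (e35 : ¬ X.L {3} = X.L {5}) : False :=
  e35 (X.ruleL1 (by decide) (by decide) r135)

theorem c37
    (r613 : X.L {1, 6} = X.L {3, 6})
    (e13 : ¬ X.L {1} = X.L {3}) : False :=
  e13 (X.ruleL1 (by decide) (by decide) r613)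

omit [FiniteDimensional ℝ W] in
theorem c38
    (e01 : X.L {0} = X.L {1})
    (e12 : X.L {1} = X.L {2})
    (e02 : ¬ X.L {0} = X.L {2}) : False :=
  e02 (Eq.trans e01 e12)

omit [FiniteDimensional ℝ W] in
theorem c39
    (e01 : X.L {0} = X.L {1})
    (e15 : X.L {1} = X.L {5})
    (e05 : ¬ X.L {0} = X.L {5}) : False :=
  e05 (Eq.trans e01 e15)

theorem c40
    (e01 : X.L {0} = X.L {1})
    (e02 : X.L {0} = X.L {2})
    (e04 : X.L {0} = X.L {4})
    (e05 : X.L {0} = X.L {5}) : False :=
  X.ruleFive (by decide) 0 3 6 7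
    (forall8 (Or.inl rfl) (Or.inl e01.symm) (Or.inl e02.symm) (Or.inr (Or.inl rfl))
      (Or.inl e04.symm) (Or.inl e05.symm) (Or.inr (Or.inr (Or.inl rfl))) (Or.inr (Or.inr (Or.inr (rfl)))))

omit [FiniteDimensional ℝ W] in
theorem c41
    (e01 : X.L {0} = X.L {1})
    (e14 : X.L {1} = X.L {4})
    (e04 : ¬ X.L {0} = X.L {4}) : False :=
  e04 (Eq.trans e01 e14)

theorem c42
    (e01 : X.L {0} = X.L {1})
    (e02 : X.L {0} = X.L {2})
    (e05 : X.L {0} = X.L {5})
    (e07 : X.L {0} = X.L {7}) : False :=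
  X.ruleFive (by decide) 0 3 4 6
    (forall8 (Or.inl rfl) (Or.inl e01.symm) (Or.inl e02.symm) (Or.inr (Or.inl rfl))
      (Or.inr (Or.inr (Or.inl rfl))) (Or.inl e05.symm) (Or.inr (Or.inr (Or.inr (rfl)))) (Or.inl e07.symm))

omit [FiniteDimensional ℝ W] in
theorem c43
    (e01 : X.L {0} = X.L {1})
    (e17 : X.L {1} = X.L {7})
    (e07 : ¬ X.L {0} = X.L {7}) : False :=
  e07 (Eq.trans e01 e17)

theorem c44
    (e01 : X.L {0} = X.L {1})
    (e02 : X.L {0} = X.L {2})
    (e05 : X.L {0} = X.L {5})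
    (e06 : X.L {0} = X.L {6}) : False :=
  X.ruleFive (by decide) 0 3 4 7
    (forall8 (Or.inl rfl) (Or.inl e01.symm) (Or.inl e02.symm) (Or.inr (Or.inl rfl))
      (Or.inr (Or.inr (Or.inl rfl))) (Or.inl e05.symm) (Or.inl e06.symm) (Or.inr (Or.inr (Or.inr (rfl)))))

omit [FiniteDimensional ℝ W] in
theorem c45
    (e02 : X.L {0} = X.L {2})
    (e26 : X.L {2} = X.L {6})
    (e06 : ¬ X.L {0} = X.L {6}) : False :=
  e06 (Eq.trans e02 e26)

theorem c46
    (e01 : X.L {0} = X.L {1})
    (e02 : X.L {0} = X.L {2})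
    (e05 : X.L {0} = X.L {5})
    (e36 : X.L {3} = X.L {6}) : False :=
  X.ruleFive (by decide) 0 3 4 7
    (forall8 (Or.inl rfl) (Or.inl e01.symm) (Or.inl e02.symm) (Or.inr (Or.inl rfl))
      (Or.inr (Or.inr (Or.inl rfl))) (Or.inl e05.symm) (Or.inr (Or.inl e36.symm)) (Or.inr (Or.inr (Or.inr (rfl)))))

theorem c47
    (e01 : X.L {0} = X.L {1})
    (e02 : X.L {0} = X.L {2})
    (e34 : X.L {3} = X.L {4})
    (e05 : X.L {0} = X.L {5}) : False :=
  X.ruleFive (by decide) 0 3 6 7
    (forall8 (Or.inl rfl) (Or.inl e01.symm) (Or.inl e02.symm) (Or.inr (Or.inl rfl))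
      (Or.inr (Or.inl e34.symm)) (Or.inl e05.symm) (Or.inr (Or.inr (Or.inl rfl))) (Or.inr (Or.inr (Or.inr (rfl)))))

omit [FiniteDimensional ℝ W] in
theorem c48
    (e05 : X.L {0} = X.L {5})
    (e45 : X.L {4} = X.L {5})
    (e04 : ¬ X.L {0} = X.L {4}) : False :=
  e04 (Eq.trans e05 e45.symm)

theorem c49
    (r245 : X.L {4, 2} = X.L {5, 2})
    (e45 : ¬ X.L {4} = X.L {5}) : False :=
  e45 (X.ruleL1 (by decide) (by decide) r245)

omit [FiniteDimensional ℝ W] in
theorem c50
    (e01 : X.L {0} = X.L {1})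
    (e16 : X.L {1} = X.L {6})
    (e06 : ¬ X.L {0} = X.L {6}) : False :=
  e06 (Eq.trans e01 e16)

theorem c51
    (r316 : X.L {1, 3} = X.L {6, 3})
    (e16 : ¬ X.L {1} = X.L {6}) : False :=
  e16 (X.ruleL1 (by decide) (by decide) r316)

theorem c52
    (r315 : ¬ X.L {1, 3} = X.L {5, 3})
    (r312 : ¬ X.L {1, 3} = X.L {2, 3})
    (r526 : ¬ X.L {2, 5} = X.L {6, 5})
    (r536 : ¬ X.L {3, 5} = X.L {6, 5})
    (r234 : ¬ X.L {3, 2} = X.L {4, 2})
    (r245 : ¬ X.L {4, 2} = X.L {5, 2})
    (r316 : ¬ X.L {1, 3} = X.L {6, 3}) : False :=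
  r316 (X.verB (fun t => r315 t)
    (fun t => r312 t)
    (fun t => r526 t.symm)
    (fun t => r536 t.symm)
    (fun t => r234 t.symm)
    (fun t => r245 t)).1.symm

theorem c53
    (r315 : X.L {1, 3} = X.L {5, 3})
    (r301 : ¬ X.L {0, 3} = X.L {1, 3})
    (r316 : ¬ X.L {1, 3} = X.L {6, 3}) : False :=
  (X.ruleEdge (u := 0) (v := 6) (by decide) (by decide) (by decide) (by decide) (by decide)
    r315).elim (fun t => r301 t.symm) (fun t => r316 t)

omit [FiniteDimensional ℝ W] in
theorem c54
    (r301 : X.L {0, 3} = X.L {1, 3})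
    (r302 : X.L {0, 3} = X.L {2, 3})
    (r312 : ¬ X.L {1, 3} = X.L {2, 3}) : False :=
  r312 (Eq.trans r301.symm r302)

omit [FiniteDimensional ℝ W] in
theorem c55
    (e02 : X.L {0} = X.L {2})
    (e12 : X.L {1} = X.L {2})
    (e01 : ¬ X.L {0} = X.L {1}) : False :=
  e01 (Eq.trans e02 e12.symm)

theorem c56
    (r102 : X.L {0, 1} = X.L {2, 1})
    (e02 : ¬ X.L {0} = X.L {2}) : False :=
  e02 (X.ruleL1 (by decide) (by decide) r102)

theorem c57
    (r502 : X.L {0, 5} = X.L {2, 5})
    (e02 : ¬ X.L {0} = X.L {2}) : False :=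
  e02 (X.ruleL1 (by decide) (by decide) r502)

theorem c58
    (r526 : X.L {2, 5} = X.L {6, 5})
    (r502 : ¬ X.L {0, 5} = X.L {2, 5})
    (r523 : ¬ X.L {2, 5} = X.L {3, 5}) : False :=
  (X.ruleEdge (u := 0) (v := 3) (by decide) (by decide) (by decide) (by decide) (by decide)
    r526).elim (fun t => r502 t.symm) (fun t => r523 t)

theorem c59
    (r402 : X.L {0, 4} = X.L {2, 4})
    (e02 : ¬ X.L {0} = X.L {2}) : False :=
  e02 (X.ruleL1 (by decide) (by decide) r402)

theorem c60
    (r301 : X.L {0, 3} = X.L {1, 3})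
    (e01 : ¬ X.L {0} = X.L {1}) : False :=
  e01 (X.ruleL1 (by decide) (by decide) r301)

theorem c61
    (r601 : X.L {0, 6} = X.L {1, 6})
    (e01 : ¬ X.L {0} = X.L {1}) : False :=
  e01 (X.ruleL1 (by decide) (by decide) r601)

theorem c62
    (r615 : X.L {1, 6} = X.L {5, 6})
    (r601 : ¬ X.L {0, 6} = X.L {1, 6})
    (r613 : ¬ X.L {1, 6} = X.L {3, 6}) : False :=
  (X.ruleEdge (u := 0) (v := 3) (by decide) (by decide) (by decide) (by decide) (by decide)
    r615).elim (fun t => r601 t.symm) (fun t => r613 t)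

omit [FiniteDimensional ℝ W] in
theorem c63
    (e14 : X.L {1} = X.L {4})
    (e34 : X.L {3} = X.L {4})
    (e13 : ¬ X.L {1} = X.L {3}) : False :=
  e13 (Eq.trans e14 e34.symm)

theorem c64
    (r134 : X.L {3, 1} = X.L {4, 1})
    (e34 : ¬ X.L {3} = X.L {4}) : False :=
  e34 (X.ruleL1 (by decide) (by decide) r134)

theorem c65
    (e12 : X.L {1} = X.L {2})
    (e14 : X.L {1} = X.L {4})
    (e15 : X.L {1} = X.L {5})
    (e36 : X.L {3} = X.L {6}) : False :=
  X.ruleFive (by decide) 0 1 3 7
    (forall8 (Or.inl rfl) (Or.inr (Or.inl rfl)) (Or.inr (Or.inl e12.symm)) (Or.inr (Or.inr (Or.inl rfl)))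
      (Or.inr (Or.inl e14.symm)) (Or.inr (Or.inl e15.symm)) (Or.inr (Or.inr (Or.inl e36.symm))) (Or.inr (Or.inr (Or.inr (rfl)))))

theorem c66
    (r136 : X.L {3, 1} = X.L {6, 1})
    (e36 : ¬ X.L {3} = X.L {6}) : False :=
  e36 (X.ruleL1 (by decide) (by decide) r136)

theorem c67
    (e12 : X.L {1} = X.L {2})
    (e14 : X.L {1} = X.L {4})
    (e15 : X.L {1} = X.L {5})
    (e16 : X.L {1} = X.L {6}) : False :=
  X.ruleFive (by decide) 0 1 3 7
    (forall8 (Or.inl rfl) (Or.inr (Or.inl rfl)) (Or.inr (Or.inl e12.symm)) (Or.inr (Or.inr (Or.inl rfl)))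
      (Or.inr (Or.inl e14.symm)) (Or.inr (Or.inl e15.symm)) (Or.inr (Or.inl e16.symm)) (Or.inr (Or.inr (Or.inr (rfl)))))

theorem c68
    (r426 : X.L {2, 4} = X.L {6, 4})
    (e26 : ¬ X.L {2} = X.L {6}) : False :=
  e26 (X.ruleL1 (by decide) (by decide) r426)

theorem c69
    (r416 : X.L {1, 4} = X.L {6, 4})
    (e16 : ¬ X.L {1} = X.L {6}) : False :=
  e16 (X.ruleL1 (by decide) (by decide) r416)

theorem c70
    (e12 : X.L {1} = X.L {2})
    (e14 : X.L {1} = X.L {4})
    (e15 : X.L {1} = X.L {5})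
    (e17 : X.L {1} = X.L {7}) : False :=
  X.ruleFive (by decide) 0 1 3 6
    (forall8 (Or.inl rfl) (Or.inr (Or.inl rfl)) (Or.inr (Or.inl e12.symm)) (Or.inr (Or.inr (Or.inl rfl)))
      (Or.inr (Or.inl e14.symm)) (Or.inr (Or.inl e15.symm)) (Or.inr (Or.inr (Or.inr (rfl)))) (Or.inr (Or.inl e17.symm)))

theorem c71
    (r417 : X.L {1, 4} = X.L {7, 4})
    (e17 : ¬ X.L {1} = X.L {7}) : False :=
  e17 (X.ruleL1 (by decide) (by decide) r417)

theorem c72
    (r412 : X.L {1, 4} = X.L {2, 4})
    (r416 : ¬ X.L {1, 4} = X.L {6, 4})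
    (r417 : ¬ X.L {1, 4} = X.L {7, 4}) : False :=
  (X.ruleEdge (u := 6) (v := 7) (by decide) (by decide) (by decide) (by decide) (by decide)
    r412).elim (fun t => r416 t) (fun t => r417 t)

theorem c73
    (r134 : ¬ X.L {3, 1} = X.L {4, 1})
    (r136 : ¬ X.L {3, 1} = X.L {6, 1})
    (r426 : ¬ X.L {2, 4} = X.L {6, 4})
    (r412 : ¬ X.L {1, 4} = X.L {2, 4})
    (r615 : ¬ X.L {1, 6} = X.L {5, 6})
    (r645 : ¬ X.L {4, 6} = X.L {5, 6})
    (r123 : ¬ X.L {2, 1} = X.L {3, 1}) : False :=
  r123 (X.verA (fun t => r134 t)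
    (fun t => r136 t)
    (fun t => r426 t)
    (fun t => r412 t.symm)
    (fun t => r615 t.symm)
    (fun t => r645 t.symm)).1

omit [FiniteDimensional ℝ W] in
theorem c74
    (e14 : X.L {1} = X.L {4})
    (e47 : X.L {4} = X.L {7})
    (e17 : ¬ X.L {1} = X.L {7}) : False :=
  e17 (Eq.trans e14 e47)

theorem c75
    (r647 : X.L {4, 6} = X.L {7, 6})
    (e47 : ¬ X.L {4} = X.L {7}) : False :=
  e47 (X.ruleL1 (by decide) (by decide) r647)

theorem c76
    (r645 : X.L {4, 6} = X.L {5, 6})
    (r614 : ¬ X.L {1, 6} = X.L {4, 6})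
    (r647 : ¬ X.L {4, 6} = X.L {7, 6}) : False :=
  (X.ruleEdge (u := 1) (v := 7) (by decide) (by decide) (by decide) (by decide) (by decide)
    r645).elim (fun t => r614 t.symm) (fun t => r647 t)

theorem c77
    (r645 : X.L {4, 6} = X.L {5, 6})
    (r624 : ¬ X.L {2, 6} = X.L {4, 6})
    (r647 : ¬ X.L {4, 6} = X.L {7, 6}) : False :=
  (X.ruleEdge (u := 2) (v := 7) (by decide) (by decide) (by decide) (by decide) (by decide)
    r645).elim (fun t => r624 t.symm) (fun t => r647 t)

theorem c78
    (r617 : X.L {1, 6} = X.L {7, 6})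
    (e17 : ¬ X.L {1} = X.L {7}) : False :=
  e17 (X.ruleL1 (by decide) (by decide) r617)

theorem c79
    (r612 : X.L {1, 6} = X.L {2, 6})
    (r615 : ¬ X.L {1, 6} = X.L {5, 6})
    (r617 : ¬ X.L {1, 6} = X.L {7, 6}) : False :=
  (X.ruleEdge (u := 5) (v := 7) (by decide) (by decide) (by decide) (by decide) (by decide)
    r612).elim (fun t => r615 t) (fun t => r617 t)

omit [FiniteDimensional ℝ W] in
theorem c80
    (r614 : X.L {1, 6} = X.L {4, 6})
    (r624 : X.L {2, 6} = X.L {4, 6})
    (r612 : ¬ X.L {1, 6} = X.L {2, 6}) : False :=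
  r612 (Eq.trans r614 r624.symm)

omit [FiniteDimensional ℝ W] in
theorem c81
    (e15 : X.L {1} = X.L {5})
    (e45 : X.L {4} = X.L {5})
    (e14 : ¬ X.L {1} = X.L {4}) : False :=
  e14 (Eq.trans e15 e45.symm)

theorem c82
    (r645 : X.L {4, 6} = X.L {5, 6})
    (e45 : ¬ X.L {4} = X.L {5}) : False :=
  e45 (X.ruleL1 (by decide) (by decide) r645)

omit [FiniteDimensional ℝ W] in
theorem c83
    (e12 : X.L {1} = X.L {2})
    (e27 : X.L {2} = X.L {7})
    (e17 : ¬ X.L {1} = X.L {7}) : False :=
  e17 (Eq.trans e12 e27)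

theorem c84
    (e12 : X.L {1} = X.L {2})
    (e15 : X.L {1} = X.L {5})
    (e16 : X.L {1} = X.L {6})
    (e17 : X.L {1} = X.L {7}) : False :=
  X.ruleFive (by decide) 0 1 3 4
    (forall8 (Or.inl rfl) (Or.inr (Or.inl rfl)) (Or.inr (Or.inl e12.symm)) (Or.inr (Or.inr (Or.inl rfl)))
      (Or.inr (Or.inr (Or.inr (rfl)))) (Or.inr (Or.inl e15.symm)) (Or.inr (Or.inl e16.symm)) (Or.inr (Or.inl e17.symm)))

theorem c85
    (e12 : X.L {1} = X.L {2})
    (e15 : X.L {1} = X.L {5})
    (e36 : X.L {3} = X.L {6})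
    (e17 : X.L {1} = X.L {7}) : False :=
  X.ruleFive (by decide) 0 1 3 4
    (forall8 (Or.inl rfl) (Or.inr (Or.inl rfl)) (Or.inr (Or.inl e12.symm)) (Or.inr (Or.inr (Or.inl rfl)))
      (Or.inr (Or.inr (Or.inr (rfl)))) (Or.inr (Or.inl e15.symm)) (Or.inr (Or.inr (Or.inl e36.symm))) (Or.inr (Or.inl e17.symm)))

theorem c86
    (e12 : X.L {1} = X.L {2})
    (e34 : X.L {3} = X.L {4})
    (e15 : X.L {1} = X.L {5})
    (e17 : X.L {1} = X.L {7}) : False :=
  X.ruleFive (by decide) 0 1 3 6
    (forall8 (Or.inl rfl) (Or.inr (Or.inl rfl)) (Or.inr (Or.inl e12.symm)) (Or.inr (Or.inr (Or.inl rfl)))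
      (Or.inr (Or.inr (Or.inl e34.symm))) (Or.inr (Or.inl e15.symm)) (Or.inr (Or.inr (Or.inr (rfl)))) (Or.inr (Or.inl e17.symm)))

theorem c87
    (r516 : X.L {1, 5} = X.L {6, 5})
    (e16 : ¬ X.L {1} = X.L {6}) : False :=
  e16 (X.ruleL1 (by decide) (by decide) r516)

theorem c88
    (r315 : ¬ X.L {1, 3} = X.L {5, 3})
    (r312 : ¬ X.L {1, 3} = X.L {2, 3})
    (r526 : ¬ X.L {2, 5} = X.L {6, 5})
    (r536 : ¬ X.L {3, 5} = X.L {6, 5})
    (r234 : ¬ X.L {3, 2} = X.L {4, 2})
    (r245 : ¬ X.L {4, 2} = X.L {5, 2})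
    (r516 : ¬ X.L {1, 5} = X.L {6, 5}) : False :=
  r516 (X.verB (fun t => r315 t)
    (fun t => r312 t)
    (fun t => r526 t.symm)
    (fun t => r536 t.symm)
    (fun t => r234 t.symm)
    (fun t => r245 t)).2.1.symm

theorem c89
    (r312 : X.L {1, 3} = X.L {2, 3})
    (r315 : ¬ X.L {1, 3} = X.L {5, 3})
    (r317 : ¬ X.L {1, 3} = X.L {7, 3}) : False :=
  (X.ruleEdge (u := 5) (v := 7) (by decide) (by decide) (by decide) (by decide) (by decide)
    r312).elim (fun t => r315 t) (fun t => r317 t)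

theorem c90
    (r312 : X.L {1, 3} = X.L {2, 3})
    (r301 : ¬ X.L {0, 3} = X.L {1, 3})
    (r314 : ¬ X.L {1, 3} = X.L {4, 3})
    (r315 : ¬ X.L {1, 3} = X.L {5, 3})
    (r316 : ¬ X.L {1, 3} = X.L {6, 3}) : False :=
  X.ruleBerge (w := 7) (by decide) (by decide) (by decide) (by decide) (by decide) r312
    (forall8 (fun _ _ h => absurd h.symm r301)
      (fun _ _ _ => Or.inl rfl)
      (fun _ _ _ => Or.inr (Or.inl rfl))
      (fun _ h _ => absurd rfl h)
      (fun _ _ h => absurd h r314)
      (fun _ _ h => absurd h r315)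
      (fun _ _ h => absurd h r316)
      (fun _ _ _ => Or.inr (Or.inr (rfl))))

omit [FiniteDimensional ℝ W] in
theorem c91
    (e12 : X.L {1} = X.L {2})
    (e17 : X.L {1} = X.L {7})
    (e27 : ¬ X.L {2} = X.L {7}) : False :=
  e27 (Eq.trans e12.symm e17)

theorem c92
    (r412 : X.L {1, 4} = X.L {2, 4})
    (r413 : ¬ X.L {1, 4} = X.L {3, 4})
    (r417 : ¬ X.L {1, 4} = X.L {7, 4}) : False :=
  (X.ruleEdge (u := 3) (v := 7) (by decide) (by decide) (by decide) (by decide) (by decide)
    r412).elim (fun t => r413 t) (fun t => r417 t)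

theorem c93
    (r426 : X.L {2, 4} = X.L {6, 4})
    (r402 : ¬ X.L {0, 4} = X.L {2, 4})
    (r412 : ¬ X.L {1, 4} = X.L {2, 4}) : False :=
  (X.ruleEdge (u := 0) (v := 1) (by decide) (by decide) (by decide) (by decide) (by decide)
    r426).elim (fun t => r402 t.symm) (fun t => r412 t.symm)

theorem c94
    (e12 : X.L {1} = X.L {2})
    (e04 : X.L {0} = X.L {4})
    (e15 : X.L {1} = X.L {5})
    (e36 : X.L {3} = X.L {6}) : False :=
  X.ruleFive (by decide) 0 1 3 7
    (forall8 (Or.inl rfl) (Or.inr (Or.inl rfl)) (Or.inr (Or.inl e12.symm)) (Or.inr (Or.inr (Or.inl rfl)))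
      (Or.inl e04.symm) (Or.inr (Or.inl e15.symm)) (Or.inr (Or.inr (Or.inl e36.symm))) (Or.inr (Or.inr (Or.inr (rfl)))))

theorem c95
    (e12 : X.L {1} = X.L {2})
    (e03 : X.L {0} = X.L {3})
    (e04 : X.L {0} = X.L {4})
    (e15 : X.L {1} = X.L {5}) : False :=
  X.ruleFive (by decide) 0 1 6 7
    (forall8 (Or.inl rfl) (Or.inr (Or.inl rfl)) (Or.inr (Or.inl e12.symm)) (Or.inl e03.symm)
      (Or.inl e04.symm) (Or.inr (Or.inl e15.symm)) (Or.inr (Or.inr (Or.inl rfl))) (Or.inr (Or.inr (Or.inr (rfl)))))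

theorem c96
    (r103 : X.L {0, 1} = X.L {3, 1})
    (e03 : ¬ X.L {0} = X.L {3}) : False :=
  e03 (X.ruleL1 (by decide) (by decide) r103)

theorem c97
    (r134 : X.L {3, 1} = X.L {4, 1})
    (r103 : ¬ X.L {0, 1} = X.L {3, 1})
    (r136 : ¬ X.L {3, 1} = X.L {6, 1}) : False :=
  (X.ruleEdge (u := 0) (v := 6) (by decide) (by decide) (by decide) (by decide) (by decide)
    r134).elim (fun t => r103 t.symm) (fun t => r136 t)

theorem c98
    (r104 : X.L {0, 1} = X.L {4, 1})
    (e04 : ¬ X.L {0} = X.L {4}) : False :=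
  e04 (X.ruleL1 (by decide) (by decide) r104)

theorem c99
    (r103 : X.L {0, 1} = X.L {3, 1})
    (r102 : ¬ X.L {0, 1} = X.L {2, 1})
    (r104 : ¬ X.L {0, 1} = X.L {4, 1}) : False :=
  (X.ruleEdge (u := 2) (v := 4) (by decide) (by decide) (by decide) (by decide) (by decide)
    r103).elim (fun t => r102 t) (fun t => r104 t)

theorem c100
    (r134 : X.L {3, 1} = X.L {4, 1})
    (r103 : ¬ X.L {0, 1} = X.L {3, 1})
    (r123 : ¬ X.L {2, 1} = X.L {3, 1}) : False :=
  (X.ruleEdge (u := 0) (v := 2) (by decide) (by decide) (by decide) (by decide) (by decide)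
    r134).elim (fun t => r103 t.symm) (fun t => r123 t.symm)

theorem c101
    (r136 : X.L {3, 1} = X.L {6, 1})
    (r134 : ¬ X.L {3, 1} = X.L {4, 1})
    (r137 : ¬ X.L {3, 1} = X.L {7, 1}) : False :=
  (X.ruleEdge (u := 4) (v := 7) (by decide) (by decide) (by decide) (by decide) (by decide)
    r136).elim (fun t => r134 t) (fun t => r137 t)

theorem c102
    (r136 : X.L {3, 1} = X.L {6, 1})
    (r103 : ¬ X.L {0, 1} = X.L {3, 1})
    (r123 : ¬ X.L {2, 1} = X.L {3, 1})
    (r134 : ¬ X.L {3, 1} = X.L {4, 1})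
    (r135 : ¬ X.L {3, 1} = X.L {5, 1}) : False :=
  X.ruleBerge (w := 7) (by decide) (by decide) (by decide) (by decide) (by decide) r136
    (forall8 (fun _ _ h => absurd h.symm r103)
      (fun _ h _ => absurd rfl h)
      (fun _ _ h => absurd h.symm r123)
      (fun _ _ _ => Or.inl rfl)
      (fun _ _ h => absurd h r134)
      (fun _ _ h => absurd h r135)
      (fun _ _ _ => Or.inr (Or.inl rfl))
      (fun _ _ _ => Or.inr (Or.inr (rfl))))

theorem c103
    (r512 : X.L {1, 5} = X.L {2, 5})
    (e12 : ¬ X.L {1} = X.L {2}) : False :=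
  e12 (X.ruleL1 (by decide) (by decide) r512)

omit [FiniteDimensional ℝ W] in
theorem c104
    (e15 : X.L {1} = X.L {5})
    (e25 : X.L {2} = X.L {5})
    (e12 : ¬ X.L {1} = X.L {2}) : False :=
  e12 (Eq.trans e15 e25.symm)

theorem c105
    (r215 : X.L {1, 2} = X.L {5, 2})
    (e15 : ¬ X.L {1} = X.L {5}) : False :=
  e15 (X.ruleL1 (by decide) (by decide) r215)

theorem c106
    (r412 : X.L {1, 4} = X.L {2, 4})
    (e12 : ¬ X.L {1} = X.L {2}) : False :=
  e12 (X.ruleL1 (by decide) (by decide) r412)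

theorem c107
    (r312 : X.L {1, 3} = X.L {2, 3})
    (e12 : ¬ X.L {1} = X.L {2}) : False :=
  e12 (X.ruleL1 (by decide) (by decide) r312)

theorem c108
    (r315 : X.L {1, 3} = X.L {5, 3})
    (e15 : ¬ X.L {1} = X.L {5}) : False :=
  e15 (X.ruleL1 (by decide) (by decide) r315)

theorem c109
    (r615 : X.L {1, 6} = X.L {5, 6})
    (e15 : ¬ X.L {1} = X.L {5}) : False :=
  e15 (X.ruleL1 (by decide) (by decide) r615)

omit [FiniteDimensional ℝ W] in
theorem c110
    (e25 : X.L {2} = X.L {5})
    (e45 : X.L {4} = X.L {5})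
    (e24 : ¬ X.L {2} = X.L {4}) : False :=
  e24 (Eq.trans e25 e45.symm)

omit [FiniteDimensional ℝ W] in
theorem c111
    (r614 : X.L {1, 6} = X.L {4, 6})
    (r645 : X.L {4, 6} = X.L {5, 6})
    (r615 : ¬ X.L {1, 6} = X.L {5, 6}) : False :=
  r615 (Eq.trans r614 r645)

omit [FiniteDimensional ℝ W] in
theorem c112
    (e24 : X.L {2} = X.L {4})
    (e47 : X.L {4} = X.L {7})
    (e27 : ¬ X.L {2} = X.L {7}) : False :=
  e27 (Eq.trans e24 e47)

theorem c113
    (e24 : X.L {2} = X.L {4})
    (e25 : X.L {2} = X.L {5})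
    (e26 : X.L {2} = X.L {6})
    (e27 : X.L {2} = X.L {7}) : False :=
  X.ruleFive (by decide) 0 1 2 3
    (forall8 (Or.inl rfl) (Or.inr (Or.inl rfl)) (Or.inr (Or.inr (Or.inl rfl))) (Or.inr (Or.inr (Or.inr (rfl))))
      (Or.inr (Or.inr (Or.inl e24.symm))) (Or.inr (Or.inr (Or.inl e25.symm))) (Or.inr (Or.inr (Or.inl e26.symm))) (Or.inr (Or.inr (Or.inl e27.symm))))

theorem c114
    (e24 : X.L {2} = X.L {4})
    (e25 : X.L {2} = X.L {5})
    (e36 : X.L {3} = X.L {6})
    (e27 : X.L {2} = X.L {7}) : False :=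
  X.ruleFive (by decide) 0 1 2 3
    (forall8 (Or.inl rfl) (Or.inr (Or.inl rfl)) (Or.inr (Or.inr (Or.inl rfl))) (Or.inr (Or.inr (Or.inr (rfl))))
      (Or.inr (Or.inr (Or.inl e24.symm))) (Or.inr (Or.inr (Or.inl e25.symm))) (Or.inr (Or.inr (Or.inr (e36.symm)))) (Or.inr (Or.inr (Or.inl e27.symm))))

theorem c115
    (e03 : X.L {0} = X.L {3})
    (e24 : X.L {2} = X.L {4})
    (e25 : X.L {2} = X.L {5})
    (e27 : X.L {2} = X.L {7}) : False :=
  X.ruleFive (by decide) 0 1 2 6
    (forall8 (Or.inl rfl) (Or.inr (Or.inl rfl)) (Or.inr (Or.inr (Or.inl rfl))) (Or.inl e03.symm)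
      (Or.inr (Or.inr (Or.inl e24.symm))) (Or.inr (Or.inr (Or.inl e25.symm))) (Or.inr (Or.inr (Or.inr (rfl)))) (Or.inr (Or.inr (Or.inl e27.symm))))

theorem c116
    (r203 : X.L {0, 2} = X.L {3, 2})
    (e03 : ¬ X.L {0} = X.L {3}) : False :=
  e03 (X.ruleL1 (by decide) (by decide) r203)

theorem c117
    (e13 : X.L {1} = X.L {3})
    (e24 : X.L {2} = X.L {4})
    (e25 : X.L {2} = X.L {5})
    (e27 : X.L {2} = X.L {7}) : False :=
  X.ruleFive (by decide) 0 1 2 6
    (forall8 (Or.inl rfl) (Or.inr (Or.inl rfl)) (Or.inr (Or.inr (Or.inl rfl))) (Or.inr (Or.inl e13.symm))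
      (Or.inr (Or.inr (Or.inl e24.symm))) (Or.inr (Or.inr (Or.inl e25.symm))) (Or.inr (Or.inr (Or.inr (rfl)))) (Or.inr (Or.inr (Or.inl e27.symm))))

theorem c118
    (r213 : X.L {1, 2} = X.L {3, 2})
    (e13 : ¬ X.L {1} = X.L {3}) : False :=
  e13 (X.ruleL1 (by decide) (by decide) r213)

theorem c119
    (r234 : X.L {3, 2} = X.L {4, 2})
    (r203 : ¬ X.L {0, 2} = X.L {3, 2})
    (r213 : ¬ X.L {1, 2} = X.L {3, 2}) : False :=
  (X.ruleEdge (u := 0) (v := 1) (by decide) (by decide) (by decide) (by decide) (by decide)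
    r234).elim (fun t => r203 t.symm) (fun t => r213 t.symm)

omit [FiniteDimensional ℝ W] in
theorem c120
    (e24 : X.L {2} = X.L {4})
    (e46 : X.L {4} = X.L {6})
    (e26 : ¬ X.L {2} = X.L {6}) : False :=
  e26 (Eq.trans e24 e46)

theorem c121
    (r315 : ¬ X.L {1, 3} = X.L {5, 3})
    (r312 : ¬ X.L {1, 3} = X.L {2, 3})
    (r526 : ¬ X.L {2, 5} = X.L {6, 5})
    (r536 : ¬ X.L {3, 5} = X.L {6, 5})
    (r234 : ¬ X.L {3, 2} = X.L {4, 2})
    (r245 : ¬ X.L {4, 2} = X.L {5, 2})
    (r246 : ¬ X.L {4, 2} = X.L {6, 2}) : False :=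
  r246 (X.verB (fun t => r315 t)
    (fun t => r312 t)
    (fun t => r526 t.symm)
    (fun t => r536 t.symm)
    (fun t => r234 t.symm)
    (fun t => r245 t)).2.2.2.1

theorem c122
    (e01 : X.L {0} = X.L {1})
    (e24 : X.L {2} = X.L {4})
    (e25 : X.L {2} = X.L {5})
    (e27 : X.L {2} = X.L {7}) : False :=
  X.ruleFive (by decide) 0 2 3 6
    (forall8 (Or.inl rfl) (Or.inl e01.symm) (Or.inr (Or.inl rfl)) (Or.inr (Or.inr (Or.inl rfl)))
      (Or.inr (Or.inl e24.symm)) (Or.inr (Or.inl e25.symm)) (Or.inr (Or.inr (Or.inr (rfl)))) (Or.inr (Or.inl e27.symm)))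

theorem c123
    (r201 : X.L {0, 2} = X.L {1, 2})
    (e01 : ¬ X.L {0} = X.L {1}) : False :=
  e01 (X.ruleL1 (by decide) (by decide) r201)

theorem c124
    (r204 : X.L {0, 2} = X.L {4, 2})
    (r201 : ¬ X.L {0, 2} = X.L {1, 2})
    (r203 : ¬ X.L {0, 2} = X.L {3, 2}) : False :=
  (X.ruleEdge (u := 1) (v := 3) (by decide) (by decide) (by decide) (by decide) (by decide)
    r204).elim (fun t => r201 t) (fun t => r203 t)

omit [FiniteDimensional ℝ W] in
theorem c125
    (e14 : X.L {1} = X.L {4})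
    (e45 : X.L {4} = X.L {5})
    (e15 : ¬ X.L {1} = X.L {5}) : False :=
  e15 (Eq.trans e14 e45)

theorem c126
    (r245 : X.L {4, 2} = X.L {5, 2})
    (r204 : ¬ X.L {0, 2} = X.L {4, 2})
    (r214 : ¬ X.L {1, 2} = X.L {4, 2})
    (r234 : ¬ X.L {3, 2} = X.L {4, 2})
    (r246 : ¬ X.L {4, 2} = X.L {6, 2}) : False :=
  X.ruleBerge (w := 7) (by decide) (by decide) (by decide) (by decide) (by decide) r245
    (forall8 (fun _ _ h => absurd h.symm r204)
      (fun _ _ h => absurd h.symm r214)
      (fun _ h _ => absurd rfl h)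
      (fun _ _ h => absurd h.symm r234)
      (fun _ _ _ => Or.inl rfl)
      (fun _ _ _ => Or.inr (Or.inl rfl))
      (fun _ _ h => absurd h r246)
      (fun _ _ _ => Or.inr (Or.inr (rfl))))

omit [FiniteDimensional ℝ W] in
theorem c127
    (r402 : X.L {0, 4} = X.L {2, 4})
    (r426 : X.L {2, 4} = X.L {6, 4})
    (r406 : ¬ X.L {0, 4} = X.L {6, 4}) : False :=
  r406 (Eq.trans r402 r426)

theorem c128
    (r406 : X.L {0, 4} = X.L {6, 4})
    (e06 : ¬ X.L {0} = X.L {6}) : False :=
  e06 (X.ruleL1 (by decide) (by decide) r406)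

omit [FiniteDimensional ℝ W] in
theorem c129
    (e02 : X.L {0} = X.L {2})
    (e25 : X.L {2} = X.L {5})
    (e05 : ¬ X.L {0} = X.L {5}) : False :=
  e05 (Eq.trans e02 e25)

theorem c130
    (e02 : X.L {0} = X.L {2})
    (e03 : X.L {0} = X.L {3})
    (e05 : X.L {0} = X.L {5})
    (e06 : X.L {0} = X.L {6}) : False :=
  X.ruleFive (by decide) 0 1 4 7
    (forall8 (Or.inl rfl) (Or.inr (Or.inl rfl)) (Or.inl e02.symm) (Or.inl e03.symm)
      (Or.inr (Or.inr (Or.inl rfl))) (Or.inl e05.symm) (Or.inl e06.symm) (Or.inr (Or.inr (Or.inr (rfl)))))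

omit [FiniteDimensional ℝ W] in
theorem c131
    (e06 : X.L {0} = X.L {6})
    (e36 : X.L {3} = X.L {6})
    (e03 : ¬ X.L {0} = X.L {3}) : False :=
  e03 (Eq.trans e06 e36.symm)

theorem c132
    (e02 : X.L {0} = X.L {2})
    (e34 : X.L {3} = X.L {4})
    (e05 : X.L {0} = X.L {5})
    (e06 : X.L {0} = X.L {6}) : False :=
  X.ruleFive (by decide) 0 1 3 7
    (forall8 (Or.inl rfl) (Or.inr (Or.inl rfl)) (Or.inl e02.symm) (Or.inr (Or.inr (Or.inl rfl)))
      (Or.inr (Or.inr (Or.inl e34.symm))) (Or.inl e05.symm) (Or.inl e06.symm) (Or.inr (Or.inr (Or.inr (rfl)))))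

theorem c133
    (e02 : X.L {0} = X.L {2})
    (e04 : X.L {0} = X.L {4})
    (e05 : X.L {0} = X.L {5})
    (e06 : X.L {0} = X.L {6}) : False :=
  X.ruleFive (by decide) 0 1 3 7
    (forall8 (Or.inl rfl) (Or.inr (Or.inl rfl)) (Or.inl e02.symm) (Or.inr (Or.inr (Or.inl rfl)))
      (Or.inl e04.symm) (Or.inl e05.symm) (Or.inl e06.symm) (Or.inr (Or.inr (Or.inr (rfl)))))

theorem c134
    (e02 : X.L {0} = X.L {2})
    (e14 : X.L {1} = X.L {4})
    (e05 : X.L {0} = X.L {5})
    (e06 : X.L {0} = X.L {6}) : False :=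
  X.ruleFive (by decide) 0 1 3 7
    (forall8 (Or.inl rfl) (Or.inr (Or.inl rfl)) (Or.inl e02.symm) (Or.inr (Or.inr (Or.inl rfl)))
      (Or.inr (Or.inl e14.symm)) (Or.inl e05.symm) (Or.inl e06.symm) (Or.inr (Or.inr (Or.inr (rfl)))))

omit [FiniteDimensional ℝ W] in
theorem c135
    (e02 : X.L {0} = X.L {2})
    (e24 : X.L {2} = X.L {4})
    (e04 : ¬ X.L {0} = X.L {4}) : False :=
  e04 (Eq.trans e02 e24)

theorem c136
    (r524 : X.L {2, 5} = X.L {4, 5})
    (e24 : ¬ X.L {2} = X.L {4}) : False :=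
  e24 (X.ruleL1 (by decide) (by decide) r524)

theorem c137
    (r526 : X.L {2, 5} = X.L {6, 5})
    (r502 : ¬ X.L {0, 5} = X.L {2, 5})
    (r524 : ¬ X.L {2, 5} = X.L {4, 5}) : False :=
  (X.ruleEdge (u := 0) (v := 4) (by decide) (by decide) (by decide) (by decide) (by decide)
    r526).elim (fun t => r502 t.symm) (fun t => r524 t)

omit [FiniteDimensional ℝ W] in
theorem c138
    (r502 : X.L {0, 5} = X.L {2, 5})
    (r526 : X.L {2, 5} = X.L {6, 5})
    (r506 : ¬ X.L {0, 5} = X.L {6, 5}) : False :=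
  r506 (Eq.trans r502 r526)

omit [FiniteDimensional ℝ W] in
theorem c139
    (e01 : X.L {0} = X.L {1})
    (e02 : X.L {0} = X.L {2})
    (e12 : ¬ X.L {1} = X.L {2}) : False :=
  e12 (Eq.trans e01.symm e02)

theorem c140
    (r501 : X.L {0, 5} = X.L {1, 5})
    (e01 : ¬ X.L {0} = X.L {1}) : False :=
  e01 (X.ruleL1 (by decide) (by decide) r501)

theorem c141
    (r503 : X.L {0, 5} = X.L {3, 5})
    (e03 : ¬ X.L {0} = X.L {3}) : False :=
  e03 (X.ruleL1 (by decide) (by decide) r503)

theorem c142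
    (r504 : X.L {0, 5} = X.L {4, 5})
    (e04 : ¬ X.L {0} = X.L {4}) : False :=
  e04 (X.ruleL1 (by decide) (by decide) r504)

theorem c143
    (e02 : X.L {0} = X.L {2})
    (e05 : X.L {0} = X.L {5})
    (e06 : X.L {0} = X.L {6})
    (e07 : X.L {0} = X.L {7}) : False :=
  X.ruleFive (by decide) 0 1 3 4
    (forall8 (Or.inl rfl) (Or.inr (Or.inl rfl)) (Or.inl e02.symm) (Or.inr (Or.inr (Or.inl rfl)))
      (Or.inr (Or.inr (Or.inr (rfl)))) (Or.inl e05.symm) (Or.inl e06.symm) (Or.inl e07.symm))

theorem c144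
    (r507 : X.L {0, 5} = X.L {7, 5})
    (e07 : ¬ X.L {0} = X.L {7}) : False :=
  e07 (X.ruleL1 (by decide) (by decide) r507)

theorem c145
    (r502 : X.L {0, 5} = X.L {2, 5})
    (r501 : ¬ X.L {0, 5} = X.L {1, 5})
    (r503 : ¬ X.L {0, 5} = X.L {3, 5})
    (r504 : ¬ X.L {0, 5} = X.L {4, 5})
    (r507 : ¬ X.L {0, 5} = X.L {7, 5}) : False :=
  X.ruleBerge (w := 6) (by decide) (by decide) (by decide) (by decide) (by decide) r502
    (forall8 (fun _ _ _ => Or.inl rfl)
      (fun _ _ h => absurd h r501)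
      (fun _ _ _ => Or.inr (Or.inl rfl))
      (fun _ _ h => absurd h r503)
      (fun _ _ h => absurd h r504)
      (fun _ h _ => absurd rfl h)
      (fun _ _ _ => Or.inr (Or.inr (rfl)))
      (fun _ _ h => absurd h r507))

omit [FiniteDimensional ℝ W] in
theorem c146
    (e13 : X.L {1} = X.L {3})
    (e23 : X.L {2} = X.L {3})
    (e12 : ¬ X.L {1} = X.L {2}) : False :=
  e12 (Eq.trans e13 e23.symm)

omit [FiniteDimensional ℝ W] in
theorem c147
    (e13 : X.L {1} = X.L {3})
    (e35 : X.L {3} = X.L {5})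
    (e15 : ¬ X.L {1} = X.L {5}) : False :=
  e15 (Eq.trans e13 e35)

theorem c148
    (e13 : X.L {1} = X.L {3})
    (e14 : X.L {1} = X.L {4})
    (e25 : X.L {2} = X.L {5})
    (e16 : X.L {1} = X.L {6}) : False :=
  X.ruleFive (by decide) 0 1 2 7
    (forall8 (Or.inl rfl) (Or.inr (Or.inl rfl)) (Or.inr (Or.inr (Or.inl rfl))) (Or.inr (Or.inl e13.symm))
      (Or.inr (Or.inl e14.symm)) (Or.inr (Or.inr (Or.inl e25.symm))) (Or.inr (Or.inl e16.symm)) (Or.inr (Or.inr (Or.inr (rfl)))))

omit [FiniteDimensional ℝ W] in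
theorem c149
    (r103 : X.L {0, 1} = X.L {3, 1})
    (r134 : X.L {3, 1} = X.L {4, 1})
    (r104 : ¬ X.L {0, 1} = X.L {4, 1}) : False :=
  r104 (Eq.trans r103 r134)

omit [FiniteDimensional ℝ W] in
theorem c150
    (r102 : X.L {0, 1} = X.L {2, 1})
    (r103 : X.L {0, 1} = X.L {3, 1})
    (r123 : ¬ X.L {2, 1} = X.L {3, 1}) : False :=
  r123 (Eq.trans r102.symm r103)

omit [FiniteDimensional ℝ W] in
theorem c151
    (r103 : X.L {0, 1} = X.L {3, 1})
    (r105 : X.L {0, 1} = X.L {5, 1})
    (r135 : ¬ X.L {3, 1} = X.L {5, 1}) : False :=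
  r135 (Eq.trans r103.symm r105)

theorem c152
    (e13 : X.L {1} = X.L {3})
    (e14 : X.L {1} = X.L {4})
    (e25 : X.L {2} = X.L {5})
    (e06 : X.L {0} = X.L {6}) : False :=
  X.ruleFive (by decide) 0 1 2 7
    (forall8 (Or.inl rfl) (Or.inr (Or.inl rfl)) (Or.inr (Or.inr (Or.inl rfl))) (Or.inr (Or.inl e13.symm))
      (Or.inr (Or.inl e14.symm)) (Or.inr (Or.inr (Or.inl e25.symm))) (Or.inl e06.symm) (Or.inr (Or.inr (Or.inr (rfl)))))

theorem c153
    (r106 : X.L {0, 1} = X.L {6, 1})
    (e06 : ¬ X.L {0} = X.L {6}) : False :=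
  e06 (X.ruleL1 (by decide) (by decide) r106)

theorem c154
    (e13 : X.L {1} = X.L {3})
    (e14 : X.L {1} = X.L {4})
    (e25 : X.L {2} = X.L {5})
    (e07 : X.L {0} = X.L {7}) : False :=
  X.ruleFive (by decide) 0 1 2 6
    (forall8 (Or.inl rfl) (Or.inr (Or.inl rfl)) (Or.inr (Or.inr (Or.inl rfl))) (Or.inr (Or.inl e13.symm))
      (Or.inr (Or.inl e14.symm)) (Or.inr (Or.inr (Or.inl e25.symm))) (Or.inr (Or.inr (Or.inr (rfl)))) (Or.inl e07.symm))

theorem c155
    (r107 : X.L {0, 1} = X.L {7, 1})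
    (e07 : ¬ X.L {0} = X.L {7}) : False :=
  e07 (X.ruleL1 (by decide) (by decide) r107)

theorem c156
    (r103 : X.L {0, 1} = X.L {3, 1})
    (r102 : ¬ X.L {0, 1} = X.L {2, 1})
    (r105 : ¬ X.L {0, 1} = X.L {5, 1})
    (r106 : ¬ X.L {0, 1} = X.L {6, 1})
    (r107 : ¬ X.L {0, 1} = X.L {7, 1}) : False :=
  X.ruleBerge (w := 4) (by decide) (by decide) (by decide) (by decide) (by decide) r103
    (forall8 (fun _ _ _ => Or.inl rfl)
      (fun _ h _ => absurd rfl h)
      (fun _ _ h => absurd h r102)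
      (fun _ _ _ => Or.inr (Or.inl rfl))
      (fun _ _ _ => Or.inr (Or.inr (rfl)))
      (fun _ _ h => absurd h r105)
      (fun _ _ h => absurd h r106)
      (fun _ _ h => absurd h r107))

omit [FiniteDimensional ℝ W] in
theorem c157
    (r103 : X.L {0, 1} = X.L {3, 1})
    (r104 : X.L {0, 1} = X.L {4, 1})
    (r134 : ¬ X.L {3, 1} = X.L {4, 1}) : False :=
  r134 (Eq.trans r103.symm r104)

theorem c158
    (r513 : X.L {1, 5} = X.L {3, 5})
    (e13 : ¬ X.L {1} = X.L {3}) : False :=
  e13 (X.ruleL1 (by decide) (by decide) r513)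

omit [FiniteDimensional ℝ W] in
theorem c159
    (r201 : X.L {0, 2} = X.L {1, 2})
    (r203 : X.L {0, 2} = X.L {3, 2})
    (r213 : ¬ X.L {1, 2} = X.L {3, 2}) : False :=
  r213 (Eq.trans r201.symm r203)

theorem c160
    (r203 : X.L {0, 2} = X.L {3, 2})
    (r201 : ¬ X.L {0, 2} = X.L {1, 2})
    (r204 : ¬ X.L {0, 2} = X.L {4, 2}) : False :=
  (X.ruleEdge (u := 1) (v := 4) (by decide) (by decide) (by decide) (by decide) (by decide)
    r203).elim (fun t => r201 t) (fun t => r204 t)

theorem c161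
    (r204 : X.L {0, 2} = X.L {4, 2})
    (e04 : ¬ X.L {0} = X.L {4}) : False :=
  e04 (X.ruleL1 (by decide) (by decide) r204)

theorem c162
    (e03 : X.L {0} = X.L {3})
    (e04 : X.L {0} = X.L {4})
    (e25 : X.L {2} = X.L {5})
    (e06 : X.L {0} = X.L {6}) : False :=
  X.ruleFive (by decide) 0 1 2 7
    (forall8 (Or.inl rfl) (Or.inr (Or.inl rfl)) (Or.inr (Or.inr (Or.inl rfl))) (Or.inl e03.symm)
      (Or.inl e04.symm) (Or.inr (Or.inr (Or.inl e25.symm))) (Or.inl e06.symm) (Or.inr (Or.inr (Or.inr (rfl)))))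

theorem c163
    (r206 : X.L {0, 2} = X.L {6, 2})
    (e06 : ¬ X.L {0} = X.L {6}) : False :=
  e06 (X.ruleL1 (by decide) (by decide) r206)

theorem c164
    (e03 : X.L {0} = X.L {3})
    (e04 : X.L {0} = X.L {4})
    (e25 : X.L {2} = X.L {5})
    (e07 : X.L {0} = X.L {7}) : False :=
  X.ruleFive (by decide) 0 1 2 6
    (forall8 (Or.inl rfl) (Or.inr (Or.inl rfl)) (Or.inr (Or.inr (Or.inl rfl))) (Or.inl e03.symm)
      (Or.inl e04.symm) (Or.inr (Or.inr (Or.inl e25.symm))) (Or.inr (Or.inr (Or.inr (rfl)))) (Or.inl e07.symm))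

theorem c165
    (r207 : X.L {0, 2} = X.L {7, 2})
    (e07 : ¬ X.L {0} = X.L {7}) : False :=
  e07 (X.ruleL1 (by decide) (by decide) r207)

theorem c166
    (r203 : X.L {0, 2} = X.L {3, 2})
    (r201 : ¬ X.L {0, 2} = X.L {1, 2})
    (r205 : ¬ X.L {0, 2} = X.L {5, 2})
    (r206 : ¬ X.L {0, 2} = X.L {6, 2})
    (r207 : ¬ X.L {0, 2} = X.L {7, 2}) : False :=
  X.ruleBerge (w := 4) (by decide) (by decide) (by decide) (by decide) (by decide) r203
    (forall8 (fun _ _ _ => Or.inl rfl)
      (fun _ _ h => absurd h r201)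
      (fun _ h _ => absurd rfl h)
      (fun _ _ _ => Or.inr (Or.inl rfl))
      (fun _ _ _ => Or.inr (Or.inr (rfl)))
      (fun _ _ h => absurd h r205)
      (fun _ _ h => absurd h r206)
      (fun _ _ h => absurd h r207))

omit [FiniteDimensional ℝ W] in
theorem c167
    (e04 : X.L {0} = X.L {4})
    (e46 : X.L {4} = X.L {6})
    (e06 : ¬ X.L {0} = X.L {6}) : False :=
  e06 (Eq.trans e04 e46)

omit [FiniteDimensional ℝ W] in
theorem c168
    (e04 : X.L {0} = X.L {4})
    (e47 : X.L {4} = X.L {7})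
    (e07 : ¬ X.L {0} = X.L {7}) : False :=
  e07 (Eq.trans e04 e47)

omit [FiniteDimensional ℝ W] in
theorem c169
    (r204 : X.L {0, 2} = X.L {4, 2})
    (r205 : X.L {0, 2} = X.L {5, 2})
    (r245 : ¬ X.L {4, 2} = X.L {5, 2}) : False :=
  r245 (Eq.trans r204.symm r205)

theorem c170
    (e01 : X.L {0} = X.L {1})
    (e04 : X.L {0} = X.L {4})
    (e25 : X.L {2} = X.L {5})
    (e26 : X.L {2} = X.L {6}) : False :=
  X.ruleFive (by decide) 0 2 3 7
    (forall8 (Or.inl rfl) (Or.inl e01.symm) (Or.inr (Or.inl rfl)) (Or.inr (Or.inr (Or.inl rfl)))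
      (Or.inl e04.symm) (Or.inr (Or.inl e25.symm)) (Or.inr (Or.inl e26.symm)) (Or.inr (Or.inr (Or.inr (rfl)))))

theorem c171
    (e01 : X.L {0} = X.L {1})
    (e04 : X.L {0} = X.L {4})
    (e25 : X.L {2} = X.L {5})
    (e36 : X.L {3} = X.L {6}) : False :=
  X.ruleFive (by decide) 0 2 3 7
    (forall8 (Or.inl rfl) (Or.inl e01.symm) (Or.inr (Or.inl rfl)) (Or.inr (Or.inr (Or.inl rfl)))
      (Or.inl e04.symm) (Or.inr (Or.inl e25.symm)) (Or.inr (Or.inr (Or.inl e36.symm))) (Or.inr (Or.inr (Or.inr (rfl)))))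

omit [FiniteDimensional ℝ W] in
theorem c172
    (r201 : X.L {0, 2} = X.L {1, 2})
    (r204 : X.L {0, 2} = X.L {4, 2})
    (r214 : ¬ X.L {1, 2} = X.L {4, 2}) : False :=
  r214 (Eq.trans r201.symm r204)

omit [FiniteDimensional ℝ W] in
theorem c173
    (r214 : X.L {1, 2} = X.L {4, 2})
    (r245 : X.L {4, 2} = X.L {5, 2})
    (r215 : ¬ X.L {1, 2} = X.L {5, 2}) : False :=
  r215 (Eq.trans r214 r245)

theorem c174
    (e01 : X.L {0} = X.L {1})
    (e04 : X.L {0} = X.L {4})
    (e25 : X.L {2} = X.L {5})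
    (e06 : X.L {0} = X.L {6}) : False :=
  X.ruleFive (by decide) 0 2 3 7
    (forall8 (Or.inl rfl) (Or.inl e01.symm) (Or.inr (Or.inl rfl)) (Or.inr (Or.inr (Or.inl rfl)))
      (Or.inl e04.symm) (Or.inr (Or.inl e25.symm)) (Or.inl e06.symm) (Or.inr (Or.inr (Or.inr (rfl)))))

theorem c175
    (r245 : X.L {4, 2} = X.L {5, 2})
    (r234 : ¬ X.L {3, 2} = X.L {4, 2})
    (r247 : ¬ X.L {4, 2} = X.L {7, 2}) : False :=
  (X.ruleEdge (u := 3) (v := 7) (by decide) (by decide) (by decide) (by decide) (by decide)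
    r245).elim (fun t => r234 t.symm) (fun t => r247 t)

omit [FiniteDimensional ℝ W] in
theorem c176
    (e16 : X.L {1} = X.L {6})
    (e26 : X.L {2} = X.L {6})
    (e12 : ¬ X.L {1} = X.L {2}) : False :=
  e12 (Eq.trans e16 e26.symm)

omit [FiniteDimensional ℝ W] in
theorem c177
    (e16 : X.L {1} = X.L {6})
    (e36 : X.L {3} = X.L {6})
    (e13 : ¬ X.L {1} = X.L {3}) : False :=
  e13 (Eq.trans e16 e36.symm)

theorem c178
    (r315 : ¬ X.L {1, 3} = X.L {5, 3})
    (r312 : ¬ X.L {1, 3} = X.L {2, 3})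
    (r526 : ¬ X.L {2, 5} = X.L {6, 5})
    (r536 : ¬ X.L {3, 5} = X.L {6, 5})
    (r234 : ¬ X.L {3, 2} = X.L {4, 2})
    (r245 : ¬ X.L {4, 2} = X.L {5, 2})
    (r546 : ¬ X.L {4, 5} = X.L {6, 5}) : False :=
  r546 (X.verB (fun t => r315 t)
    (fun t => r312 t)
    (fun t => r526 t.symm)
    (fun t => r536 t.symm)
    (fun t => r234 t.symm)
    (fun t => r245 t)).2.2.1

theorem c179
    (r546 : X.L {4, 5} = X.L {6, 5})
    (e46 : ¬ X.L {4} = X.L {6}) : False :=
  e46 (X.ruleL1 (by decide) (by decide) r546)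

omit [FiniteDimensional ℝ W] in
theorem c180
    (e34 : X.L {3} = X.L {4})
    (e46 : X.L {4} = X.L {6})
    (e36 : ¬ X.L {3} = X.L {6}) : False :=
  e36 (Eq.trans e34 e46)

theorem c181
    (e23 : X.L {2} = X.L {3})
    (e14 : X.L {1} = X.L {4})
    (e25 : X.L {2} = X.L {5})
    (e16 : X.L {1} = X.L {6}) : False :=
  X.ruleFive (by decide) 0 1 2 7
    (forall8 (Or.inl rfl) (Or.inr (Or.inl rfl)) (Or.inr (Or.inr (Or.inl rfl))) (Or.inr (Or.inr (Or.inl e23.symm)))
      (Or.inr (Or.inl e14.symm)) (Or.inr (Or.inr (Or.inl e25.symm))) (Or.inr (Or.inl e16.symm)) (Or.inr (Or.inr (Or.inr (rfl)))))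

theorem c182
    (r536 : X.L {3, 5} = X.L {6, 5})
    (r513 : ¬ X.L {1, 5} = X.L {3, 5})
    (r537 : ¬ X.L {3, 5} = X.L {7, 5}) : False :=
  (X.ruleEdge (u := 1) (v := 7) (by decide) (by decide) (by decide) (by decide) (by decide)
    r536).elim (fun t => r513 t.symm) (fun t => r537 t)

theorem c183
    (r537 : X.L {3, 5} = X.L {7, 5})
    (e37 : ¬ X.L {3} = X.L {7}) : False :=
  e37 (X.ruleL1 (by decide) (by decide) r537)

theorem c184
    (e04 : X.L {0} = X.L {4})
    (e25 : X.L {2} = X.L {5})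
    (e36 : X.L {3} = X.L {6})
    (e37 : X.L {3} = X.L {7}) : False :=
  X.ruleFive (by decide) 0 1 2 3
    (forall8 (Or.inl rfl) (Or.inr (Or.inl rfl)) (Or.inr (Or.inr (Or.inl rfl))) (Or.inr (Or.inr (Or.inr (rfl))))
      (Or.inl e04.symm) (Or.inr (Or.inr (Or.inl e25.symm))) (Or.inr (Or.inr (Or.inr (e36.symm)))) (Or.inr (Or.inr (Or.inr (e37.symm)))))

theorem c185
    (e24 : X.L {2} = X.L {4})
    (e25 : X.L {2} = X.L {5})
    (e36 : X.L {3} = X.L {6})
    (e37 : X.L {3} = X.L {7}) : False :=
  X.ruleFive (by decide) 0 1 2 3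
    (forall8 (Or.inl rfl) (Or.inr (Or.inl rfl)) (Or.inr (Or.inr (Or.inl rfl))) (Or.inr (Or.inr (Or.inr (rfl))))
      (Or.inr (Or.inr (Or.inl e24.symm))) (Or.inr (Or.inr (Or.inl e25.symm))) (Or.inr (Or.inr (Or.inr (e36.symm)))) (Or.inr (Or.inr (Or.inr (e37.symm)))))

theorem c186
    (e34 : X.L {3} = X.L {4})
    (e25 : X.L {2} = X.L {5})
    (e36 : X.L {3} = X.L {6})
    (e37 : X.L {3} = X.L {7}) : False :=
  X.ruleFive (by decide) 0 1 2 3
    (forall8 (Or.inl rfl) (Or.inr (Or.inl rfl)) (Or.inr (Or.inr (Or.inl rfl))) (Or.inr (Or.inr (Or.inr (rfl))))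
      (Or.inr (Or.inr (Or.inr (e34.symm)))) (Or.inr (Or.inr (Or.inl e25.symm))) (Or.inr (Or.inr (Or.inr (e36.symm)))) (Or.inr (Or.inr (Or.inr (e37.symm)))))

theorem c187
    (r534 : X.L {3, 5} = X.L {4, 5})
    (e34 : ¬ X.L {3} = X.L {4}) : False :=
  e34 (X.ruleL1 (by decide) (by decide) r534)

omit [FiniteDimensional ℝ W] in
theorem c188
    (r503 : X.L {0, 5} = X.L {3, 5})
    (r536 : X.L {3, 5} = X.L {6, 5})
    (r506 : ¬ X.L {0, 5} = X.L {6, 5}) : False :=
  r506 (Eq.trans r503 r536)

theorem c189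
    (r506 : X.L {0, 5} = X.L {6, 5})
    (e06 : ¬ X.L {0} = X.L {6}) : False :=
  e06 (X.ruleL1 (by decide) (by decide) r506)

omit [FiniteDimensional ℝ W] in
theorem c190
    (r503 : X.L {0, 5} = X.L {3, 5})
    (r537 : X.L {3, 5} = X.L {7, 5})
    (r507 : ¬ X.L {0, 5} = X.L {7, 5}) : False :=
  r507 (Eq.trans r503 r537)

theorem c191
    (e03 : X.L {0} = X.L {3})
    (e25 : X.L {2} = X.L {5})
    (e06 : X.L {0} = X.L {6})
    (e07 : X.L {0} = X.L {7}) : False :=
  X.ruleFive (by decide) 0 1 2 4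
    (forall8 (Or.inl rfl) (Or.inr (Or.inl rfl)) (Or.inr (Or.inr (Or.inl rfl))) (Or.inl e03.symm)
      (Or.inr (Or.inr (Or.inr (rfl)))) (Or.inr (Or.inr (Or.inl e25.symm))) (Or.inl e06.symm) (Or.inl e07.symm))

theorem c192
    (r536 : X.L {3, 5} = X.L {6, 5})
    (r503 : ¬ X.L {0, 5} = X.L {3, 5})
    (r513 : ¬ X.L {1, 5} = X.L {3, 5})
    (r523 : ¬ X.L {2, 5} = X.L {3, 5})
    (r534 : ¬ X.L {3, 5} = X.L {4, 5}) : False :=
  X.ruleBerge (w := 7) (by decide) (by decide) (by decide) (by decide) (by decide) r536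
    (forall8 (fun _ _ h => absurd h.symm r503)
      (fun _ _ h => absurd h.symm r513)
      (fun _ _ h => absurd h.symm r523)
      (fun _ _ _ => Or.inl rfl)
      (fun _ _ h => absurd h r534)
      (fun _ h _ => absurd rfl h)
      (fun _ _ _ => Or.inr (Or.inl rfl))
      (fun _ _ _ => Or.inr (Or.inr (rfl))))

omit [FiniteDimensional ℝ W] in
theorem c193
    (r523 : X.L {2, 5} = X.L {3, 5})
    (r536 : X.L {3, 5} = X.L {6, 5})
    (r526 : ¬ X.L {2, 5} = X.L {6, 5}) : False :=
  r526 (Eq.trans r523 r536)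

omit [FiniteDimensional ℝ W] in
theorem c194
    (r506 : X.L {0, 5} = X.L {6, 5})
    (r536 : X.L {3, 5} = X.L {6, 5})
    (r503 : ¬ X.L {0, 5} = X.L {3, 5}) : False :=
  r503 (Eq.trans r506 r536.symm)

theorem c195
    (r502 : X.L {0, 5} = X.L {2, 5})
    (r504 : ¬ X.L {0, 5} = X.L {4, 5})
    (r506 : ¬ X.L {0, 5} = X.L {6, 5}) : False :=
  (X.ruleEdge (u := 4) (v := 6) (by decide) (by decide) (by decide) (by decide) (by decide)
    r502).elim (fun t => r504 t) (fun t => r506 t)

omit [FiniteDimensional ℝ W] in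
theorem c196
    (r523 : X.L {2, 5} = X.L {3, 5})
    (r526 : X.L {2, 5} = X.L {6, 5})
    (r536 : ¬ X.L {3, 5} = X.L {6, 5}) : False :=
  r536 (Eq.trans r523.symm r526)

omit [FiniteDimensional ℝ W] in
theorem c197
    (r501 : X.L {0, 5} = X.L {1, 5})
    (r502 : X.L {0, 5} = X.L {2, 5})
    (r512 : ¬ X.L {1, 5} = X.L {2, 5}) : False :=
  r512 (Eq.trans r501.symm r502)

omit [FiniteDimensional ℝ W] in
theorem c198
    (r502 : X.L {0, 5} = X.L {2, 5})
    (r503 : X.L {0, 5} = X.L {3, 5})
    (r523 : ¬ X.L {2, 5} = X.L {3, 5}) : False :=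
  r523 (Eq.trans r502.symm r503)

theorem c199
    (r567 : X.L {6, 5} = X.L {7, 5})
    (r516 : ¬ X.L {1, 5} = X.L {6, 5})
    (r536 : ¬ X.L {3, 5} = X.L {6, 5}) : False :=
  (X.ruleEdge (u := 1) (v := 3) (by decide) (by decide) (by decide) (by decide) (by decide)
    r567).elim (fun t => r516 t.symm) (fun t => r536 t.symm)

omit [FiniteDimensional ℝ W] in
theorem c200
    (r526 : X.L {2, 5} = X.L {6, 5})
    (r527 : X.L {2, 5} = X.L {7, 5})
    (r567 : ¬ X.L {6, 5} = X.L {7, 5}) : False :=
  r567 (Eq.trans r526.symm r527)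

omit [FiniteDimensional ℝ W] in
theorem c201
    (r502 : X.L {0, 5} = X.L {2, 5})
    (r507 : X.L {0, 5} = X.L {7, 5})
    (r527 : ¬ X.L {2, 5} = X.L {7, 5}) : False :=
  r527 (Eq.trans r502.symm r507)

theorem c202
    (r625 : X.L {2, 6} = X.L {5, 6})
    (e25 : ¬ X.L {2} = X.L {5}) : False :=
  e25 (X.ruleL1 (by decide) (by decide) r625)

theorem c203
    (r325 : X.L {2, 3} = X.L {5, 3})
    (e25 : ¬ X.L {2} = X.L {5}) : False :=
  e25 (X.ruleL1 (by decide) (by decide) r325)

theorem c204
    (r125 : X.L {2, 1} = X.L {5, 1})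
    (e25 : ¬ X.L {2} = X.L {5}) : False :=
  e25 (X.ruleL1 (by decide) (by decide) r125)

theorem c205
    (r425 : X.L {2, 4} = X.L {5, 4})
    (e25 : ¬ X.L {2} = X.L {5}) : False :=
  e25 (X.ruleL1 (by decide) (by decide) r425)

omit [FiniteDimensional ℝ W] in
theorem c206
    (e02 : X.L {0} = X.L {2})
    (e05 : X.L {0} = X.L {5})
    (e25 : ¬ X.L {2} = X.L {5}) : False :=
  e25 (Eq.trans e02.symm e05)

theorem c207
    (r602 : X.L {0, 6} = X.L {2, 6})
    (e02 : ¬ X.L {0} = X.L {2}) : False :=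
  e02 (X.ruleL1 (by decide) (by decide) r602)

theorem c208
    (r302 : X.L {0, 3} = X.L {2, 3})
    (e02 : ¬ X.L {0} = X.L {2}) : False :=
  e02 (X.ruleL1 (by decide) (by decide) r302)

theorem c209
    (r426 : X.L {2, 4} = X.L {6, 4})
    (r402 : ¬ X.L {0, 4} = X.L {2, 4})
    (r425 : ¬ X.L {2, 4} = X.L {5, 4}) : False :=
  (X.ruleEdge (u := 0) (v := 5) (by decide) (by decide) (by decide) (by decide) (by decide)
    r426).elim (fun t => r402 t.symm) (fun t => r425 t)

theorem c210
    (e03 : X.L {0} = X.L {3})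
    (e04 : X.L {0} = X.L {4})
    (e05 : X.L {0} = X.L {5})
    (e06 : X.L {0} = X.L {6}) : False :=
  X.ruleFive (by decide) 0 1 2 7
    (forall8 (Or.inl rfl) (Or.inr (Or.inl rfl)) (Or.inr (Or.inr (Or.inl rfl))) (Or.inl e03.symm)
      (Or.inl e04.symm) (Or.inl e05.symm) (Or.inl e06.symm) (Or.inr (Or.inr (Or.inr (rfl)))))

theorem c211
    (e03 : X.L {0} = X.L {3})
    (e04 : X.L {0} = X.L {4})
    (e05 : X.L {0} = X.L {5})
    (e07 : X.L {0} = X.L {7}) : False :=
  X.ruleFive (by decide) 0 1 2 6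
    (forall8 (Or.inl rfl) (Or.inr (Or.inl rfl)) (Or.inr (Or.inr (Or.inl rfl))) (Or.inl e03.symm)
      (Or.inl e04.symm) (Or.inl e05.symm) (Or.inr (Or.inr (Or.inr (rfl)))) (Or.inl e07.symm))

theorem c212
    (r146 : X.L {4, 1} = X.L {6, 1})
    (e46 : ¬ X.L {4} = X.L {6}) : False :=
  e46 (X.ruleL1 (by decide) (by decide) r146)

theorem c213
    (r147 : X.L {4, 1} = X.L {7, 1})
    (e47 : ¬ X.L {4} = X.L {7}) : False :=
  e47 (X.ruleL1 (by decide) (by decide) r147)

theorem c214
    (r145 : X.L {4, 1} = X.L {5, 1})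
    (r146 : ¬ X.L {4, 1} = X.L {6, 1})
    (r147 : ¬ X.L {4, 1} = X.L {7, 1}) : False :=
  (X.ruleEdge (u := 6) (v := 7) (by decide) (by decide) (by decide) (by decide) (by decide)
    r145).elim (fun t => r146 t) (fun t => r147 t)

omit [FiniteDimensional ℝ W] in
theorem c215
    (r104 : X.L {0, 1} = X.L {4, 1})
    (r105 : X.L {0, 1} = X.L {5, 1})
    (r145 : ¬ X.L {4, 1} = X.L {5, 1}) : False :=
  r145 (Eq.trans r104.symm r105)

omit [FiniteDimensional ℝ W] in
theorem c216
    (r624 : X.L {2, 6} = X.L {4, 6})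
    (r645 : X.L {4, 6} = X.L {5, 6})
    (r625 : ¬ X.L {2, 6} = X.L {5, 6}) : False :=
  r625 (Eq.trans r624 r645)

theorem c217
    (e01 : X.L {0} = X.L {1})
    (e04 : X.L {0} = X.L {4})
    (e05 : X.L {0} = X.L {5})
    (e07 : X.L {0} = X.L {7}) : False :=
  X.ruleFive (by decide) 0 2 3 6
    (forall8 (Or.inl rfl) (Or.inl e01.symm) (Or.inr (Or.inl rfl)) (Or.inr (Or.inr (Or.inl rfl)))
      (Or.inl e04.symm) (Or.inl e05.symm) (Or.inr (Or.inr (Or.inr (rfl)))) (Or.inl e07.symm))

theorem c218
    (e04 : X.L {0} = X.L {4})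
    (e05 : X.L {0} = X.L {5})
    (e16 : X.L {1} = X.L {6})
    (e07 : X.L {0} = X.L {7}) : False :=
  X.ruleFive (by decide) 0 1 2 3
    (forall8 (Or.inl rfl) (Or.inr (Or.inl rfl)) (Or.inr (Or.inr (Or.inl rfl))) (Or.inr (Or.inr (Or.inr (rfl))))
      (Or.inl e04.symm) (Or.inl e05.symm) (Or.inr (Or.inl e16.symm)) (Or.inl e07.symm))

theorem c219
    (e12 : X.L {1} = X.L {2})
    (e04 : X.L {0} = X.L {4})
    (e05 : X.L {0} = X.L {5})
    (e07 : X.L {0} = X.L {7}) : False :=
  X.ruleFive (by decide) 0 1 3 6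
    (forall8 (Or.inl rfl) (Or.inr (Or.inl rfl)) (Or.inr (Or.inl e12.symm)) (Or.inr (Or.inr (Or.inl rfl)))
      (Or.inl e04.symm) (Or.inl e05.symm) (Or.inr (Or.inr (Or.inr (rfl)))) (Or.inl e07.symm))

theorem c220
    (e04 : X.L {0} = X.L {4})
    (e05 : X.L {0} = X.L {5})
    (e26 : X.L {2} = X.L {6})
    (e07 : X.L {0} = X.L {7}) : False :=
  X.ruleFive (by decide) 0 1 2 3
    (forall8 (Or.inl rfl) (Or.inr (Or.inl rfl)) (Or.inr (Or.inr (Or.inl rfl))) (Or.inr (Or.inr (Or.inr (rfl))))
      (Or.inl e04.symm) (Or.inl e05.symm) (Or.inr (Or.inr (Or.inl e26.symm))) (Or.inl e07.symm))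

theorem c221
    (e04 : X.L {0} = X.L {4})
    (e05 : X.L {0} = X.L {5})
    (e36 : X.L {3} = X.L {6})
    (e07 : X.L {0} = X.L {7}) : False :=
  X.ruleFive (by decide) 0 1 2 3
    (forall8 (Or.inl rfl) (Or.inr (Or.inl rfl)) (Or.inr (Or.inr (Or.inl rfl))) (Or.inr (Or.inr (Or.inr (rfl))))
      (Or.inl e04.symm) (Or.inl e05.symm) (Or.inr (Or.inr (Or.inr (e36.symm)))) (Or.inl e07.symm))

omit [FiniteDimensional ℝ W] in
theorem c222
    (e04 : X.L {0} = X.L {4})
    (e34 : X.L {3} = X.L {4})
    (e03 : ¬ X.L {0} = X.L {3}) : False :=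
  e03 (Eq.trans e04 e34.symm)

theorem c223
    (e04 : X.L {0} = X.L {4})
    (e05 : X.L {0} = X.L {5})
    (e06 : X.L {0} = X.L {6})
    (e07 : X.L {0} = X.L {7}) : False :=
  X.ruleFive (by decide) 0 1 2 3
    (forall8 (Or.inl rfl) (Or.inr (Or.inl rfl)) (Or.inr (Or.inr (Or.inl rfl))) (Or.inr (Or.inr (Or.inr (rfl))))
      (Or.inl e04.symm) (Or.inl e05.symm) (Or.inl e06.symm) (Or.inl e07.symm))

omit [FiniteDimensional ℝ W] in
theorem c224
    (e04 : X.L {0} = X.L {4})
    (e14 : X.L {1} = X.L {4})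
    (e01 : ¬ X.L {0} = X.L {1}) : False :=
  e01 (Eq.trans e04 e14.symm)

theorem c225
    (r657 : X.L {5, 6} = X.L {7, 6})
    (r625 : ¬ X.L {2, 6} = X.L {5, 6})
    (r645 : ¬ X.L {4, 6} = X.L {5, 6}) : False :=
  (X.ruleEdge (u := 2) (v := 4) (by decide) (by decide) (by decide) (by decide) (by decide)
    r657).elim (fun t => r625 t.symm) (fun t => r645 t.symm)

theorem c226
    (r506 : X.L {0, 5} = X.L {6, 5})
    (r502 : ¬ X.L {0, 5} = X.L {2, 5})
    (r504 : ¬ X.L {0, 5} = X.L {4, 5}) : False :=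
  (X.ruleEdge (u := 2) (v := 4) (by decide) (by decide) (by decide) (by decide) (by decide)
    r506).elim (fun t => r502 t) (fun t => r504 t)

theorem c227
    (e12 : X.L {1} = X.L {2})
    (e04 : X.L {0} = X.L {4})
    (e05 : X.L {0} = X.L {5})
    (e06 : X.L {0} = X.L {6}) : False :=
  X.ruleFive (by decide) 0 1 3 7
    (forall8 (Or.inl rfl) (Or.inr (Or.inl rfl)) (Or.inr (Or.inl e12.symm)) (Or.inr (Or.inr (Or.inl rfl)))
      (Or.inl e04.symm) (Or.inl e05.symm) (Or.inl e06.symm) (Or.inr (Or.inr (Or.inr (rfl)))))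

theorem c228
    (e01 : X.L {0} = X.L {1})
    (e04 : X.L {0} = X.L {4})
    (e05 : X.L {0} = X.L {5})
    (e06 : X.L {0} = X.L {6}) : False :=
  X.ruleFive (by decide) 0 2 3 7
    (forall8 (Or.inl rfl) (Or.inl e01.symm) (Or.inr (Or.inl rfl)) (Or.inr (Or.inr (Or.inl rfl)))
      (Or.inl e04.symm) (Or.inl e05.symm) (Or.inl e06.symm) (Or.inr (Or.inr (Or.inr (rfl)))))

theorem c229
    (e13 : X.L {1} = X.L {3})
    (e04 : X.L {0} = X.L {4})
    (e05 : X.L {0} = X.L {5})
    (e06 : X.L {0} = X.L {6}) : False :=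
  X.ruleFive (by decide) 0 1 2 7
    (forall8 (Or.inl rfl) (Or.inr (Or.inl rfl)) (Or.inr (Or.inr (Or.inl rfl))) (Or.inr (Or.inl e13.symm))
      (Or.inl e04.symm) (Or.inl e05.symm) (Or.inl e06.symm) (Or.inr (Or.inr (Or.inr (rfl)))))

theorem c230
    (e23 : X.L {2} = X.L {3})
    (e04 : X.L {0} = X.L {4})
    (e05 : X.L {0} = X.L {5})
    (e06 : X.L {0} = X.L {6}) : False :=
  X.ruleFive (by decide) 0 1 2 7
    (forall8 (Or.inl rfl) (Or.inr (Or.inl rfl)) (Or.inr (Or.inr (Or.inl rfl))) (Or.inr (Or.inr (Or.inl e23.symm)))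
      (Or.inl e04.symm) (Or.inl e05.symm) (Or.inl e06.symm) (Or.inr (Or.inr (Or.inr (rfl)))))

theorem c231
    (e23 : X.L {2} = X.L {3})
    (e24 : X.L {2} = X.L {4})
    (e05 : X.L {0} = X.L {5})
    (e26 : X.L {2} = X.L {6}) : False :=
  X.ruleFive (by decide) 0 1 2 7
    (forall8 (Or.inl rfl) (Or.inr (Or.inl rfl)) (Or.inr (Or.inr (Or.inl rfl))) (Or.inr (Or.inr (Or.inl e23.symm)))
      (Or.inr (Or.inr (Or.inl e24.symm))) (Or.inl e05.symm) (Or.inr (Or.inr (Or.inl e26.symm))) (Or.inr (Or.inr (Or.inr (rfl)))))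

omit [FiniteDimensional ℝ W] in
theorem c232
    (r412 : X.L {1, 4} = X.L {2, 4})
    (r416 : X.L {1, 4} = X.L {6, 4})
    (r426 : ¬ X.L {2, 4} = X.L {6, 4}) : False :=
  r426 (Eq.trans r412.symm r416)

omit [FiniteDimensional ℝ W] in
theorem c233
    (r401 : X.L {0, 4} = X.L {1, 4})
    (r412 : X.L {1, 4} = X.L {2, 4})
    (r402 : ¬ X.L {0, 4} = X.L {2, 4}) : False :=
  r402 (Eq.trans r401 r412)

omit [FiniteDimensional ℝ W] in
theorem c234
    (r412 : X.L {1, 4} = X.L {2, 4})
    (r415 : X.L {1, 4} = X.L {5, 4})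
    (r425 : ¬ X.L {2, 4} = X.L {5, 4}) : False :=
  r425 (Eq.trans r412.symm r415)

theorem c235
    (r412 : X.L {1, 4} = X.L {2, 4})
    (r401 : ¬ X.L {0, 4} = X.L {1, 4})
    (r413 : ¬ X.L {1, 4} = X.L {3, 4})
    (r415 : ¬ X.L {1, 4} = X.L {5, 4})
    (r416 : ¬ X.L {1, 4} = X.L {6, 4}) : False :=
  X.ruleBerge (w := 7) (by decide) (by decide) (by decide) (by decide) (by decide) r412
    (forall8 (fun _ _ h => absurd h.symm r401)
      (fun _ _ _ => Or.inl rfl)
      (fun _ _ _ => Or.inr (Or.inl rfl))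
      (fun _ _ h => absurd h r413)
      (fun _ h _ => absurd rfl h)
      (fun _ _ h => absurd h r415)
      (fun _ _ h => absurd h r416)
      (fun _ _ _ => Or.inr (Or.inr (rfl))))

theorem c236
    (e12 : X.L {1} = X.L {2})
    (e13 : X.L {1} = X.L {3})
    (e05 : X.L {0} = X.L {5})
    (e17 : X.L {1} = X.L {7}) : False :=
  X.ruleFive (by decide) 0 1 4 6
    (forall8 (Or.inl rfl) (Or.inr (Or.inl rfl)) (Or.inr (Or.inl e12.symm)) (Or.inr (Or.inl e13.symm))
      (Or.inr (Or.inr (Or.inl rfl))) (Or.inl e05.symm) (Or.inr (Or.inr (Or.inr (rfl)))) (Or.inr (Or.inl e17.symm)))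

theorem c237
    (r137 : X.L {3, 1} = X.L {7, 1})
    (e37 : ¬ X.L {3} = X.L {7}) : False :=
  e37 (X.ruleL1 (by decide) (by decide) r137)

theorem c238
    (e01 : X.L {0} = X.L {1})
    (e05 : X.L {0} = X.L {5})
    (e36 : X.L {3} = X.L {6})
    (e37 : X.L {3} = X.L {7}) : False :=
  X.ruleFive (by decide) 0 2 3 4
    (forall8 (Or.inl rfl) (Or.inl e01.symm) (Or.inr (Or.inl rfl)) (Or.inr (Or.inr (Or.inl rfl)))
      (Or.inr (Or.inr (Or.inr (rfl)))) (Or.inl e05.symm) (Or.inr (Or.inr (Or.inl e36.symm))) (Or.inr (Or.inr (Or.inl e37.symm))))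

theorem c239
    (e12 : X.L {1} = X.L {2})
    (e05 : X.L {0} = X.L {5})
    (e36 : X.L {3} = X.L {6})
    (e37 : X.L {3} = X.L {7}) : False :=
  X.ruleFive (by decide) 0 1 3 4
    (forall8 (Or.inl rfl) (Or.inr (Or.inl rfl)) (Or.inr (Or.inl e12.symm)) (Or.inr (Or.inr (Or.inl rfl)))
      (Or.inr (Or.inr (Or.inr (rfl)))) (Or.inl e05.symm) (Or.inr (Or.inr (Or.inl e36.symm))) (Or.inr (Or.inr (Or.inl e37.symm))))

theorem c240
    (e34 : X.L {3} = X.L {4})
    (e05 : X.L {0} = X.L {5})
    (e36 : X.L {3} = X.L {6})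
    (e37 : X.L {3} = X.L {7}) : False :=
  X.ruleFive (by decide) 0 1 2 3
    (forall8 (Or.inl rfl) (Or.inr (Or.inl rfl)) (Or.inr (Or.inr (Or.inl rfl))) (Or.inr (Or.inr (Or.inr (rfl))))
      (Or.inr (Or.inr (Or.inr (e34.symm)))) (Or.inl e05.symm) (Or.inr (Or.inr (Or.inr (e36.symm)))) (Or.inr (Or.inr (Or.inr (e37.symm)))))

theorem c241
    (e04 : X.L {0} = X.L {4})
    (e05 : X.L {0} = X.L {5})
    (e36 : X.L {3} = X.L {6})
    (e37 : X.L {3} = X.L {7}) : False :=
  X.ruleFive (by decide) 0 1 2 3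
    (forall8 (Or.inl rfl) (Or.inr (Or.inl rfl)) (Or.inr (Or.inr (Or.inl rfl))) (Or.inr (Or.inr (Or.inr (rfl))))
      (Or.inl e04.symm) (Or.inl e05.symm) (Or.inr (Or.inr (Or.inr (e36.symm)))) (Or.inr (Or.inr (Or.inr (e37.symm)))))

omit [FiniteDimensional ℝ W] in
theorem c242
    (e36 : X.L {3} = X.L {6})
    (e46 : X.L {4} = X.L {6})
    (e34 : ¬ X.L {3} = X.L {4}) : False :=
  e34 (Eq.trans e36 e46.symm)

theorem c243
    (r536 : X.L {3, 5} = X.L {6, 5})
    (r523 : ¬ X.L {2, 5} = X.L {3, 5})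
    (r537 : ¬ X.L {3, 5} = X.L {7, 5}) : False :=
  (X.ruleEdge (u := 2) (v := 7) (by decide) (by decide) (by decide) (by decide) (by decide)
    r536).elim (fun t => r523 t.symm) (fun t => r537 t)

theorem c244
    (e24 : X.L {2} = X.L {4})
    (e05 : X.L {0} = X.L {5})
    (e36 : X.L {3} = X.L {6})
    (e37 : X.L {3} = X.L {7}) : False :=
  X.ruleFive (by decide) 0 1 2 3
    (forall8 (Or.inl rfl) (Or.inr (Or.inl rfl)) (Or.inr (Or.inr (Or.inl rfl))) (Or.inr (Or.inr (Or.inr (rfl))))
      (Or.inr (Or.inr (Or.inl e24.symm))) (Or.inl e05.symm) (Or.inr (Or.inr (Or.inr (e36.symm)))) (Or.inr (Or.inr (Or.inr (e37.symm)))))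

theorem c245
    (r124 : X.L {2, 1} = X.L {4, 1})
    (e24 : ¬ X.L {2} = X.L {4}) : False :=
  e24 (X.ruleL1 (by decide) (by decide) r124)

theorem c246
    (r126 : X.L {2, 1} = X.L {6, 1})
    (r102 : ¬ X.L {0, 1} = X.L {2, 1})
    (r124 : ¬ X.L {2, 1} = X.L {4, 1}) : False :=
  (X.ruleEdge (u := 0) (v := 4) (by decide) (by decide) (by decide) (by decide) (by decide)
    r126).elim (fun t => r102 t.symm) (fun t => r124 t)

omit [FiniteDimensional ℝ W] in
theorem c247
    (r123 : X.L {2, 1} = X.L {3, 1})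
    (r136 : X.L {3, 1} = X.L {6, 1})
    (r126 : ¬ X.L {2, 1} = X.L {6, 1}) : False :=
  r126 (Eq.trans r123 r136)

omit [FiniteDimensional ℝ W] in
theorem c248
    (e05 : X.L {0} = X.L {5})
    (e15 : X.L {1} = X.L {5})
    (e01 : ¬ X.L {0} = X.L {1}) : False :=
  e01 (Eq.trans e05 e15.symm)

theorem c249
    (r136 : X.L {3, 1} = X.L {6, 1})
    (r135 : ¬ X.L {3, 1} = X.L {5, 1})
    (r137 : ¬ X.L {3, 1} = X.L {7, 1}) : False :=
  (X.ruleEdge (u := 5) (v := 7) (by decide) (by decide) (by decide) (by decide) (by decide)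
    r136).elim (fun t => r135 t) (fun t => r137 t)

omit [FiniteDimensional ℝ W] in
theorem c250
    (r123 : X.L {2, 1} = X.L {3, 1})
    (r135 : X.L {3, 1} = X.L {5, 1})
    (r125 : ¬ X.L {2, 1} = X.L {5, 1}) : False :=
  r125 (Eq.trans r123 r135)

theorem c251
    (r134 : ¬ X.L {3, 1} = X.L {4, 1})
    (r136 : ¬ X.L {3, 1} = X.L {6, 1})
    (r426 : ¬ X.L {2, 4} = X.L {6, 4})
    (r412 : ¬ X.L {1, 4} = X.L {2, 4})
    (r615 : ¬ X.L {1, 6} = X.L {5, 6})
    (r645 : ¬ X.L {4, 6} = X.L {5, 6})
    (r425 : ¬ X.L {2, 4} = X.L {5, 4}) : False :=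
  r425 (X.verA (fun t => r134 t)
    (fun t => r136 t)
    (fun t => r426 t)
    (fun t => r412 t.symm)
    (fun t => r615 t.symm)
    (fun t => r645 t.symm)).2.2.1.symm

omit [FiniteDimensional ℝ W] in
theorem c252
    (e12 : X.L {1} = X.L {2})
    (e15 : X.L {1} = X.L {5})
    (e25 : ¬ X.L {2} = X.L {5}) : False :=
  e25 (Eq.trans e12.symm e15)

omit [FiniteDimensional ℝ W] in
theorem c253
    (r614 : X.L {1, 6} = X.L {4, 6})
    (r615 : X.L {1, 6} = X.L {5, 6})
    (r645 : ¬ X.L {4, 6} = X.L {5, 6}) : False :=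
  r645 (Eq.trans r614.symm r615)

theorem c254
    (r615 : X.L {1, 6} = X.L {5, 6})
    (r601 : ¬ X.L {0, 6} = X.L {1, 6})
    (r614 : ¬ X.L {1, 6} = X.L {4, 6}) : False :=
  (X.ruleEdge (u := 0) (v := 4) (by decide) (by decide) (by decide) (by decide) (by decide)
    r615).elim (fun t => r601 t.symm) (fun t => r614 t)

omit [FiniteDimensional ℝ W] in
theorem c255
    (r601 : X.L {0, 6} = X.L {1, 6})
    (r615 : X.L {1, 6} = X.L {5, 6})
    (r605 : ¬ X.L {0, 6} = X.L {5, 6}) : False :=
  r605 (Eq.trans r601 r615)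

omit [FiniteDimensional ℝ W] in
theorem c256
    (r601 : X.L {0, 6} = X.L {1, 6})
    (r604 : X.L {0, 6} = X.L {4, 6})
    (r614 : ¬ X.L {1, 6} = X.L {4, 6}) : False :=
  r614 (Eq.trans r601.symm r604)

omit [FiniteDimensional ℝ W] in
theorem c257
    (r615 : X.L {1, 6} = X.L {5, 6})
    (r617 : X.L {1, 6} = X.L {7, 6})
    (r657 : ¬ X.L {5, 6} = X.L {7, 6}) : False :=
  r657 (Eq.trans r615.symm r617)

omit [FiniteDimensional ℝ W] in
theorem c258
    (r601 : X.L {0, 6} = X.L {1, 6})
    (r607 : X.L {0, 6} = X.L {7, 6})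
    (r617 : ¬ X.L {1, 6} = X.L {7, 6}) : False :=
  r617 (Eq.trans r601.symm r607)

theorem c259
    (r601 : X.L {0, 6} = X.L {1, 6})
    (r602 : ¬ X.L {0, 6} = X.L {2, 6})
    (r603 : ¬ X.L {0, 6} = X.L {3, 6})
    (r604 : ¬ X.L {0, 6} = X.L {4, 6})
    (r607 : ¬ X.L {0, 6} = X.L {7, 6}) : False :=
  X.ruleBerge (w := 5) (by decide) (by decide) (by decide) (by decide) (by decide) r601
    (forall8 (fun _ _ _ => Or.inl rfl)
      (fun _ _ _ => Or.inr (Or.inl rfl))
      (fun _ _ h => absurd h r602)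
      (fun _ _ h => absurd h r603)
      (fun _ _ h => absurd h r604)
      (fun _ _ _ => Or.inr (Or.inr (rfl)))
      (fun _ h _ => absurd rfl h)
      (fun _ _ h => absurd h r607))

theorem c260
    (r603 : X.L {0, 6} = X.L {3, 6})
    (e03 : ¬ X.L {0} = X.L {3}) : False :=
  e03 (X.ruleL1 (by decide) (by decide) r603)

theorem c261
    (e01 : X.L {0} = X.L {1})
    (e03 : X.L {0} = X.L {3})
    (e05 : X.L {0} = X.L {5})
    (e06 : X.L {0} = X.L {6}) : False :=
  X.ruleFive (by decide) 0 2 4 7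
    (forall8 (Or.inl rfl) (Or.inl e01.symm) (Or.inr (Or.inl rfl)) (Or.inl e03.symm)
      (Or.inr (Or.inr (Or.inl rfl))) (Or.inl e05.symm) (Or.inl e06.symm) (Or.inr (Or.inr (Or.inr (rfl)))))

omit [FiniteDimensional ℝ W] in
theorem c262
    (e03 : X.L {0} = X.L {3})
    (e36 : X.L {3} = X.L {6})
    (e06 : ¬ X.L {0} = X.L {6}) : False :=
  e06 (Eq.trans e03 e36)

theorem c263
    (e01 : X.L {0} = X.L {1})
    (e03 : X.L {0} = X.L {3})
    (e04 : X.L {0} = X.L {4})
    (e05 : X.L {0} = X.L {5}) : False :=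
  X.ruleFive (by decide) 0 2 6 7
    (forall8 (Or.inl rfl) (Or.inl e01.symm) (Or.inr (Or.inl rfl)) (Or.inl e03.symm)
      (Or.inl e04.symm) (Or.inl e05.symm) (Or.inr (Or.inr (Or.inl rfl))) (Or.inr (Or.inr (Or.inr (rfl)))))

omit [FiniteDimensional ℝ W] in
theorem c264
    (e03 : X.L {0} = X.L {3})
    (e34 : X.L {3} = X.L {4})
    (e04 : ¬ X.L {0} = X.L {4}) : False :=
  e04 (Eq.trans e03 e34)

theorem c265
    (e01 : X.L {0} = X.L {1})
    (e03 : X.L {0} = X.L {3})
    (e05 : X.L {0} = X.L {5})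
    (e46 : X.L {4} = X.L {6}) : False :=
  X.ruleFive (by decide) 0 2 4 7
    (forall8 (Or.inl rfl) (Or.inl e01.symm) (Or.inr (Or.inl rfl)) (Or.inl e03.symm)
      (Or.inr (Or.inr (Or.inl rfl))) (Or.inl e05.symm) (Or.inr (Or.inr (Or.inl e46.symm))) (Or.inr (Or.inr (Or.inr (rfl)))))

theorem c266
    (e01 : X.L {0} = X.L {1})
    (e03 : X.L {0} = X.L {3})
    (e05 : X.L {0} = X.L {5})
    (e47 : X.L {4} = X.L {7}) : False :=
  X.ruleFive (by decide) 0 2 4 6
    (forall8 (Or.inl rfl) (Or.inl e01.symm) (Or.inr (Or.inl rfl)) (Or.inl e03.symm)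
      (Or.inr (Or.inr (Or.inl rfl))) (Or.inl e05.symm) (Or.inr (Or.inr (Or.inr (rfl)))) (Or.inr (Or.inr (Or.inl e47.symm))))

theorem c267
    (e01 : X.L {0} = X.L {1})
    (e03 : X.L {0} = X.L {3})
    (e05 : X.L {0} = X.L {5})
    (e07 : X.L {0} = X.L {7}) : False :=
  X.ruleFive (by decide) 0 2 4 6
    (forall8 (Or.inl rfl) (Or.inl e01.symm) (Or.inr (Or.inl rfl)) (Or.inl e03.symm)
      (Or.inr (Or.inr (Or.inl rfl))) (Or.inl e05.symm) (Or.inr (Or.inr (Or.inr (rfl)))) (Or.inl e07.symm))

theorem c268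
    (r205 : X.L {0, 2} = X.L {5, 2})
    (e05 : ¬ X.L {0} = X.L {5}) : False :=
  e05 (X.ruleL1 (by decide) (by decide) r205)

theorem c269
    (r405 : X.L {0, 4} = X.L {5, 4})
    (e05 : ¬ X.L {0} = X.L {5}) : False :=
  e05 (X.ruleL1 (by decide) (by decide) r405)

theorem c270
    (r105 : X.L {0, 1} = X.L {5, 1})
    (e05 : ¬ X.L {0} = X.L {5}) : False :=
  e05 (X.ruleL1 (by decide) (by decide) r105)

theorem c271
    (r305 : X.L {0, 3} = X.L {5, 3})
    (e05 : ¬ X.L {0} = X.L {5}) : False :=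
  e05 (X.ruleL1 (by decide) (by decide) r305)

theorem c272
    (r605 : X.L {0, 6} = X.L {5, 6})
    (e05 : ¬ X.L {0} = X.L {5}) : False :=
  e05 (X.ruleL1 (by decide) (by decide) r605)

omit [FiniteDimensional ℝ W] in
theorem c273
    (r401 : X.L {0, 4} = X.L {1, 4})
    (r415 : X.L {1, 4} = X.L {5, 4})
    (r405 : ¬ X.L {0, 4} = X.L {5, 4}) : False :=
  r405 (Eq.trans r401 r415)

theorem c274
    (r415 : X.L {1, 4} = X.L {5, 4})
    (r401 : ¬ X.L {0, 4} = X.L {1, 4})
    (r412 : ¬ X.L {1, 4} = X.L {2, 4}) : False :=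
  (X.ruleEdge (u := 0) (v := 2) (by decide) (by decide) (by decide) (by decide) (by decide)
    r415).elim (fun t => r401 t.symm) (fun t => r412 t)

omit [FiniteDimensional ℝ W] in
theorem c275
    (r312 : X.L {1, 3} = X.L {2, 3})
    (r315 : X.L {1, 3} = X.L {5, 3})
    (r325 : ¬ X.L {2, 3} = X.L {5, 3}) : False :=
  r325 (Eq.trans r312.symm r315)

omit [FiniteDimensional ℝ W] in
theorem c276
    (r613 : X.L {1, 6} = X.L {3, 6})
    (r614 : X.L {1, 6} = X.L {4, 6})
    (r634 : ¬ X.L {3, 6} = X.L {4, 6}) : False :=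
  r634 (Eq.trans r613.symm r614)

omit [FiniteDimensional ℝ W] in
theorem c277
    (r612 : X.L {1, 6} = X.L {2, 6})
    (r615 : X.L {1, 6} = X.L {5, 6})
    (r625 : ¬ X.L {2, 6} = X.L {5, 6}) : False :=
  r625 (Eq.trans r612.symm r615)

omit [FiniteDimensional ℝ W] in
theorem c278
    (r634 : X.L {3, 6} = X.L {4, 6})
    (r647 : X.L {4, 6} = X.L {7, 6})
    (r637 : ¬ X.L {3, 6} = X.L {7, 6}) : False :=
  r637 (Eq.trans r634 r647)

theorem c279
    (r614 : X.L {1, 6} = X.L {4, 6})
    (e14 : ¬ X.L {1} = X.L {4}) : False :=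
  e14 (X.ruleL1 (by decide) (by decide) r614)

theorem c280
    (e13 : X.L {1} = X.L {3})
    (e14 : X.L {1} = X.L {4})
    (e15 : X.L {1} = X.L {5})
    (e17 : X.L {1} = X.L {7}) : False :=
  X.ruleFive (by decide) 0 1 2 6
    (forall8 (Or.inl rfl) (Or.inr (Or.inl rfl)) (Or.inr (Or.inr (Or.inl rfl))) (Or.inr (Or.inl e13.symm))
      (Or.inr (Or.inl e14.symm)) (Or.inr (Or.inl e15.symm)) (Or.inr (Or.inr (Or.inr (rfl)))) (Or.inr (Or.inl e17.symm)))

omit [FiniteDimensional ℝ W] in
theorem c281
    (e13 : X.L {1} = X.L {3})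
    (e37 : X.L {3} = X.L {7})
    (e17 : ¬ X.L {1} = X.L {7}) : False :=
  e17 (Eq.trans e13 e37)

theorem c282
    (r637 : X.L {3, 6} = X.L {7, 6})
    (e37 : ¬ X.L {3} = X.L {7}) : False :=
  e37 (X.ruleL1 (by decide) (by decide) r637)

omit [FiniteDimensional ℝ W] in
theorem c283
    (r604 : X.L {0, 6} = X.L {4, 6})
    (r645 : X.L {4, 6} = X.L {5, 6})
    (r605 : ¬ X.L {0, 6} = X.L {5, 6}) : False :=
  r605 (Eq.trans r604 r645)

theorem c284
    (r645 : X.L {4, 6} = X.L {5, 6})
    (r604 : ¬ X.L {0, 6} = X.L {4, 6})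
    (r614 : ¬ X.L {1, 6} = X.L {4, 6})
    (r624 : ¬ X.L {2, 6} = X.L {4, 6})
    (r634 : ¬ X.L {3, 6} = X.L {4, 6}) : False :=
  X.ruleBerge (w := 7) (by decide) (by decide) (by decide) (by decide) (by decide) r645
    (forall8 (fun _ _ h => absurd h.symm r604)
      (fun _ _ h => absurd h.symm r614)
      (fun _ _ h => absurd h.symm r624)
      (fun _ _ h => absurd h.symm r634)
      (fun _ _ _ => Or.inl rfl)
      (fun _ _ _ => Or.inr (Or.inl rfl))
      (fun _ h _ => absurd rfl h)
      (fun _ _ _ => Or.inr (Or.inr (rfl))))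

omit [FiniteDimensional ℝ W] in
theorem c285
    (r603 : X.L {0, 6} = X.L {3, 6})
    (r634 : X.L {3, 6} = X.L {4, 6})
    (r604 : ¬ X.L {0, 6} = X.L {4, 6}) : False :=
  r604 (Eq.trans r603 r634)

omit [FiniteDimensional ℝ W] in
theorem c286
    (r613 : X.L {1, 6} = X.L {3, 6})
    (r634 : X.L {3, 6} = X.L {4, 6})
    (r614 : ¬ X.L {1, 6} = X.L {4, 6}) : False :=
  r614 (Eq.trans r613 r634)

theorem c287
    (r634 : X.L {3, 6} = X.L {4, 6})
    (r603 : ¬ X.L {0, 6} = X.L {3, 6})
    (r613 : ¬ X.L {1, 6} = X.L {3, 6}) : False :=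
  (X.ruleEdge (u := 0) (v := 1) (by decide) (by decide) (by decide) (by decide) (by decide)
    r634).elim (fun t => r603 t.symm) (fun t => r613 t.symm)

omit [FiniteDimensional ℝ W] in
theorem c288
    (r201 : X.L {0, 2} = X.L {1, 2})
    (r215 : X.L {1, 2} = X.L {5, 2})
    (r205 : ¬ X.L {0, 2} = X.L {5, 2}) : False :=
  r205 (Eq.trans r201 r215)

theorem c289
    (r215 : X.L {1, 2} = X.L {5, 2})
    (r201 : ¬ X.L {0, 2} = X.L {1, 2})
    (r213 : ¬ X.L {1, 2} = X.L {3, 2}) : False :=
  (X.ruleEdge (u := 0) (v := 3) (by decide) (by decide) (by decide) (by decide) (by decide)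
    r215).elim (fun t => r201 t.symm) (fun t => r213 t)

omit [FiniteDimensional ℝ W] in
theorem c290
    (e03 : X.L {0} = X.L {3})
    (e13 : X.L {1} = X.L {3})
    (e01 : ¬ X.L {0} = X.L {1}) : False :=
  e01 (Eq.trans e03 e13.symm)

theorem c291
    (r215 : X.L {1, 2} = X.L {5, 2})
    (r201 : ¬ X.L {0, 2} = X.L {1, 2})
    (r214 : ¬ X.L {1, 2} = X.L {4, 2}) : False :=
  (X.ruleEdge (u := 0) (v := 4) (by decide) (by decide) (by decide) (by decide) (by decide)
    r215).elim (fun t => r201 t.symm) (fun t => r214 t)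

theorem c292
    (e13 : X.L {1} = X.L {3})
    (e14 : X.L {1} = X.L {4})
    (e15 : X.L {1} = X.L {5})
    (e16 : X.L {1} = X.L {6}) : False :=
  X.ruleFive (by decide) 0 1 2 7
    (forall8 (Or.inl rfl) (Or.inr (Or.inl rfl)) (Or.inr (Or.inr (Or.inl rfl))) (Or.inr (Or.inl e13.symm))
      (Or.inr (Or.inl e14.symm)) (Or.inr (Or.inl e15.symm)) (Or.inr (Or.inl e16.symm)) (Or.inr (Or.inr (Or.inr (rfl)))))

theorem c293
    (e13 : X.L {1} = X.L {3})
    (e14 : X.L {1} = X.L {4})
    (e15 : X.L {1} = X.L {5})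
    (e26 : X.L {2} = X.L {6}) : False :=
  X.ruleFive (by decide) 0 1 2 7
    (forall8 (Or.inl rfl) (Or.inr (Or.inl rfl)) (Or.inr (Or.inr (Or.inl rfl))) (Or.inr (Or.inl e13.symm))
      (Or.inr (Or.inl e14.symm)) (Or.inr (Or.inl e15.symm)) (Or.inr (Or.inr (Or.inl e26.symm))) (Or.inr (Or.inr (Or.inr (rfl)))))

omit [FiniteDimensional ℝ W] in
theorem c294
    (e06 : X.L {0} = X.L {6})
    (e56 : X.L {5} = X.L {6})
    (e05 : ¬ X.L {0} = X.L {5}) : False :=
  e05 (Eq.trans e06 e56.symm)

theorem c295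
    (r402 : X.L {0, 4} = X.L {2, 4})
    (r405 : ¬ X.L {0, 4} = X.L {5, 4})
    (r406 : ¬ X.L {0, 4} = X.L {6, 4}) : False :=
  (X.ruleEdge (u := 5) (v := 6) (by decide) (by decide) (by decide) (by decide) (by decide)
    r402).elim (fun t => r405 t) (fun t => r406 t)

omit [FiniteDimensional ℝ W] in
theorem c296
    (e26 : X.L {2} = X.L {6})
    (e56 : X.L {5} = X.L {6})
    (e25 : ¬ X.L {2} = X.L {5}) : False :=
  e25 (Eq.trans e26 e56.symm)

theorem c297
    (e12 : X.L {1} = X.L {2})
    (e13 : X.L {1} = X.L {3})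
    (e56 : X.L {5} = X.L {6})
    (e17 : X.L {1} = X.L {7}) : False :=
  X.ruleFive (by decide) 0 1 4 5
    (forall8 (Or.inl rfl) (Or.inr (Or.inl rfl)) (Or.inr (Or.inl e12.symm)) (Or.inr (Or.inl e13.symm))
      (Or.inr (Or.inr (Or.inl rfl))) (Or.inr (Or.inr (Or.inr (rfl)))) (Or.inr (Or.inr (Or.inr (e56.symm)))) (Or.inr (Or.inl e17.symm)))

omit [FiniteDimensional ℝ W] in
theorem c298
    (e35 : X.L {3} = X.L {5})
    (e56 : X.L {5} = X.L {6})
    (e36 : ¬ X.L {3} = X.L {6}) : False :=
  e36 (Eq.trans e35 e56)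

omit [FiniteDimensional ℝ W] in
theorem c299
    (e03 : X.L {0} = X.L {3})
    (e35 : X.L {3} = X.L {5})
    (e05 : ¬ X.L {0} = X.L {5}) : False :=
  e05 (Eq.trans e03 e35)

omit [FiniteDimensional ℝ W] in
theorem c300
    (e23 : X.L {2} = X.L {3})
    (e35 : X.L {3} = X.L {5})
    (e25 : ¬ X.L {2} = X.L {5}) : False :=
  e25 (Eq.trans e23 e35)

theorem c301
    (e12 : X.L {1} = X.L {2})
    (e35 : X.L {3} = X.L {5})
    (e36 : X.L {3} = X.L {6})
    (e37 : X.L {3} = X.L {7}) : False :=
  X.ruleFive (by decide) 0 1 3 4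
    (forall8 (Or.inl rfl) (Or.inr (Or.inl rfl)) (Or.inr (Or.inl e12.symm)) (Or.inr (Or.inr (Or.inl rfl)))
      (Or.inr (Or.inr (Or.inr (rfl)))) (Or.inr (Or.inr (Or.inl e35.symm))) (Or.inr (Or.inr (Or.inl e36.symm))) (Or.inr (Or.inr (Or.inl e37.symm))))

theorem c302
    (e34 : X.L {3} = X.L {4})
    (e35 : X.L {3} = X.L {5})
    (e36 : X.L {3} = X.L {6})
    (e37 : X.L {3} = X.L {7}) : False :=
  X.ruleFive (by decide) 0 1 2 3
    (forall8 (Or.inl rfl) (Or.inr (Or.inl rfl)) (Or.inr (Or.inr (Or.inl rfl))) (Or.inr (Or.inr (Or.inr (rfl))))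
      (Or.inr (Or.inr (Or.inr (e34.symm)))) (Or.inr (Or.inr (Or.inr (e35.symm)))) (Or.inr (Or.inr (Or.inr (e36.symm)))) (Or.inr (Or.inr (Or.inr (e37.symm)))))

omit [FiniteDimensional ℝ W] in
theorem c303
    (e35 : X.L {3} = X.L {5})
    (e45 : X.L {4} = X.L {5})
    (e34 : ¬ X.L {3} = X.L {4}) : False :=
  e34 (Eq.trans e35 e45.symm)

theorem c304
    (r534 : X.L {3, 5} = X.L {4, 5})
    (r503 : ¬ X.L {0, 5} = X.L {3, 5})
    (r523 : ¬ X.L {2, 5} = X.L {3, 5}) : False :=
  (X.ruleEdge (u := 0) (v := 2) (by decide) (by decide) (by decide) (by decide) (by decide)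
    r534).elim (fun t => r503 t.symm) (fun t => r523 t.symm)

omit [FiniteDimensional ℝ W] in
theorem c305
    (r513 : X.L {1, 5} = X.L {3, 5})
    (r536 : X.L {3, 5} = X.L {6, 5})
    (r516 : ¬ X.L {1, 5} = X.L {6, 5}) : False :=
  r516 (Eq.trans r513 r536)

omit [FiniteDimensional ℝ W] in
theorem c306
    (r513 : X.L {1, 5} = X.L {3, 5})
    (r537 : X.L {3, 5} = X.L {7, 5})
    (r517 : ¬ X.L {1, 5} = X.L {7, 5}) : False :=
  r517 (Eq.trans r513 r537)

theorem c307
    (r517 : X.L {1, 5} = X.L {7, 5})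
    (e17 : ¬ X.L {1} = X.L {7}) : False :=
  e17 (X.ruleL1 (by decide) (by decide) r517)

theorem c308
    (e13 : X.L {1} = X.L {3})
    (e15 : X.L {1} = X.L {5})
    (e16 : X.L {1} = X.L {6})
    (e17 : X.L {1} = X.L {7}) : False :=
  X.ruleFive (by decide) 0 1 2 4
    (forall8 (Or.inl rfl) (Or.inr (Or.inl rfl)) (Or.inr (Or.inr (Or.inl rfl))) (Or.inr (Or.inl e13.symm))
      (Or.inr (Or.inr (Or.inr (rfl)))) (Or.inr (Or.inl e15.symm)) (Or.inr (Or.inl e16.symm)) (Or.inr (Or.inl e17.symm)))

omit [FiniteDimensional ℝ W] in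
theorem c309
    (e36 : X.L {3} = X.L {6})
    (e56 : X.L {5} = X.L {6})
    (e35 : ¬ X.L {3} = X.L {5}) : False :=
  e35 (Eq.trans e36 e56.symm)

theorem c310
    (r134 : ¬ X.L {3, 1} = X.L {4, 1})
    (r136 : ¬ X.L {3, 1} = X.L {6, 1})
    (r426 : ¬ X.L {2, 4} = X.L {6, 4})
    (r412 : ¬ X.L {1, 4} = X.L {2, 4})
    (r615 : ¬ X.L {1, 6} = X.L {5, 6})
    (r645 : ¬ X.L {4, 6} = X.L {5, 6})
    (r135 : ¬ X.L {3, 1} = X.L {5, 1}) : False :=
  r135 (X.verA (fun t => r134 t)
    (fun t => r136 t)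
    (fun t => r426 t)
    (fun t => r412 t.symm)
    (fun t => r615 t.symm)
    (fun t => r645 t.symm)).2.2.2.2.2

theorem c311
    (r137 : X.L {3, 1} = X.L {7, 1})
    (r135 : ¬ X.L {3, 1} = X.L {5, 1})
    (r136 : ¬ X.L {3, 1} = X.L {6, 1}) : False :=
  (X.ruleEdge (u := 5) (v := 6) (by decide) (by decide) (by decide) (by decide) (by decide)
    r137).elim (fun t => r135 t) (fun t => r136 t)

omit [FiniteDimensional ℝ W] in
theorem c312
    (r103 : X.L {0, 1} = X.L {3, 1})
    (r107 : X.L {0, 1} = X.L {7, 1})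
    (r137 : ¬ X.L {3, 1} = X.L {7, 1}) : False :=
  r137 (Eq.trans r103.symm r107)

theorem c313
    (e02 : X.L {0} = X.L {2})
    (e03 : X.L {0} = X.L {3})
    (e04 : X.L {0} = X.L {4})
    (e56 : X.L {5} = X.L {6}) : False :=
  X.ruleFive (by decide) 0 1 5 7
    (forall8 (Or.inl rfl) (Or.inr (Or.inl rfl)) (Or.inl e02.symm) (Or.inl e03.symm)
      (Or.inl e04.symm) (Or.inr (Or.inr (Or.inl rfl))) (Or.inr (Or.inr (Or.inl e56.symm))) (Or.inr (Or.inr (Or.inr (rfl)))))

theorem c314
    (r256 : X.L {5, 2} = X.L {6, 2})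
    (e56 : ¬ X.L {5} = X.L {6}) : False :=
  e56 (X.ruleL1 (by decide) (by decide) r256)

omit [FiniteDimensional ℝ W] in
theorem c315
    (r245 : X.L {4, 2} = X.L {5, 2})
    (r246 : X.L {4, 2} = X.L {6, 2})
    (r256 : ¬ X.L {5, 2} = X.L {6, 2}) : False :=
  r256 (Eq.trans r245.symm r246)

omit [FiniteDimensional ℝ W] in
theorem c316
    (r204 : X.L {0, 2} = X.L {4, 2})
    (r245 : X.L {4, 2} = X.L {5, 2})
    (r205 : ¬ X.L {0, 2} = X.L {5, 2}) : False :=
  r205 (Eq.trans r204 r245)

omit [FiniteDimensional ℝ W] in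
theorem c317
    (r203 : X.L {0, 2} = X.L {3, 2})
    (r234 : X.L {3, 2} = X.L {4, 2})
    (r204 : ¬ X.L {0, 2} = X.L {4, 2}) : False :=
  r204 (Eq.trans r203 r234)

omit [FiniteDimensional ℝ W] in
theorem c318
    (r213 : X.L {1, 2} = X.L {3, 2})
    (r234 : X.L {3, 2} = X.L {4, 2})
    (r214 : ¬ X.L {1, 2} = X.L {4, 2}) : False :=
  r214 (Eq.trans r213 r234)

theorem c319
    (r403 : X.L {0, 4} = X.L {3, 4})
    (e03 : ¬ X.L {0} = X.L {3}) : False :=
  e03 (X.ruleL1 (by decide) (by decide) r403)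

theorem c320
    (r423 : X.L {2, 4} = X.L {3, 4})
    (e23 : ¬ X.L {2} = X.L {3}) : False :=
  e23 (X.ruleL1 (by decide) (by decide) r423)

omit [FiniteDimensional ℝ W] in
theorem c321
    (e35 : X.L {3} = X.L {5})
    (e36 : X.L {3} = X.L {6})
    (e56 : ¬ X.L {5} = X.L {6}) : False :=
  e56 (Eq.trans e35.symm e36)

theorem c322
    (r406 : X.L {0, 4} = X.L {6, 4})
    (r402 : ¬ X.L {0, 4} = X.L {2, 4})
    (r405 : ¬ X.L {0, 4} = X.L {5, 4}) : False :=
  (X.ruleEdge (u := 2) (v := 5) (by decide) (by decide) (by decide) (by decide) (by decide)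
    r406).elim (fun t => r402 t) (fun t => r405 t)

theorem c323
    (e01 : X.L {0} = X.L {1})
    (e02 : X.L {0} = X.L {2})
    (e35 : X.L {3} = X.L {5})
    (e06 : X.L {0} = X.L {6}) : False :=
  X.ruleFive (by decide) 0 3 4 7
    (forall8 (Or.inl rfl) (Or.inl e01.symm) (Or.inl e02.symm) (Or.inr (Or.inl rfl))
      (Or.inr (Or.inr (Or.inl rfl))) (Or.inr (Or.inl e35.symm)) (Or.inl e06.symm) (Or.inr (Or.inr (Or.inr (rfl)))))

theorem c324
    (r401 : X.L {0, 4} = X.L {1, 4})
    (e01 : ¬ X.L {0} = X.L {1}) : False :=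
  e01 (X.ruleL1 (by decide) (by decide) r401)

theorem c325
    (e02 : X.L {0} = X.L {2})
    (e35 : X.L {3} = X.L {5})
    (e06 : X.L {0} = X.L {6})
    (e07 : X.L {0} = X.L {7}) : False :=
  X.ruleFive (by decide) 0 1 3 4
    (forall8 (Or.inl rfl) (Or.inr (Or.inl rfl)) (Or.inl e02.symm) (Or.inr (Or.inr (Or.inl rfl)))
      (Or.inr (Or.inr (Or.inr (rfl)))) (Or.inr (Or.inr (Or.inl e35.symm))) (Or.inl e06.symm) (Or.inl e07.symm))

theorem c326
    (r407 : X.L {0, 4} = X.L {7, 4})
    (e07 : ¬ X.L {0} = X.L {7}) : False :=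
  e07 (X.ruleL1 (by decide) (by decide) r407)

theorem c327
    (r402 : X.L {0, 4} = X.L {2, 4})
    (r401 : ¬ X.L {0, 4} = X.L {1, 4})
    (r403 : ¬ X.L {0, 4} = X.L {3, 4})
    (r405 : ¬ X.L {0, 4} = X.L {5, 4})
    (r407 : ¬ X.L {0, 4} = X.L {7, 4}) : False :=
  X.ruleBerge (w := 6) (by decide) (by decide) (by decide) (by decide) (by decide) r402
    (forall8 (fun _ _ _ => Or.inl rfl)
      (fun _ _ h => absurd h r401)
      (fun _ _ _ => Or.inr (Or.inl rfl))
      (fun _ _ h => absurd h r403)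
      (fun _ h _ => absurd rfl h)
      (fun _ _ h => absurd h r405)
      (fun _ _ _ => Or.inr (Or.inr (rfl)))
      (fun _ _ h => absurd h r407))

omit [FiniteDimensional ℝ W] in
theorem c328
    (r412 : X.L {1, 4} = X.L {2, 4})
    (r413 : X.L {1, 4} = X.L {3, 4})
    (r423 : ¬ X.L {2, 4} = X.L {3, 4}) : False :=
  r423 (Eq.trans r412.symm r413)

theorem c329
    (r235 : X.L {3, 2} = X.L {5, 2})
    (e35 : ¬ X.L {3} = X.L {5}) : False :=
  e35 (X.ruleL1 (by decide) (by decide) r235)

omit [FiniteDimensional ℝ W] in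
theorem c330
    (r402 : X.L {0, 4} = X.L {2, 4})
    (r406 : X.L {0, 4} = X.L {6, 4})
    (r426 : ¬ X.L {2, 4} = X.L {6, 4}) : False :=
  r426 (Eq.trans r402.symm r406)

theorem c331
    (e01 : X.L {0} = X.L {1})
    (e02 : X.L {0} = X.L {2})
    (e03 : X.L {0} = X.L {3})
    (e06 : X.L {0} = X.L {6}) : False :=
  X.ruleFive (by decide) 0 4 5 7
    (forall8 (Or.inl rfl) (Or.inl e01.symm) (Or.inl e02.symm) (Or.inl e03.symm)
      (Or.inr (Or.inl rfl)) (Or.inr (Or.inr (Or.inl rfl))) (Or.inl e06.symm) (Or.inr (Or.inr (Or.inr (rfl)))))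

theorem c332
    (e02 : X.L {0} = X.L {2})
    (e03 : X.L {0} = X.L {3})
    (e06 : X.L {0} = X.L {6})
    (e07 : X.L {0} = X.L {7}) : False :=
  X.ruleFive (by decide) 0 1 4 5
    (forall8 (Or.inl rfl) (Or.inr (Or.inl rfl)) (Or.inl e02.symm) (Or.inl e03.symm)
      (Or.inr (Or.inr (Or.inl rfl))) (Or.inr (Or.inr (Or.inr (rfl)))) (Or.inl e06.symm) (Or.inl e07.symm))

omit [FiniteDimensional ℝ W] in
theorem c333
    (e03 : X.L {0} = X.L {3})
    (e37 : X.L {3} = X.L {7})
    (e07 : ¬ X.L {0} = X.L {7}) : False :=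
  e07 (Eq.trans e03 e37)

theorem c334
    (r437 : X.L {3, 4} = X.L {7, 4})
    (e37 : ¬ X.L {3} = X.L {7}) : False :=
  e37 (X.ruleL1 (by decide) (by decide) r437)

theorem c335
    (r436 : X.L {3, 4} = X.L {6, 4})
    (r413 : ¬ X.L {1, 4} = X.L {3, 4})
    (r437 : ¬ X.L {3, 4} = X.L {7, 4}) : False :=
  (X.ruleEdge (u := 1) (v := 7) (by decide) (by decide) (by decide) (by decide) (by decide)
    r436).elim (fun t => r413 t.symm) (fun t => r437 t)

omit [FiniteDimensional ℝ W] in
theorem c336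
    (r403 : X.L {0, 4} = X.L {3, 4})
    (r406 : X.L {0, 4} = X.L {6, 4})
    (r436 : ¬ X.L {3, 4} = X.L {6, 4}) : False :=
  r436 (Eq.trans r403.symm r406)

omit [FiniteDimensional ℝ W] in
theorem c337
    (e03 : X.L {0} = X.L {3})
    (e06 : X.L {0} = X.L {6})
    (e36 : ¬ X.L {3} = X.L {6}) : False :=
  e36 (Eq.trans e03.symm e06)

omit [FiniteDimensional ℝ W] in
theorem c338
    (e23 : X.L {2} = X.L {3})
    (e26 : X.L {2} = X.L {6})
    (e36 : ¬ X.L {3} = X.L {6}) : False :=
  e36 (Eq.trans e23.symm e26)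

omit [FiniteDimensional ℝ W] in
theorem c339
    (r402 : X.L {0, 4} = X.L {2, 4})
    (r412 : X.L {1, 4} = X.L {2, 4})
    (r401 : ¬ X.L {0, 4} = X.L {1, 4}) : False :=
  r401 (Eq.trans r402 r412.symm)

omit [FiniteDimensional ℝ W] in
theorem c340
    (r401 : X.L {0, 4} = X.L {1, 4})
    (r417 : X.L {1, 4} = X.L {7, 4})
    (r407 : ¬ X.L {0, 4} = X.L {7, 4}) : False :=
  r407 (Eq.trans r401 r417)

theorem c341
    (e01 : X.L {0} = X.L {1})
    (e02 : X.L {0} = X.L {2})
    (e06 : X.L {0} = X.L {6})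
    (e07 : X.L {0} = X.L {7}) : False :=
  X.ruleFive (by decide) 0 3 4 5
    (forall8 (Or.inl rfl) (Or.inl e01.symm) (Or.inl e02.symm) (Or.inr (Or.inl rfl))
      (Or.inr (Or.inr (Or.inl rfl))) (Or.inr (Or.inr (Or.inr (rfl)))) (Or.inl e06.symm) (Or.inl e07.symm))

omit [FiniteDimensional ℝ W] in
theorem c342
    (r401 : X.L {0, 4} = X.L {1, 4})
    (r402 : X.L {0, 4} = X.L {2, 4})
    (r412 : ¬ X.L {1, 4} = X.L {2, 4}) : False :=
  r412 (Eq.trans r401.symm r402)

theorem c343
    (r427 : X.L {2, 4} = X.L {7, 4})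
    (r412 : ¬ X.L {1, 4} = X.L {2, 4})
    (r423 : ¬ X.L {2, 4} = X.L {3, 4}) : False :=
  (X.ruleEdge (u := 1) (v := 3) (by decide) (by decide) (by decide) (by decide) (by decide)
    r427).elim (fun t => r412 t.symm) (fun t => r423 t)

omit [FiniteDimensional ℝ W] in
theorem c344
    (r402 : X.L {0, 4} = X.L {2, 4})
    (r407 : X.L {0, 4} = X.L {7, 4})
    (r427 : ¬ X.L {2, 4} = X.L {7, 4}) : False :=
  r427 (Eq.trans r402.symm r407)

theorem c345
    (e12 : X.L {1} = X.L {2})
    (e13 : X.L {1} = X.L {3})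
    (e16 : X.L {1} = X.L {6})
    (e17 : X.L {1} = X.L {7}) : False :=
  X.ruleFive (by decide) 0 1 4 5
    (forall8 (Or.inl rfl) (Or.inr (Or.inl rfl)) (Or.inr (Or.inl e12.symm)) (Or.inr (Or.inl e13.symm))
      (Or.inr (Or.inr (Or.inl rfl))) (Or.inr (Or.inr (Or.inr (rfl)))) (Or.inr (Or.inl e16.symm)) (Or.inr (Or.inl e17.symm)))

theorem c346
    (e12 : X.L {1} = X.L {2})
    (e13 : X.L {1} = X.L {3})
    (e14 : X.L {1} = X.L {4})
    (e17 : X.L {1} = X.L {7}) : False :=
  X.ruleFive (by decide) 0 1 5 6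
    (forall8 (Or.inl rfl) (Or.inr (Or.inl rfl)) (Or.inr (Or.inl e12.symm)) (Or.inr (Or.inl e13.symm))
      (Or.inr (Or.inl e14.symm)) (Or.inr (Or.inr (Or.inl rfl))) (Or.inr (Or.inr (Or.inr (rfl)))) (Or.inr (Or.inl e17.symm)))

theorem c347
    (e12 : X.L {1} = X.L {2})
    (e13 : X.L {1} = X.L {3})
    (e06 : X.L {0} = X.L {6})
    (e17 : X.L {1} = X.L {7}) : False :=
  X.ruleFive (by decide) 0 1 4 5
    (forall8 (Or.inl rfl) (Or.inr (Or.inl rfl)) (Or.inr (Or.inl e12.symm)) (Or.inr (Or.inl e13.symm))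
      (Or.inr (Or.inr (Or.inl rfl))) (Or.inr (Or.inr (Or.inr (rfl)))) (Or.inl e06.symm) (Or.inr (Or.inl e17.symm)))

theorem c348
    (r301 : X.L {0, 3} = X.L {1, 3})
    (r305 : ¬ X.L {0, 3} = X.L {5, 3})
    (r306 : ¬ X.L {0, 3} = X.L {6, 3}) : False :=
  (X.ruleEdge (u := 5) (v := 6) (by decide) (by decide) (by decide) (by decide) (by decide)
    r301).elim (fun t => r305 t) (fun t => r306 t)

omit [FiniteDimensional ℝ W] in
theorem c349
    (r136 : X.L {3, 1} = X.L {6, 1})
    (r137 : X.L {3, 1} = X.L {7, 1})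
    (r167 : ¬ X.L {6, 1} = X.L {7, 1}) : False :=
  r167 (Eq.trans r136.symm r137)

theorem c350
    (r167 : X.L {6, 1} = X.L {7, 1})
    (e67 : ¬ X.L {6} = X.L {7}) : False :=
  e67 (X.ruleL1 (by decide) (by decide) r167)

omit [FiniteDimensional ℝ W] in
theorem c351
    (e07 : X.L {0} = X.L {7})
    (e37 : X.L {3} = X.L {7})
    (e03 : ¬ X.L {0} = X.L {3}) : False :=
  e03 (Eq.trans e07 e37.symm)

omit [FiniteDimensional ℝ W] in
theorem c352
    (e07 : X.L {0} = X.L {7})
    (e67 : X.L {6} = X.L {7})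
    (e06 : ¬ X.L {0} = X.L {6}) : False :=
  e06 (Eq.trans e07 e67.symm)

theorem c353
    (e03 : X.L {0} = X.L {3})
    (e04 : X.L {0} = X.L {4})
    (e06 : X.L {0} = X.L {6})
    (e07 : X.L {0} = X.L {7}) : False :=
  X.ruleFive (by decide) 0 1 2 5
    (forall8 (Or.inl rfl) (Or.inr (Or.inl rfl)) (Or.inr (Or.inr (Or.inl rfl))) (Or.inl e03.symm)
      (Or.inl e04.symm) (Or.inr (Or.inr (Or.inr (rfl)))) (Or.inl e06.symm) (Or.inl e07.symm))

omit [FiniteDimensional ℝ W] in
theorem c354
    (e03 : X.L {0} = X.L {3})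
    (e23 : X.L {2} = X.L {3})
    (e02 : ¬ X.L {0} = X.L {2}) : False :=
  e02 (Eq.trans e03 e23.symm)

omit [FiniteDimensional ℝ W] in
theorem c355
    (r137 : X.L {3, 1} = X.L {7, 1})
    (r147 : X.L {4, 1} = X.L {7, 1})
    (r134 : ¬ X.L {3, 1} = X.L {4, 1}) : False :=
  r134 (Eq.trans r137 r147.symm)

omit [FiniteDimensional ℝ W] in
theorem c356
    (r123 : X.L {2, 1} = X.L {3, 1})
    (r134 : X.L {3, 1} = X.L {4, 1})
    (r124 : ¬ X.L {2, 1} = X.L {4, 1}) : False :=
  r124 (Eq.trans r123 r134)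

theorem c357
    (r126 : X.L {2, 1} = X.L {6, 1})
    (e26 : ¬ X.L {2} = X.L {6}) : False :=
  e26 (X.ruleL1 (by decide) (by decide) r126)

omit [FiniteDimensional ℝ W] in
theorem c358
    (r123 : X.L {2, 1} = X.L {3, 1})
    (r137 : X.L {3, 1} = X.L {7, 1})
    (r127 : ¬ X.L {2, 1} = X.L {7, 1}) : False :=
  r127 (Eq.trans r123 r137)

theorem c359
    (r127 : X.L {2, 1} = X.L {7, 1})
    (e27 : ¬ X.L {2} = X.L {7}) : False :=
  e27 (X.ruleL1 (by decide) (by decide) r127)

theorem c360
    (e23 : X.L {2} = X.L {3})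
    (e24 : X.L {2} = X.L {4})
    (e26 : X.L {2} = X.L {6})
    (e27 : X.L {2} = X.L {7}) : False :=
  X.ruleFive (by decide) 0 1 2 5
    (forall8 (Or.inl rfl) (Or.inr (Or.inl rfl)) (Or.inr (Or.inr (Or.inl rfl))) (Or.inr (Or.inr (Or.inl e23.symm)))
      (Or.inr (Or.inr (Or.inl e24.symm))) (Or.inr (Or.inr (Or.inr (rfl)))) (Or.inr (Or.inr (Or.inl e26.symm))) (Or.inr (Or.inr (Or.inl e27.symm))))

omit [FiniteDimensional ℝ W] in
theorem c361
    (r134 : X.L {3, 1} = X.L {4, 1})
    (r137 : X.L {3, 1} = X.L {7, 1})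
    (r147 : ¬ X.L {4, 1} = X.L {7, 1}) : False :=
  r147 (Eq.trans r134.symm r137)

omit [FiniteDimensional ℝ W] in
theorem c362
    (r102 : X.L {0, 1} = X.L {2, 1})
    (r123 : X.L {2, 1} = X.L {3, 1})
    (r103 : ¬ X.L {0, 1} = X.L {3, 1}) : False :=
  r103 (Eq.trans r102 r123)

omit [FiniteDimensional ℝ W] in
theorem c363
    (r123 : X.L {2, 1} = X.L {3, 1})
    (r124 : X.L {2, 1} = X.L {4, 1})
    (r134 : ¬ X.L {3, 1} = X.L {4, 1}) : False :=
  r134 (Eq.trans r123.symm r124)

omit [FiniteDimensional ℝ W] in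
theorem c364
    (r103 : X.L {0, 1} = X.L {3, 1})
    (r106 : X.L {0, 1} = X.L {6, 1})
    (r136 : ¬ X.L {3, 1} = X.L {6, 1}) : False :=
  r136 (Eq.trans r103.symm r106)

theorem c365
    (e01 : X.L {0} = X.L {1})
    (e02 : X.L {0} = X.L {2})
    (e03 : X.L {0} = X.L {3})
    (e04 : X.L {0} = X.L {4}) : False :=
  X.ruleFive (by decide) 0 5 6 7
    (forall8 (Or.inl rfl) (Or.inl e01.symm) (Or.inl e02.symm) (Or.inl e03.symm)
      (Or.inl e04.symm) (Or.inr (Or.inl rfl)) (Or.inr (Or.inr (Or.inl rfl))) (Or.inr (Or.inr (Or.inr (rfl)))))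

theorem c366
    (e02 : X.L {0} = X.L {2})
    (e03 : X.L {0} = X.L {3})
    (e04 : X.L {0} = X.L {4})
    (e06 : X.L {0} = X.L {6}) : False :=
  X.ruleFive (by decide) 0 1 5 7
    (forall8 (Or.inl rfl) (Or.inr (Or.inl rfl)) (Or.inl e02.symm) (Or.inl e03.symm)
      (Or.inl e04.symm) (Or.inr (Or.inr (Or.inl rfl))) (Or.inl e06.symm) (Or.inr (Or.inr (Or.inr (rfl)))))

theorem c367
    (e02 : X.L {0} = X.L {2})
    (e03 : X.L {0} = X.L {3})
    (e04 : X.L {0} = X.L {4})
    (e16 : X.L {1} = X.L {6}) : False :=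
  X.ruleFive (by decide) 0 1 5 7
    (forall8 (Or.inl rfl) (Or.inr (Or.inl rfl)) (Or.inl e02.symm) (Or.inl e03.symm)
      (Or.inl e04.symm) (Or.inr (Or.inr (Or.inl rfl))) (Or.inr (Or.inl e16.symm)) (Or.inr (Or.inr (Or.inr (rfl)))))

theorem c368
    (r234 : X.L {3, 2} = X.L {4, 2})
    (r203 : ¬ X.L {0, 2} = X.L {3, 2})
    (r235 : ¬ X.L {3, 2} = X.L {5, 2}) : False :=
  (X.ruleEdge (u := 0) (v := 5) (by decide) (by decide) (by decide) (by decide) (by decide)
    r234).elim (fun t => r203 t.symm) (fun t => r235 t)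

theorem c369
    (e02 : X.L {0} = X.L {2})
    (e03 : X.L {0} = X.L {3})
    (e04 : X.L {0} = X.L {4})
    (e07 : X.L {0} = X.L {7}) : False :=
  X.ruleFive (by decide) 0 1 5 6
    (forall8 (Or.inl rfl) (Or.inr (Or.inl rfl)) (Or.inl e02.symm) (Or.inl e03.symm)
      (Or.inl e04.symm) (Or.inr (Or.inr (Or.inl rfl))) (Or.inr (Or.inr (Or.inr (rfl)))) (Or.inl e07.symm))

include X in
theorem false : False := by
  by_cases e25 : X.L {2} = X.L {5}
  · by_cases e12 : X.L {1} = X.L {2}
    · have e15 : X.L {1} = X.L {5} := by_contra fun e15 => X.c0 e12 e25 e15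
      by_cases e13 : X.L {1} = X.L {3}
      · have e14 : ¬ X.L {1} = X.L {4} := fun e14 => X.c1 e12 e13 e14 e15
        have r314 : ¬ X.L {1, 3} = X.L {4, 3} := fun r314 => X.c2 r314 e14
        have e17 : ¬ X.L {1} = X.L {7} := fun e17 => X.c3 e12 e13 e15 e17
        have r317 : ¬ X.L {1, 3} = X.L {7, 3} := fun r317 => X.c4 r317 e17
        have r312 : ¬ X.L {1, 3} = X.L {2, 3} := fun r312 => X.c5 r312 r314 r317
        have e16 : ¬ X.L {1} = X.L {6} := fun e16 => X.c6 e12 e13 e15 e16
        have e26 : ¬ X.L {2} = X.L {6} := fun e26 => X.c7 e12 e26 e16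
        have r526 : ¬ X.L {2, 5} = X.L {6, 5} := fun r526 => X.c8 r526 e26
        have e36 : ¬ X.L {3} = X.L {6} := fun e36 => X.c9 e13 e36 e16
        have r536 : ¬ X.L {3, 5} = X.L {6, 5} := fun r536 => X.c10 r536 e36
        have e34 : ¬ X.L {3} = X.L {4} := fun e34 => X.c11 e13 e34 e14
        have r234 : ¬ X.L {3, 2} = X.L {4, 2} := fun r234 => X.c12 r234 e34
        have e46 : ¬ X.L {4} = X.L {6} := fun e46 => X.c13 e12 e13 e15 e46
        have r246 : ¬ X.L {4, 2} = X.L {6, 2} := fun r246 => X.c14 r246 e46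
        have e47 : ¬ X.L {4} = X.L {7} := fun e47 => X.c15 e12 e13 e15 e47
        have r247 : ¬ X.L {4, 2} = X.L {7, 2} := fun r247 => X.c16 r247 e47
        have r245 : ¬ X.L {4, 2} = X.L {5, 2} := fun r245 => X.c17 r245 r246 r247
        have r214 : ¬ X.L {1, 2} = X.L {4, 2} := fun r214 => X.c18 r214 e14
        have r315 : X.L {1, 3} = X.L {5, 3} := by_contra fun r315 => X.c19 r315 r312 r526 r536 r234 r245 r214
        have r301 : X.L {0, 3} = X.L {1, 3} := by_contra fun r301 => X.c20 r315 r301 r312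
        have r305 : X.L {0, 3} = X.L {5, 3} := by_contra fun r305 => X.c21 r301 r315 r305
        have r325 : ¬ X.L {2, 3} = X.L {5, 3} := fun r325 => X.c22 r315 r325 r312
        have r302 : ¬ X.L {0, 3} = X.L {2, 3} := fun r302 => X.c23 r302 r305 r325
        have e04 : ¬ X.L {0} = X.L {4} := fun e04 => X.c24 e12 e13 e04 e15
        have r304 : ¬ X.L {0, 3} = X.L {4, 3} := fun r304 => X.c25 r304 e04
        have e06 : ¬ X.L {0} = X.L {6} := fun e06 => X.c26 e12 e13 e15 e06
        have r306 : ¬ X.L {0, 3} = X.L {6, 3} := fun r306 => X.c27 r306 e06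
        have e07 : ¬ X.L {0} = X.L {7} := fun e07 => X.c28 e12 e13 e15 e07
        have r307 : ¬ X.L {0, 3} = X.L {7, 3} := fun r307 => X.c29 r307 e07
        exact X.c30 r301 r302 r304 r306 r307
      · have e23 : ¬ X.L {2} = X.L {3} := fun e23 => X.c31 e12 e23 e13
        have r523 : ¬ X.L {2, 5} = X.L {3, 5} := fun r523 => X.c32 r523 e23
        have r123 : ¬ X.L {2, 1} = X.L {3, 1} := fun r123 => X.c33 r123 e23
        have r413 : ¬ X.L {1, 4} = X.L {3, 4} := fun r413 => X.c34 r413 e13
        have e35 : ¬ X.L {3} = X.L {5} := fun e35 => X.c35 e15 e35 e13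
        have r135 : ¬ X.L {3, 1} = X.L {5, 1} := fun r135 => X.c36 r135 e35
        have r613 : ¬ X.L {1, 6} = X.L {3, 6} := fun r613 => X.c37 r613 e13
        by_cases e01 : X.L {0} = X.L {1}
        · have e02 : X.L {0} = X.L {2} := by_contra fun e02 => X.c38 e01 e12 e02
          have e05 : X.L {0} = X.L {5} := by_contra fun e05 => X.c39 e01 e15 e05
          have e04 : ¬ X.L {0} = X.L {4} := fun e04 => X.c40 e01 e02 e04 e05
          have e14 : ¬ X.L {1} = X.L {4} := fun e14 => X.c41 e01 e14 e04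
          have r314 : ¬ X.L {1, 3} = X.L {4, 3} := fun r314 => X.c2 r314 e14
          have e07 : ¬ X.L {0} = X.L {7} := fun e07 => X.c42 e01 e02 e05 e07
          have e17 : ¬ X.L {1} = X.L {7} := fun e17 => X.c43 e01 e17 e07
          have r317 : ¬ X.L {1, 3} = X.L {7, 3} := fun r317 => X.c4 r317 e17
          have r312 : ¬ X.L {1, 3} = X.L {2, 3} := fun r312 => X.c5 r312 r314 r317
          have e06 : ¬ X.L {0} = X.L {6} := fun e06 => X.c44 e01 e02 e05 e06
          have e26 : ¬ X.L {2} = X.L {6} := fun e26 => X.c45 e02 e26 e06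
          have r526 : ¬ X.L {2, 5} = X.L {6, 5} := fun r526 => X.c8 r526 e26
          have e36 : ¬ X.L {3} = X.L {6} := fun e36 => X.c46 e01 e02 e05 e36
          have r536 : ¬ X.L {3, 5} = X.L {6, 5} := fun r536 => X.c10 r536 e36
          have e34 : ¬ X.L {3} = X.L {4} := fun e34 => X.c47 e01 e02 e34 e05
          have r234 : ¬ X.L {3, 2} = X.L {4, 2} := fun r234 => X.c12 r234 e34
          have e45 : ¬ X.L {4} = X.L {5} := fun e45 => X.c48 e05 e45 e04
          have r245 : ¬ X.L {4, 2} = X.L {5, 2} := fun r245 => X.c49 r245 e45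
          have e16 : ¬ X.L {1} = X.L {6} := fun e16 => X.c50 e01 e16 e06
          have r316 : ¬ X.L {1, 3} = X.L {6, 3} := fun r316 => X.c51 r316 e16
          have r315 : X.L {1, 3} = X.L {5, 3} := by_contra fun r315 => X.c52 r315 r312 r526 r536 r234 r245 r316
          have r301 : X.L {0, 3} = X.L {1, 3} := by_contra fun r301 => X.c53 r315 r301 r316
          have r305 : X.L {0, 3} = X.L {5, 3} := by_contra fun r305 => X.c21 r301 r315 r305
          have r302 : ¬ X.L {0, 3} = X.L {2, 3} := fun r302 => X.c54 r301 r302 r312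
          have r304 : ¬ X.L {0, 3} = X.L {4, 3} := fun r304 => X.c25 r304 e04
          have r306 : ¬ X.L {0, 3} = X.L {6, 3} := fun r306 => X.c27 r306 e06
          have r307 : ¬ X.L {0, 3} = X.L {7, 3} := fun r307 => X.c29 r307 e07
          exact X.c30 r301 r302 r304 r306 r307
        · have e02 : ¬ X.L {0} = X.L {2} := fun e02 => X.c55 e02 e12 e01
          have r102 : ¬ X.L {0, 1} = X.L {2, 1} := fun r102 => X.c56 r102 e02
          have r502 : ¬ X.L {0, 5} = X.L {2, 5} := fun r502 => X.c57 r502 e02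
          have r526 : ¬ X.L {2, 5} = X.L {6, 5} := fun r526 => X.c58 r526 r502 r523
          have r402 : ¬ X.L {0, 4} = X.L {2, 4} := fun r402 => X.c59 r402 e02
          have r301 : ¬ X.L {0, 3} = X.L {1, 3} := fun r301 => X.c60 r301 e01
          have r601 : ¬ X.L {0, 6} = X.L {1, 6} := fun r601 => X.c61 r601 e01
          have r615 : ¬ X.L {1, 6} = X.L {5, 6} := fun r615 => X.c62 r615 r601 r613
          by_cases e14 : X.L {1} = X.L {4}
          · have e34 : ¬ X.L {3} = X.L {4} := fun e34 => X.c63 e14 e34 e13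
            have r134 : ¬ X.L {3, 1} = X.L {4, 1} := fun r134 => X.c64 r134 e34
            have e36 : ¬ X.L {3} = X.L {6} := fun e36 => X.c65 e12 e14 e15 e36
            have r136 : ¬ X.L {3, 1} = X.L {6, 1} := fun r136 => X.c66 r136 e36
            have e16 : ¬ X.L {1} = X.L {6} := fun e16 => X.c67 e12 e14 e15 e16
            have e26 : ¬ X.L {2} = X.L {6} := fun e26 => X.c7 e12 e26 e16
            have r426 : ¬ X.L {2, 4} = X.L {6, 4} := fun r426 => X.c68 r426 e26
            have r416 : ¬ X.L {1, 4} = X.L {6, 4} := fun r416 => X.c69 r416 e16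
            have e17 : ¬ X.L {1} = X.L {7} := fun e17 => X.c70 e12 e14 e15 e17
            have r417 : ¬ X.L {1, 4} = X.L {7, 4} := fun r417 => X.c71 r417 e17
            have r412 : ¬ X.L {1, 4} = X.L {2, 4} := fun r412 => X.c72 r412 r416 r417
            have r645 : X.L {4, 6} = X.L {5, 6} := by_contra fun r645 => X.c73 r134 r136 r426 r412 r615 r645 r123
            have e47 : ¬ X.L {4} = X.L {7} := fun e47 => X.c74 e14 e47 e17
            have r647 : ¬ X.L {4, 6} = X.L {7, 6} := fun r647 => X.c75 r647 e47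
            have r614 : X.L {1, 6} = X.L {4, 6} := by_contra fun r614 => X.c76 r645 r614 r647
            have r624 : X.L {2, 6} = X.L {4, 6} := by_contra fun r624 => X.c77 r645 r624 r647
            have r617 : ¬ X.L {1, 6} = X.L {7, 6} := fun r617 => X.c78 r617 e17
            have r612 : ¬ X.L {1, 6} = X.L {2, 6} := fun r612 => X.c79 r612 r615 r617
            exact X.c80 r614 r624 r612
          · have e45 : ¬ X.L {4} = X.L {5} := fun e45 => X.c81 e15 e45 e14
            have r645 : ¬ X.L {4, 6} = X.L {5, 6} := fun r645 => X.c82 r645 e45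
            have r245 : ¬ X.L {4, 2} = X.L {5, 2} := fun r245 => X.c49 r245 e45
            have r314 : ¬ X.L {1, 3} = X.L {4, 3} := fun r314 => X.c2 r314 e14
            by_cases e27 : X.L {2} = X.L {7}
            · have e17 : X.L {1} = X.L {7} := by_contra fun e17 => X.c83 e12 e27 e17
              have e16 : ¬ X.L {1} = X.L {6} := fun e16 => X.c84 e12 e15 e16 e17
              have r316 : ¬ X.L {1, 3} = X.L {6, 3} := fun r316 => X.c51 r316 e16
              have r315 : ¬ X.L {1, 3} = X.L {5, 3} := fun r315 => X.c53 r315 r301 r316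
              have e36 : ¬ X.L {3} = X.L {6} := fun e36 => X.c85 e12 e15 e36 e17
              have r536 : ¬ X.L {3, 5} = X.L {6, 5} := fun r536 => X.c10 r536 e36
              have e34 : ¬ X.L {3} = X.L {4} := fun e34 => X.c86 e12 e34 e15 e17
              have r234 : ¬ X.L {3, 2} = X.L {4, 2} := fun r234 => X.c12 r234 e34
              have r516 : ¬ X.L {1, 5} = X.L {6, 5} := fun r516 => X.c87 r516 e16
              have r312 : X.L {1, 3} = X.L {2, 3} := by_contra fun r312 => X.c88 r315 r312 r526 r536 r234 r245 r516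
              have r317 : X.L {1, 3} = X.L {7, 3} := by_contra fun r317 => X.c89 r312 r315 r317
              exact X.c90 r312 r301 r314 r315 r316
            · have e17 : ¬ X.L {1} = X.L {7} := fun e17 => X.c91 e12 e17 e27
              have r417 : ¬ X.L {1, 4} = X.L {7, 4} := fun r417 => X.c71 r417 e17
              have r412 : ¬ X.L {1, 4} = X.L {2, 4} := fun r412 => X.c92 r412 r413 r417
              have r426 : ¬ X.L {2, 4} = X.L {6, 4} := fun r426 => X.c93 r426 r402 r412
              by_cases e04 : X.L {0} = X.L {4}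
              · have e36 : ¬ X.L {3} = X.L {6} := fun e36 => X.c94 e12 e04 e15 e36
                have r136 : ¬ X.L {3, 1} = X.L {6, 1} := fun r136 => X.c66 r136 e36
                have r134 : X.L {3, 1} = X.L {4, 1} := by_contra fun r134 => X.c73 r134 r136 r426 r412 r615 r645 r123
                have e03 : ¬ X.L {0} = X.L {3} := fun e03 => X.c95 e12 e03 e04 e15
                have r103 : ¬ X.L {0, 1} = X.L {3, 1} := fun r103 => X.c96 r103 e03
                exact X.c97 r134 r103 r136
              · have r104 : ¬ X.L {0, 1} = X.L {4, 1} := fun r104 => X.c98 r104 e04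
                have r103 : ¬ X.L {0, 1} = X.L {3, 1} := fun r103 => X.c99 r103 r102 r104
                have r134 : ¬ X.L {3, 1} = X.L {4, 1} := fun r134 => X.c100 r134 r103 r123
                have r136 : X.L {3, 1} = X.L {6, 1} := by_contra fun r136 => X.c73 r134 r136 r426 r412 r615 r645 r123
                have r137 : X.L {3, 1} = X.L {7, 1} := by_contra fun r137 => X.c101 r136 r134 r137
                exact X.c102 r136 r103 r123 r134 r135
    · have r512 : ¬ X.L {1, 5} = X.L {2, 5} := fun r512 => X.c103 r512 e12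
      have e15 : ¬ X.L {1} = X.L {5} := fun e15 => X.c104 e15 e25 e12
      have r215 : ¬ X.L {1, 2} = X.L {5, 2} := fun r215 => X.c105 r215 e15
      have r412 : ¬ X.L {1, 4} = X.L {2, 4} := fun r412 => X.c106 r412 e12
      have r312 : ¬ X.L {1, 3} = X.L {2, 3} := fun r312 => X.c107 r312 e12
      have r315 : ¬ X.L {1, 3} = X.L {5, 3} := fun r315 => X.c108 r315 e15
      have r615 : ¬ X.L {1, 6} = X.L {5, 6} := fun r615 => X.c109 r615 e15
      by_cases r645 : X.L {4, 6} = X.L {5, 6}
      · have e45 : X.L {4} = X.L {5} := by_contra fun e45 => X.c82 r645 e45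
        have e24 : X.L {2} = X.L {4} := by_contra fun e24 => X.c110 e25 e45 e24
        have r614 : ¬ X.L {1, 6} = X.L {4, 6} := fun r614 => X.c111 r614 r645 r615
        have r647 : X.L {4, 6} = X.L {7, 6} := by_contra fun r647 => X.c76 r645 r614 r647
        have e47 : X.L {4} = X.L {7} := by_contra fun e47 => X.c75 r647 e47
        have e27 : X.L {2} = X.L {7} := by_contra fun e27 => X.c112 e24 e47 e27
        have e26 : ¬ X.L {2} = X.L {6} := fun e26 => X.c113 e24 e25 e26 e27
        have r526 : ¬ X.L {2, 5} = X.L {6, 5} := fun r526 => X.c8 r526 e26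
        have e36 : ¬ X.L {3} = X.L {6} := fun e36 => X.c114 e24 e25 e36 e27
        have r536 : ¬ X.L {3, 5} = X.L {6, 5} := fun r536 => X.c10 r536 e36
        have e03 : ¬ X.L {0} = X.L {3} := fun e03 => X.c115 e03 e24 e25 e27
        have r203 : ¬ X.L {0, 2} = X.L {3, 2} := fun r203 => X.c116 r203 e03
        have e13 : ¬ X.L {1} = X.L {3} := fun e13 => X.c117 e13 e24 e25 e27
        have r213 : ¬ X.L {1, 2} = X.L {3, 2} := fun r213 => X.c118 r213 e13
        have r234 : ¬ X.L {3, 2} = X.L {4, 2} := fun r234 => X.c119 r234 r203 r213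
        have e46 : ¬ X.L {4} = X.L {6} := fun e46 => X.c120 e24 e46 e26
        have r246 : ¬ X.L {4, 2} = X.L {6, 2} := fun r246 => X.c14 r246 e46
        have r245 : X.L {4, 2} = X.L {5, 2} := by_contra fun r245 => X.c121 r315 r312 r526 r536 r234 r245 r246
        have r247 : X.L {4, 2} = X.L {7, 2} := by_contra fun r247 => X.c17 r245 r246 r247
        have e01 : ¬ X.L {0} = X.L {1} := fun e01 => X.c122 e01 e24 e25 e27
        have r201 : ¬ X.L {0, 2} = X.L {1, 2} := fun r201 => X.c123 r201 e01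
        have r204 : ¬ X.L {0, 2} = X.L {4, 2} := fun r204 => X.c124 r204 r201 r203
        have e14 : ¬ X.L {1} = X.L {4} := fun e14 => X.c125 e14 e45 e15
        have r214 : ¬ X.L {1, 2} = X.L {4, 2} := fun r214 => X.c18 r214 e14
        exact X.c126 r245 r204 r214 r234 r246
      · by_cases r426 : X.L {2, 4} = X.L {6, 4}
        · have r402 : X.L {0, 4} = X.L {2, 4} := by_contra fun r402 => X.c93 r426 r402 r412
          have r406 : X.L {0, 4} = X.L {6, 4} := by_contra fun r406 => X.c127 r402 r426 r406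
          have e06 : X.L {0} = X.L {6} := by_contra fun e06 => X.c128 r406 e06
          have e02 : X.L {0} = X.L {2} := by_contra fun e02 => X.c59 r402 e02
          have e05 : X.L {0} = X.L {5} := by_contra fun e05 => X.c129 e02 e25 e05
          have e03 : ¬ X.L {0} = X.L {3} := fun e03 => X.c130 e02 e03 e05 e06
          have e36 : ¬ X.L {3} = X.L {6} := fun e36 => X.c131 e06 e36 e03
          have r536 : ¬ X.L {3, 5} = X.L {6, 5} := fun r536 => X.c10 r536 e36
          have e34 : ¬ X.L {3} = X.L {4} := fun e34 => X.c132 e02 e34 e05 e06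
          have r234 : ¬ X.L {3, 2} = X.L {4, 2} := fun r234 => X.c12 r234 e34
          have e04 : ¬ X.L {0} = X.L {4} := fun e04 => X.c133 e02 e04 e05 e06
          have e45 : ¬ X.L {4} = X.L {5} := fun e45 => X.c48 e05 e45 e04
          have r245 : ¬ X.L {4, 2} = X.L {5, 2} := fun r245 => X.c49 r245 e45
          have e14 : ¬ X.L {1} = X.L {4} := fun e14 => X.c134 e02 e14 e05 e06
          have r214 : ¬ X.L {1, 2} = X.L {4, 2} := fun r214 => X.c18 r214 e14
          have r526 : X.L {2, 5} = X.L {6, 5} := by_contra fun r526 => X.c19 r315 r312 r526 r536 r234 r245 r214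
          have e24 : ¬ X.L {2} = X.L {4} := fun e24 => X.c135 e02 e24 e04
          have r524 : ¬ X.L {2, 5} = X.L {4, 5} := fun r524 => X.c136 r524 e24
          have r502 : X.L {0, 5} = X.L {2, 5} := by_contra fun r502 => X.c137 r526 r502 r524
          have r506 : X.L {0, 5} = X.L {6, 5} := by_contra fun r506 => X.c138 r502 r526 r506
          have e01 : ¬ X.L {0} = X.L {1} := fun e01 => X.c139 e01 e02 e12
          have r501 : ¬ X.L {0, 5} = X.L {1, 5} := fun r501 => X.c140 r501 e01
          have r503 : ¬ X.L {0, 5} = X.L {3, 5} := fun r503 => X.c141 r503 e03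
          have r504 : ¬ X.L {0, 5} = X.L {4, 5} := fun r504 => X.c142 r504 e04
          have e07 : ¬ X.L {0} = X.L {7} := fun e07 => X.c143 e02 e05 e06 e07
          have r507 : ¬ X.L {0, 5} = X.L {7, 5} := fun r507 => X.c144 r507 e07
          exact X.c145 r502 r501 r503 r504 r507
        · by_cases e13 : X.L {1} = X.L {3}
          · have e23 : ¬ X.L {2} = X.L {3} := fun e23 => X.c146 e13 e23 e12
            have r123 : ¬ X.L {2, 1} = X.L {3, 1} := fun r123 => X.c33 r123 e23
            have e35 : ¬ X.L {3} = X.L {5} := fun e35 => X.c147 e13 e35 e15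
            have r135 : ¬ X.L {3, 1} = X.L {5, 1} := fun r135 => X.c36 r135 e35
            by_cases e14 : X.L {1} = X.L {4}
            · have e16 : ¬ X.L {1} = X.L {6} := fun e16 => X.c148 e13 e14 e25 e16
              have e36 : ¬ X.L {3} = X.L {6} := fun e36 => X.c9 e13 e36 e16
              have r136 : ¬ X.L {3, 1} = X.L {6, 1} := fun r136 => X.c66 r136 e36
              have r134 : X.L {3, 1} = X.L {4, 1} := by_contra fun r134 => X.c73 r134 r136 r426 r412 r615 r645 r123
              have r103 : X.L {0, 1} = X.L {3, 1} := by_contra fun r103 => X.c97 r134 r103 r136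
              have r104 : X.L {0, 1} = X.L {4, 1} := by_contra fun r104 => X.c149 r103 r134 r104
              have r102 : ¬ X.L {0, 1} = X.L {2, 1} := fun r102 => X.c150 r102 r103 r123
              have r105 : ¬ X.L {0, 1} = X.L {5, 1} := fun r105 => X.c151 r103 r105 r135
              have e06 : ¬ X.L {0} = X.L {6} := fun e06 => X.c152 e13 e14 e25 e06
              have r106 : ¬ X.L {0, 1} = X.L {6, 1} := fun r106 => X.c153 r106 e06
              have e07 : ¬ X.L {0} = X.L {7} := fun e07 => X.c154 e13 e14 e25 e07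
              have r107 : ¬ X.L {0, 1} = X.L {7, 1} := fun r107 => X.c155 r107 e07
              exact X.c156 r103 r102 r105 r106 r107
            · have e34 : ¬ X.L {3} = X.L {4} := fun e34 => X.c11 e13 e34 e14
              have r134 : ¬ X.L {3, 1} = X.L {4, 1} := fun r134 => X.c64 r134 e34
              have r136 : X.L {3, 1} = X.L {6, 1} := by_contra fun r136 => X.c73 r134 r136 r426 r412 r615 r645 r123
              have r137 : X.L {3, 1} = X.L {7, 1} := by_contra fun r137 => X.c101 r136 r134 r137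
              have r103 : X.L {0, 1} = X.L {3, 1} := by_contra fun r103 => X.c102 r136 r103 r123 r134 r135
              have r102 : ¬ X.L {0, 1} = X.L {2, 1} := fun r102 => X.c150 r102 r103 r123
              have r104 : ¬ X.L {0, 1} = X.L {4, 1} := fun r104 => X.c157 r103 r104 r134
              exact X.c99 r103 r102 r104
          · have r213 : ¬ X.L {1, 2} = X.L {3, 2} := fun r213 => X.c118 r213 e13
            have r513 : ¬ X.L {1, 5} = X.L {3, 5} := fun r513 => X.c158 r513 e13
            by_cases r203 : X.L {0, 2} = X.L {3, 2}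
            · have r201 : ¬ X.L {0, 2} = X.L {1, 2} := fun r201 => X.c159 r201 r203 r213
              have r204 : X.L {0, 2} = X.L {4, 2} := by_contra fun r204 => X.c160 r203 r201 r204
              have e03 : X.L {0} = X.L {3} := by_contra fun e03 => X.c116 r203 e03
              have e04 : X.L {0} = X.L {4} := by_contra fun e04 => X.c161 r204 e04
              have e06 : ¬ X.L {0} = X.L {6} := fun e06 => X.c162 e03 e04 e25 e06
              have r206 : ¬ X.L {0, 2} = X.L {6, 2} := fun r206 => X.c163 r206 e06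
              have e07 : ¬ X.L {0} = X.L {7} := fun e07 => X.c164 e03 e04 e25 e07
              have r207 : ¬ X.L {0, 2} = X.L {7, 2} := fun r207 => X.c165 r207 e07
              have r205 : X.L {0, 2} = X.L {5, 2} := by_contra fun r205 => X.c166 r203 r201 r205 r206 r207
              have e46 : ¬ X.L {4} = X.L {6} := fun e46 => X.c167 e04 e46 e06
              have r246 : ¬ X.L {4, 2} = X.L {6, 2} := fun r246 => X.c14 r246 e46
              have e47 : ¬ X.L {4} = X.L {7} := fun e47 => X.c168 e04 e47 e07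
              have r247 : ¬ X.L {4, 2} = X.L {7, 2} := fun r247 => X.c16 r247 e47
              have r245 : ¬ X.L {4, 2} = X.L {5, 2} := fun r245 => X.c17 r245 r246 r247
              exact X.c169 r204 r205 r245
            · have r234 : ¬ X.L {3, 2} = X.L {4, 2} := fun r234 => X.c119 r234 r203 r213
              by_cases r204 : X.L {0, 2} = X.L {4, 2}
              · have r201 : X.L {0, 2} = X.L {1, 2} := by_contra fun r201 => X.c124 r204 r201 r203
                have e01 : X.L {0} = X.L {1} := by_contra fun e01 => X.c123 r201 e01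
                have e04 : X.L {0} = X.L {4} := by_contra fun e04 => X.c161 r204 e04
                have e26 : ¬ X.L {2} = X.L {6} := fun e26 => X.c170 e01 e04 e25 e26
                have r526 : ¬ X.L {2, 5} = X.L {6, 5} := fun r526 => X.c8 r526 e26
                have e36 : ¬ X.L {3} = X.L {6} := fun e36 => X.c171 e01 e04 e25 e36
                have r536 : ¬ X.L {3, 5} = X.L {6, 5} := fun r536 => X.c10 r536 e36
                have r214 : X.L {1, 2} = X.L {4, 2} := by_contra fun r214 => X.c172 r201 r204 r214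
                have r245 : ¬ X.L {4, 2} = X.L {5, 2} := fun r245 => X.c173 r214 r245 r215
                have e06 : ¬ X.L {0} = X.L {6} := fun e06 => X.c174 e01 e04 e25 e06
                have e16 : ¬ X.L {1} = X.L {6} := fun e16 => X.c50 e01 e16 e06
                have r316 : ¬ X.L {1, 3} = X.L {6, 3} := fun r316 => X.c51 r316 e16
                exact X.c52 r315 r312 r526 r536 r234 r245 r316
              · by_cases r245 : X.L {4, 2} = X.L {5, 2}
                · have e45 : X.L {4} = X.L {5} := by_contra fun e45 => X.c49 r245 e45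
                  have e24 : X.L {2} = X.L {4} := by_contra fun e24 => X.c110 e25 e45 e24
                  have r247 : X.L {4, 2} = X.L {7, 2} := by_contra fun r247 => X.c175 r245 r234 r247
                  have r214 : ¬ X.L {1, 2} = X.L {4, 2} := fun r214 => X.c173 r214 r245 r215
                  have r246 : X.L {4, 2} = X.L {6, 2} := by_contra fun r246 => X.c126 r245 r204 r214 r234 r246
                  have e46 : X.L {4} = X.L {6} := by_contra fun e46 => X.c14 r246 e46
                  have e26 : X.L {2} = X.L {6} := by_contra fun e26 => X.c120 e24 e46 e26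
                  have e47 : X.L {4} = X.L {7} := by_contra fun e47 => X.c16 r247 e47
                  have e27 : X.L {2} = X.L {7} := by_contra fun e27 => X.c112 e24 e47 e27
                  exact X.c113 e24 e25 e26 e27
                · by_cases e16 : X.L {1} = X.L {6}
                  · have e26 : ¬ X.L {2} = X.L {6} := fun e26 => X.c176 e16 e26 e12
                    have r526 : ¬ X.L {2, 5} = X.L {6, 5} := fun r526 => X.c8 r526 e26
                    have e36 : ¬ X.L {3} = X.L {6} := fun e36 => X.c177 e16 e36 e13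
                    have r536 : ¬ X.L {3, 5} = X.L {6, 5} := fun r536 => X.c10 r536 e36
                    have r546 : X.L {4, 5} = X.L {6, 5} := by_contra fun r546 => X.c178 r315 r312 r526 r536 r234 r245 r546
                    have e46 : X.L {4} = X.L {6} := by_contra fun e46 => X.c179 r546 e46
                    have e34 : ¬ X.L {3} = X.L {4} := fun e34 => X.c180 e34 e46 e36
                    have r134 : ¬ X.L {3, 1} = X.L {4, 1} := fun r134 => X.c64 r134 e34
                    have r136 : ¬ X.L {3, 1} = X.L {6, 1} := fun r136 => X.c66 r136 e36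
                    have r214 : X.L {1, 2} = X.L {4, 2} := by_contra fun r214 => X.c19 r315 r312 r526 r536 r234 r245 r214
                    have e14 : X.L {1} = X.L {4} := by_contra fun e14 => X.c18 r214 e14
                    have e23 : ¬ X.L {2} = X.L {3} := fun e23 => X.c181 e23 e14 e25 e16
                    have r123 : ¬ X.L {2, 1} = X.L {3, 1} := fun r123 => X.c33 r123 e23
                    exact X.c73 r134 r136 r426 r412 r615 r645 r123
                  · have r516 : ¬ X.L {1, 5} = X.L {6, 5} := fun r516 => X.c87 r516 e16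
                    have r316 : ¬ X.L {1, 3} = X.L {6, 3} := fun r316 => X.c51 r316 e16
                    by_cases r536 : X.L {3, 5} = X.L {6, 5}
                    · have e36 : X.L {3} = X.L {6} := by_contra fun e36 => X.c10 r536 e36
                      have r537 : X.L {3, 5} = X.L {7, 5} := by_contra fun r537 => X.c182 r536 r513 r537
                      have e37 : X.L {3} = X.L {7} := by_contra fun e37 => X.c183 r537 e37
                      have e04 : ¬ X.L {0} = X.L {4} := fun e04 => X.c184 e04 e25 e36 e37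
                      have r504 : ¬ X.L {0, 5} = X.L {4, 5} := fun r504 => X.c142 r504 e04
                      have e24 : ¬ X.L {2} = X.L {4} := fun e24 => X.c185 e24 e25 e36 e37
                      have r524 : ¬ X.L {2, 5} = X.L {4, 5} := fun r524 => X.c136 r524 e24
                      have e34 : ¬ X.L {3} = X.L {4} := fun e34 => X.c186 e34 e25 e36 e37
                      have r534 : ¬ X.L {3, 5} = X.L {4, 5} := fun r534 => X.c187 r534 e34
                      by_cases r503 : X.L {0, 5} = X.L {3, 5}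
                      · have e03 : X.L {0} = X.L {3} := by_contra fun e03 => X.c141 r503 e03
                        have r506 : X.L {0, 5} = X.L {6, 5} := by_contra fun r506 => X.c188 r503 r536 r506
                        have e06 : X.L {0} = X.L {6} := by_contra fun e06 => X.c189 r506 e06
                        have r507 : X.L {0, 5} = X.L {7, 5} := by_contra fun r507 => X.c190 r503 r537 r507
                        have e07 : X.L {0} = X.L {7} := by_contra fun e07 => X.c144 r507 e07
                        exact X.c191 e03 e25 e06 e07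
                      · have r523 : X.L {2, 5} = X.L {3, 5} := by_contra fun r523 => X.c192 r536 r503 r513 r523 r534
                        have r526 : X.L {2, 5} = X.L {6, 5} := by_contra fun r526 => X.c193 r523 r536 r526
                        have r506 : ¬ X.L {0, 5} = X.L {6, 5} := fun r506 => X.c194 r506 r536 r503
                        have r502 : ¬ X.L {0, 5} = X.L {2, 5} := fun r502 => X.c195 r502 r504 r506
                        exact X.c137 r526 r502 r524
                    · have r526 : X.L {2, 5} = X.L {6, 5} := by_contra fun r526 => X.c52 r315 r312 r526 r536 r234 r245 r316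
                      have r523 : ¬ X.L {2, 5} = X.L {3, 5} := fun r523 => X.c196 r523 r526 r536
                      have r502 : X.L {0, 5} = X.L {2, 5} := by_contra fun r502 => X.c58 r526 r502 r523
                      have r506 : X.L {0, 5} = X.L {6, 5} := by_contra fun r506 => X.c138 r502 r526 r506
                      have r501 : ¬ X.L {0, 5} = X.L {1, 5} := fun r501 => X.c197 r501 r502 r512
                      have r503 : ¬ X.L {0, 5} = X.L {3, 5} := fun r503 => X.c198 r502 r503 r523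
                      have r567 : ¬ X.L {6, 5} = X.L {7, 5} := fun r567 => X.c199 r567 r516 r536
                      have r527 : ¬ X.L {2, 5} = X.L {7, 5} := fun r527 => X.c200 r526 r527 r567
                      have r507 : ¬ X.L {0, 5} = X.L {7, 5} := fun r507 => X.c201 r502 r507 r527
                      have r504 : X.L {0, 5} = X.L {4, 5} := by_contra fun r504 => X.c145 r502 r501 r503 r504 r507
                      have e02 : X.L {0} = X.L {2} := by_contra fun e02 => X.c57 r502 e02
                      have e05 : X.L {0} = X.L {5} := by_contra fun e05 => X.c129 e02 e25 e05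
                      have e06 : X.L {0} = X.L {6} := by_contra fun e06 => X.c189 r506 e06
                      have e04 : ¬ X.L {0} = X.L {4} := fun e04 => X.c133 e02 e04 e05 e06
                      exact X.c142 r504 e04
  · have r625 : ¬ X.L {2, 6} = X.L {5, 6} := fun r625 => X.c202 r625 e25
    have r325 : ¬ X.L {2, 3} = X.L {5, 3} := fun r325 => X.c203 r325 e25
    have r125 : ¬ X.L {2, 1} = X.L {5, 1} := fun r125 => X.c204 r125 e25
    have r425 : ¬ X.L {2, 4} = X.L {5, 4} := fun r425 => X.c205 r425 e25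
    by_cases e05 : X.L {0} = X.L {5}
    · have e02 : ¬ X.L {0} = X.L {2} := fun e02 => X.c206 e02 e05 e25
      have r502 : ¬ X.L {0, 5} = X.L {2, 5} := fun r502 => X.c57 r502 e02
      have r102 : ¬ X.L {0, 1} = X.L {2, 1} := fun r102 => X.c56 r102 e02
      have r402 : ¬ X.L {0, 4} = X.L {2, 4} := fun r402 => X.c59 r402 e02
      have r602 : ¬ X.L {0, 6} = X.L {2, 6} := fun r602 => X.c207 r602 e02
      have r302 : ¬ X.L {0, 3} = X.L {2, 3} := fun r302 => X.c208 r302 e02
      have r426 : ¬ X.L {2, 4} = X.L {6, 4} := fun r426 => X.c209 r426 r402 r425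
      by_cases r103 : X.L {0, 1} = X.L {3, 1}
      · have r104 : X.L {0, 1} = X.L {4, 1} := by_contra fun r104 => X.c99 r103 r102 r104
        have e03 : X.L {0} = X.L {3} := by_contra fun e03 => X.c96 r103 e03
        have e04 : X.L {0} = X.L {4} := by_contra fun e04 => X.c98 r104 e04
        have e06 : ¬ X.L {0} = X.L {6} := fun e06 => X.c210 e03 e04 e05 e06
        have r106 : ¬ X.L {0, 1} = X.L {6, 1} := fun r106 => X.c153 r106 e06
        have e07 : ¬ X.L {0} = X.L {7} := fun e07 => X.c211 e03 e04 e05 e07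
        have r107 : ¬ X.L {0, 1} = X.L {7, 1} := fun r107 => X.c155 r107 e07
        have r105 : X.L {0, 1} = X.L {5, 1} := by_contra fun r105 => X.c156 r103 r102 r105 r106 r107
        have e46 : ¬ X.L {4} = X.L {6} := fun e46 => X.c167 e04 e46 e06
        have r146 : ¬ X.L {4, 1} = X.L {6, 1} := fun r146 => X.c212 r146 e46
        have e47 : ¬ X.L {4} = X.L {7} := fun e47 => X.c168 e04 e47 e07
        have r147 : ¬ X.L {4, 1} = X.L {7, 1} := fun r147 => X.c213 r147 e47
        have r145 : ¬ X.L {4, 1} = X.L {5, 1} := fun r145 => X.c214 r145 r146 r147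
        exact X.c215 r104 r105 r145
      · by_cases r645 : X.L {4, 6} = X.L {5, 6}
        · have e45 : X.L {4} = X.L {5} := by_contra fun e45 => X.c82 r645 e45
          have e04 : X.L {0} = X.L {4} := by_contra fun e04 => X.c48 e05 e45 e04
          have r624 : ¬ X.L {2, 6} = X.L {4, 6} := fun r624 => X.c216 r624 r645 r625
          have r647 : X.L {4, 6} = X.L {7, 6} := by_contra fun r647 => X.c77 r645 r624 r647
          have e47 : X.L {4} = X.L {7} := by_contra fun e47 => X.c75 r647 e47
          have e07 : X.L {0} = X.L {7} := by_contra fun e07 => X.c168 e04 e47 e07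
          have e01 : ¬ X.L {0} = X.L {1} := fun e01 => X.c217 e01 e04 e05 e07
          have r301 : ¬ X.L {0, 3} = X.L {1, 3} := fun r301 => X.c60 r301 e01
          have e16 : ¬ X.L {1} = X.L {6} := fun e16 => X.c218 e04 e05 e16 e07
          have r316 : ¬ X.L {1, 3} = X.L {6, 3} := fun r316 => X.c51 r316 e16
          have r315 : ¬ X.L {1, 3} = X.L {5, 3} := fun r315 => X.c53 r315 r301 r316
          have e12 : ¬ X.L {1} = X.L {2} := fun e12 => X.c219 e12 e04 e05 e07
          have r312 : ¬ X.L {1, 3} = X.L {2, 3} := fun r312 => X.c107 r312 e12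
          have e26 : ¬ X.L {2} = X.L {6} := fun e26 => X.c220 e04 e05 e26 e07
          have r526 : ¬ X.L {2, 5} = X.L {6, 5} := fun r526 => X.c8 r526 e26
          have e36 : ¬ X.L {3} = X.L {6} := fun e36 => X.c221 e04 e05 e36 e07
          have r536 : ¬ X.L {3, 5} = X.L {6, 5} := fun r536 => X.c10 r536 e36
          have e03 : ¬ X.L {0} = X.L {3} := fun e03 => X.c211 e03 e04 e05 e07
          have e34 : ¬ X.L {3} = X.L {4} := fun e34 => X.c222 e04 e34 e03
          have r234 : ¬ X.L {3, 2} = X.L {4, 2} := fun r234 => X.c12 r234 e34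
          have r245 : X.L {4, 2} = X.L {5, 2} := by_contra fun r245 => X.c52 r315 r312 r526 r536 r234 r245 r316
          have e06 : ¬ X.L {0} = X.L {6} := fun e06 => X.c223 e04 e05 e06 e07
          have e46 : ¬ X.L {4} = X.L {6} := fun e46 => X.c167 e04 e46 e06
          have r246 : ¬ X.L {4, 2} = X.L {6, 2} := fun r246 => X.c14 r246 e46
          have r247 : X.L {4, 2} = X.L {7, 2} := by_contra fun r247 => X.c17 r245 r246 r247
          have r201 : ¬ X.L {0, 2} = X.L {1, 2} := fun r201 => X.c123 r201 e01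
          have r203 : ¬ X.L {0, 2} = X.L {3, 2} := fun r203 => X.c116 r203 e03
          have r204 : ¬ X.L {0, 2} = X.L {4, 2} := fun r204 => X.c124 r204 r201 r203
          have e14 : ¬ X.L {1} = X.L {4} := fun e14 => X.c224 e04 e14 e01
          have r214 : ¬ X.L {1, 2} = X.L {4, 2} := fun r214 => X.c18 r214 e14
          exact X.c126 r245 r204 r214 r234 r246
        · have r657 : ¬ X.L {5, 6} = X.L {7, 6} := fun r657 => X.c225 r657 r625 r645
          by_cases r506 : X.L {0, 5} = X.L {6, 5}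
          · have r504 : X.L {0, 5} = X.L {4, 5} := by_contra fun r504 => X.c226 r506 r502 r504
            have e04 : X.L {0} = X.L {4} := by_contra fun e04 => X.c142 r504 e04
            have e06 : X.L {0} = X.L {6} := by_contra fun e06 => X.c189 r506 e06
            have e03 : ¬ X.L {0} = X.L {3} := fun e03 => X.c210 e03 e04 e05 e06
            have e34 : ¬ X.L {3} = X.L {4} := fun e34 => X.c222 e04 e34 e03
            have r134 : ¬ X.L {3, 1} = X.L {4, 1} := fun r134 => X.c64 r134 e34
            have e36 : ¬ X.L {3} = X.L {6} := fun e36 => X.c131 e06 e36 e03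
            have r136 : ¬ X.L {3, 1} = X.L {6, 1} := fun r136 => X.c66 r136 e36
            have e12 : ¬ X.L {1} = X.L {2} := fun e12 => X.c227 e12 e04 e05 e06
            have r412 : ¬ X.L {1, 4} = X.L {2, 4} := fun r412 => X.c106 r412 e12
            have e01 : ¬ X.L {0} = X.L {1} := fun e01 => X.c228 e01 e04 e05 e06
            have r601 : ¬ X.L {0, 6} = X.L {1, 6} := fun r601 => X.c61 r601 e01
            have e13 : ¬ X.L {1} = X.L {3} := fun e13 => X.c229 e13 e04 e05 e06
            have r613 : ¬ X.L {1, 6} = X.L {3, 6} := fun r613 => X.c37 r613 e13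
            have r615 : ¬ X.L {1, 6} = X.L {5, 6} := fun r615 => X.c62 r615 r601 r613
            have e23 : ¬ X.L {2} = X.L {3} := fun e23 => X.c230 e23 e04 e05 e06
            have r123 : ¬ X.L {2, 1} = X.L {3, 1} := fun r123 => X.c33 r123 e23
            exact X.c73 r134 r136 r426 r412 r615 r645 r123
          · by_cases r526 : X.L {2, 5} = X.L {6, 5}
            · have r523 : X.L {2, 5} = X.L {3, 5} := by_contra fun r523 => X.c58 r526 r502 r523
              have e23 : X.L {2} = X.L {3} := by_contra fun e23 => X.c32 r523 e23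
              have r524 : X.L {2, 5} = X.L {4, 5} := by_contra fun r524 => X.c137 r526 r502 r524
              have e24 : X.L {2} = X.L {4} := by_contra fun e24 => X.c136 r524 e24
              have e26 : X.L {2} = X.L {6} := by_contra fun e26 => X.c8 r526 e26
              exact X.c231 e23 e24 e05 e26
            · by_cases r412 : X.L {1, 4} = X.L {2, 4}
              · have e12 : X.L {1} = X.L {2} := by_contra fun e12 => X.c106 r412 e12
                have r416 : ¬ X.L {1, 4} = X.L {6, 4} := fun r416 => X.c232 r412 r416 r426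
                have r417 : X.L {1, 4} = X.L {7, 4} := by_contra fun r417 => X.c72 r412 r416 r417
                have r401 : ¬ X.L {0, 4} = X.L {1, 4} := fun r401 => X.c233 r401 r412 r402
                have r415 : ¬ X.L {1, 4} = X.L {5, 4} := fun r415 => X.c234 r412 r415 r425
                have r413 : X.L {1, 4} = X.L {3, 4} := by_contra fun r413 => X.c235 r412 r401 r413 r415 r416
                have e13 : X.L {1} = X.L {3} := by_contra fun e13 => X.c34 r413 e13
                have e17 : X.L {1} = X.L {7} := by_contra fun e17 => X.c71 r417 e17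
                exact X.c236 e12 e13 e05 e17
              · by_cases r136 : X.L {3, 1} = X.L {6, 1}
                · have e36 : X.L {3} = X.L {6} := by_contra fun e36 => X.c66 r136 e36
                  by_cases r137 : X.L {3, 1} = X.L {7, 1}
                  · have e37 : X.L {3} = X.L {7} := by_contra fun e37 => X.c237 r137 e37
                    have e01 : ¬ X.L {0} = X.L {1} := fun e01 => X.c238 e01 e05 e36 e37
                    have r301 : ¬ X.L {0, 3} = X.L {1, 3} := fun r301 => X.c60 r301 e01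
                    have e12 : ¬ X.L {1} = X.L {2} := fun e12 => X.c239 e12 e05 e36 e37
                    have r312 : ¬ X.L {1, 3} = X.L {2, 3} := fun r312 => X.c107 r312 e12
                    have r315 : ¬ X.L {1, 3} = X.L {5, 3} := fun r315 => X.c20 r315 r301 r312
                    have e34 : ¬ X.L {3} = X.L {4} := fun e34 => X.c240 e34 e05 e36 e37
                    have r234 : ¬ X.L {3, 2} = X.L {4, 2} := fun r234 => X.c12 r234 e34
                    have e04 : ¬ X.L {0} = X.L {4} := fun e04 => X.c241 e04 e05 e36 e37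
                    have e45 : ¬ X.L {4} = X.L {5} := fun e45 => X.c48 e05 e45 e04
                    have r245 : ¬ X.L {4, 2} = X.L {5, 2} := fun r245 => X.c49 r245 e45
                    have e46 : ¬ X.L {4} = X.L {6} := fun e46 => X.c242 e36 e46 e34
                    have r546 : ¬ X.L {4, 5} = X.L {6, 5} := fun r546 => X.c179 r546 e46
                    have r536 : X.L {3, 5} = X.L {6, 5} := by_contra fun r536 => X.c178 r315 r312 r526 r536 r234 r245 r546
                    have r523 : ¬ X.L {2, 5} = X.L {3, 5} := fun r523 => X.c193 r523 r536 r526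
                    have r537 : X.L {3, 5} = X.L {7, 5} := by_contra fun r537 => X.c243 r536 r523 r537
                    have r503 : ¬ X.L {0, 5} = X.L {3, 5} := fun r503 => X.c188 r503 r536 r506
                    have r534 : ¬ X.L {3, 5} = X.L {4, 5} := fun r534 => X.c187 r534 e34
                    have r513 : X.L {1, 5} = X.L {3, 5} := by_contra fun r513 => X.c192 r536 r503 r513 r523 r534
                    have e13 : X.L {1} = X.L {3} := by_contra fun e13 => X.c158 r513 e13
                    have e24 : ¬ X.L {2} = X.L {4} := fun e24 => X.c244 e24 e05 e36 e37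
                    have r124 : ¬ X.L {2, 1} = X.L {4, 1} := fun r124 => X.c245 r124 e24
                    have r126 : ¬ X.L {2, 1} = X.L {6, 1} := fun r126 => X.c246 r126 r102 r124
                    have r123 : ¬ X.L {2, 1} = X.L {3, 1} := fun r123 => X.c247 r123 r136 r126
                    have r134 : ¬ X.L {3, 1} = X.L {4, 1} := fun r134 => X.c64 r134 e34
                    have r135 : X.L {3, 1} = X.L {5, 1} := by_contra fun r135 => X.c102 r136 r103 r123 r134 r135
                    have e35 : X.L {3} = X.L {5} := by_contra fun e35 => X.c36 r135 e35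
                    have e15 : ¬ X.L {1} = X.L {5} := fun e15 => X.c248 e05 e15 e01
                    exact X.c147 e13 e35 e15
                  · have r134 : X.L {3, 1} = X.L {4, 1} := by_contra fun r134 => X.c101 r136 r134 r137
                    have r135 : X.L {3, 1} = X.L {5, 1} := by_contra fun r135 => X.c249 r136 r135 r137
                    have r123 : ¬ X.L {2, 1} = X.L {3, 1} := fun r123 => X.c250 r123 r135 r125
                    exact X.c100 r134 r103 r123
                · have r134 : ¬ X.L {3, 1} = X.L {4, 1} := fun r134 => X.c97 r134 r103 r136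
                  have r615 : X.L {1, 6} = X.L {5, 6} := by_contra fun r615 => X.c251 r134 r136 r426 r412 r615 r645 r425
                  have e15 : X.L {1} = X.L {5} := by_contra fun e15 => X.c109 r615 e15
                  have e12 : ¬ X.L {1} = X.L {2} := fun e12 => X.c252 e12 e15 e25
                  have r312 : ¬ X.L {1, 3} = X.L {2, 3} := fun r312 => X.c107 r312 e12
                  have r614 : ¬ X.L {1, 6} = X.L {4, 6} := fun r614 => X.c253 r614 r615 r645
                  have r601 : X.L {0, 6} = X.L {1, 6} := by_contra fun r601 => X.c254 r615 r601 r614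
                  have r605 : X.L {0, 6} = X.L {5, 6} := by_contra fun r605 => X.c255 r601 r615 r605
                  have r604 : ¬ X.L {0, 6} = X.L {4, 6} := fun r604 => X.c256 r601 r604 r614
                  have r617 : ¬ X.L {1, 6} = X.L {7, 6} := fun r617 => X.c257 r615 r617 r657
                  have r607 : ¬ X.L {0, 6} = X.L {7, 6} := fun r607 => X.c258 r601 r607 r617
                  have r603 : X.L {0, 6} = X.L {3, 6} := by_contra fun r603 => X.c259 r601 r602 r603 r604 r607
                  have e03 : X.L {0} = X.L {3} := by_contra fun e03 => X.c260 r603 e03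
                  have e01 : X.L {0} = X.L {1} := by_contra fun e01 => X.c248 e05 e15 e01
                  have e06 : ¬ X.L {0} = X.L {6} := fun e06 => X.c261 e01 e03 e05 e06
                  have e36 : ¬ X.L {3} = X.L {6} := fun e36 => X.c262 e03 e36 e06
                  have r536 : ¬ X.L {3, 5} = X.L {6, 5} := fun r536 => X.c10 r536 e36
                  have e04 : ¬ X.L {0} = X.L {4} := fun e04 => X.c263 e01 e03 e04 e05
                  have e34 : ¬ X.L {3} = X.L {4} := fun e34 => X.c264 e03 e34 e04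
                  have r234 : ¬ X.L {3, 2} = X.L {4, 2} := fun r234 => X.c12 r234 e34
                  have e46 : ¬ X.L {4} = X.L {6} := fun e46 => X.c265 e01 e03 e05 e46
                  have r246 : ¬ X.L {4, 2} = X.L {6, 2} := fun r246 => X.c14 r246 e46
                  have e47 : ¬ X.L {4} = X.L {7} := fun e47 => X.c266 e01 e03 e05 e47
                  have r247 : ¬ X.L {4, 2} = X.L {7, 2} := fun r247 => X.c16 r247 e47
                  have r245 : ¬ X.L {4, 2} = X.L {5, 2} := fun r245 => X.c17 r245 r246 r247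
                  have e16 : ¬ X.L {1} = X.L {6} := fun e16 => X.c50 e01 e16 e06
                  have r316 : ¬ X.L {1, 3} = X.L {6, 3} := fun r316 => X.c51 r316 e16
                  have r315 : X.L {1, 3} = X.L {5, 3} := by_contra fun r315 => X.c52 r315 r312 r526 r536 r234 r245 r316
                  have r301 : X.L {0, 3} = X.L {1, 3} := by_contra fun r301 => X.c53 r315 r301 r316
                  have r305 : X.L {0, 3} = X.L {5, 3} := by_contra fun r305 => X.c21 r301 r315 r305
                  have r304 : ¬ X.L {0, 3} = X.L {4, 3} := fun r304 => X.c25 r304 e04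
                  have r306 : ¬ X.L {0, 3} = X.L {6, 3} := fun r306 => X.c27 r306 e06
                  have e07 : ¬ X.L {0} = X.L {7} := fun e07 => X.c267 e01 e03 e05 e07
                  have r307 : ¬ X.L {0, 3} = X.L {7, 3} := fun r307 => X.c29 r307 e07
                  exact X.c30 r301 r302 r304 r306 r307
    · have r205 : ¬ X.L {0, 2} = X.L {5, 2} := fun r205 => X.c268 r205 e05
      have r405 : ¬ X.L {0, 4} = X.L {5, 4} := fun r405 => X.c269 r405 e05
      have r105 : ¬ X.L {0, 1} = X.L {5, 1} := fun r105 => X.c270 r105 e05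
      have r305 : ¬ X.L {0, 3} = X.L {5, 3} := fun r305 => X.c271 r305 e05
      have r605 : ¬ X.L {0, 6} = X.L {5, 6} := fun r605 => X.c272 r605 e05
      by_cases r415 : X.L {1, 4} = X.L {5, 4}
      · have r401 : ¬ X.L {0, 4} = X.L {1, 4} := fun r401 => X.c273 r401 r415 r405
        have r412 : ¬ X.L {1, 4} = X.L {2, 4} := fun r412 => X.c234 r412 r415 r425
        exact X.c274 r415 r401 r412
      · by_cases r315 : X.L {1, 3} = X.L {5, 3}
        · have r301 : ¬ X.L {0, 3} = X.L {1, 3} := fun r301 => X.c21 r301 r315 r305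
          have r312 : ¬ X.L {1, 3} = X.L {2, 3} := fun r312 => X.c275 r312 r315 r325
          exact X.c20 r315 r301 r312
        · by_cases r615 : X.L {1, 6} = X.L {5, 6}
          · have r601 : ¬ X.L {0, 6} = X.L {1, 6} := fun r601 => X.c255 r601 r615 r605
            have r613 : X.L {1, 6} = X.L {3, 6} := by_contra fun r613 => X.c62 r615 r601 r613
            have r614 : X.L {1, 6} = X.L {4, 6} := by_contra fun r614 => X.c254 r615 r601 r614
            have r634 : X.L {3, 6} = X.L {4, 6} := by_contra fun r634 => X.c276 r613 r614 r634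
            have r645 : X.L {4, 6} = X.L {5, 6} := by_contra fun r645 => X.c253 r614 r615 r645
            have r612 : ¬ X.L {1, 6} = X.L {2, 6} := fun r612 => X.c277 r612 r615 r625
            have r624 : ¬ X.L {2, 6} = X.L {4, 6} := fun r624 => X.c80 r614 r624 r612
            have r647 : X.L {4, 6} = X.L {7, 6} := by_contra fun r647 => X.c77 r645 r624 r647
            have r637 : X.L {3, 6} = X.L {7, 6} := by_contra fun r637 => X.c278 r634 r647 r637
            have e13 : X.L {1} = X.L {3} := by_contra fun e13 => X.c37 r613 e13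
            have e14 : X.L {1} = X.L {4} := by_contra fun e14 => X.c279 r614 e14
            have e15 : X.L {1} = X.L {5} := by_contra fun e15 => X.c109 r615 e15
            have e17 : ¬ X.L {1} = X.L {7} := fun e17 => X.c280 e13 e14 e15 e17
            have e37 : ¬ X.L {3} = X.L {7} := fun e37 => X.c281 e13 e37 e17
            exact X.c282 r637 e37
          · by_cases r645 : X.L {4, 6} = X.L {5, 6}
            · have r624 : ¬ X.L {2, 6} = X.L {4, 6} := fun r624 => X.c216 r624 r645 r625
              have r647 : X.L {4, 6} = X.L {7, 6} := by_contra fun r647 => X.c77 r645 r624 r647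
              have r604 : ¬ X.L {0, 6} = X.L {4, 6} := fun r604 => X.c283 r604 r645 r605
              have r614 : ¬ X.L {1, 6} = X.L {4, 6} := fun r614 => X.c111 r614 r645 r615
              have r634 : X.L {3, 6} = X.L {4, 6} := by_contra fun r634 => X.c284 r645 r604 r614 r624 r634
              have r603 : ¬ X.L {0, 6} = X.L {3, 6} := fun r603 => X.c285 r603 r634 r604
              have r613 : ¬ X.L {1, 6} = X.L {3, 6} := fun r613 => X.c286 r613 r634 r614
              exact X.c287 r634 r603 r613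
            · by_cases r215 : X.L {1, 2} = X.L {5, 2}
              · have r201 : ¬ X.L {0, 2} = X.L {1, 2} := fun r201 => X.c288 r201 r215 r205
                have r213 : X.L {1, 2} = X.L {3, 2} := by_contra fun r213 => X.c289 r215 r201 r213
                have e13 : X.L {1} = X.L {3} := by_contra fun e13 => X.c118 r213 e13
                have e15 : X.L {1} = X.L {5} := by_contra fun e15 => X.c105 r215 e15
                have e01 : ¬ X.L {0} = X.L {1} := fun e01 => X.c39 e01 e15 e05
                have e03 : ¬ X.L {0} = X.L {3} := fun e03 => X.c290 e03 e13 e01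
                have r103 : ¬ X.L {0, 1} = X.L {3, 1} := fun r103 => X.c96 r103 e03
                have e12 : ¬ X.L {1} = X.L {2} := fun e12 => X.c252 e12 e15 e25
                have e23 : ¬ X.L {2} = X.L {3} := fun e23 => X.c146 e13 e23 e12
                have r123 : ¬ X.L {2, 1} = X.L {3, 1} := fun r123 => X.c33 r123 e23
                have r134 : ¬ X.L {3, 1} = X.L {4, 1} := fun r134 => X.c100 r134 r103 r123
                have r214 : X.L {1, 2} = X.L {4, 2} := by_contra fun r214 => X.c291 r215 r201 r214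
                have e14 : X.L {1} = X.L {4} := by_contra fun e14 => X.c18 r214 e14
                have e16 : ¬ X.L {1} = X.L {6} := fun e16 => X.c292 e13 e14 e15 e16
                have e36 : ¬ X.L {3} = X.L {6} := fun e36 => X.c9 e13 e36 e16
                have r136 : ¬ X.L {3, 1} = X.L {6, 1} := fun r136 => X.c66 r136 e36
                have e26 : ¬ X.L {2} = X.L {6} := fun e26 => X.c293 e13 e14 e15 e26
                have r426 : ¬ X.L {2, 4} = X.L {6, 4} := fun r426 => X.c68 r426 e26
                have r412 : ¬ X.L {1, 4} = X.L {2, 4} := fun r412 => X.c106 r412 e12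
                exact X.c73 r134 r136 r426 r412 r615 r645 r123
              · by_cases e56 : X.L {5} = X.L {6}
                · have e06 : ¬ X.L {0} = X.L {6} := fun e06 => X.c294 e06 e56 e05
                  have r406 : ¬ X.L {0, 4} = X.L {6, 4} := fun r406 => X.c128 r406 e06
                  have r402 : ¬ X.L {0, 4} = X.L {2, 4} := fun r402 => X.c295 r402 r405 r406
                  have e26 : ¬ X.L {2} = X.L {6} := fun e26 => X.c296 e26 e56 e25
                  have r526 : ¬ X.L {2, 5} = X.L {6, 5} := fun r526 => X.c8 r526 e26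
                  have r106 : ¬ X.L {0, 1} = X.L {6, 1} := fun r106 => X.c153 r106 e06
                  have r426 : ¬ X.L {2, 4} = X.L {6, 4} := fun r426 => X.c68 r426 e26
                  by_cases r412 : X.L {1, 4} = X.L {2, 4}
                  · have e12 : X.L {1} = X.L {2} := by_contra fun e12 => X.c106 r412 e12
                    have r416 : ¬ X.L {1, 4} = X.L {6, 4} := fun r416 => X.c232 r412 r416 r426
                    have r417 : X.L {1, 4} = X.L {7, 4} := by_contra fun r417 => X.c72 r412 r416 r417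
                    have r401 : ¬ X.L {0, 4} = X.L {1, 4} := fun r401 => X.c233 r401 r412 r402
                    have r413 : X.L {1, 4} = X.L {3, 4} := by_contra fun r413 => X.c235 r412 r401 r413 r415 r416
                    have e13 : X.L {1} = X.L {3} := by_contra fun e13 => X.c34 r413 e13
                    have e17 : X.L {1} = X.L {7} := by_contra fun e17 => X.c71 r417 e17
                    exact X.c297 e12 e13 e56 e17
                  · by_cases e35 : X.L {3} = X.L {5}
                    · have e36 : X.L {3} = X.L {6} := by_contra fun e36 => X.c298 e35 e56 e36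
                      have e03 : ¬ X.L {0} = X.L {3} := fun e03 => X.c299 e03 e35 e05
                      have r103 : ¬ X.L {0, 1} = X.L {3, 1} := fun r103 => X.c96 r103 e03
                      have e23 : ¬ X.L {2} = X.L {3} := fun e23 => X.c300 e23 e35 e25
                      have r123 : ¬ X.L {2, 1} = X.L {3, 1} := fun r123 => X.c33 r123 e23
                      have r134 : ¬ X.L {3, 1} = X.L {4, 1} := fun r134 => X.c100 r134 r103 r123
                      have r136 : X.L {3, 1} = X.L {6, 1} := by_contra fun r136 => X.c73 r134 r136 r426 r412 r615 r645 r123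
                      have r137 : X.L {3, 1} = X.L {7, 1} := by_contra fun r137 => X.c101 r136 r134 r137
                      have e37 : X.L {3} = X.L {7} := by_contra fun e37 => X.c237 r137 e37
                      have e12 : ¬ X.L {1} = X.L {2} := fun e12 => X.c301 e12 e35 e36 e37
                      have r312 : ¬ X.L {1, 3} = X.L {2, 3} := fun r312 => X.c107 r312 e12
                      have e34 : ¬ X.L {3} = X.L {4} := fun e34 => X.c302 e34 e35 e36 e37
                      have r234 : ¬ X.L {3, 2} = X.L {4, 2} := fun r234 => X.c12 r234 e34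
                      have e45 : ¬ X.L {4} = X.L {5} := fun e45 => X.c303 e35 e45 e34
                      have r245 : ¬ X.L {4, 2} = X.L {5, 2} := fun r245 => X.c49 r245 e45
                      have e46 : ¬ X.L {4} = X.L {6} := fun e46 => X.c242 e36 e46 e34
                      have r546 : ¬ X.L {4, 5} = X.L {6, 5} := fun r546 => X.c179 r546 e46
                      have r536 : X.L {3, 5} = X.L {6, 5} := by_contra fun r536 => X.c178 r315 r312 r526 r536 r234 r245 r546
                      have r523 : ¬ X.L {2, 5} = X.L {3, 5} := fun r523 => X.c32 r523 e23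
                      have r537 : X.L {3, 5} = X.L {7, 5} := by_contra fun r537 => X.c243 r536 r523 r537
                      have r503 : ¬ X.L {0, 5} = X.L {3, 5} := fun r503 => X.c141 r503 e03
                      have r534 : ¬ X.L {3, 5} = X.L {4, 5} := fun r534 => X.c304 r534 r503 r523
                      have r513 : X.L {1, 5} = X.L {3, 5} := by_contra fun r513 => X.c192 r536 r503 r513 r523 r534
                      have e13 : X.L {1} = X.L {3} := by_contra fun e13 => X.c158 r513 e13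
                      have e15 : X.L {1} = X.L {5} := by_contra fun e15 => X.c147 e13 e35 e15
                      have r516 : X.L {1, 5} = X.L {6, 5} := by_contra fun r516 => X.c305 r513 r536 r516
                      have e16 : X.L {1} = X.L {6} := by_contra fun e16 => X.c87 r516 e16
                      have r517 : X.L {1, 5} = X.L {7, 5} := by_contra fun r517 => X.c306 r513 r537 r517
                      have e17 : X.L {1} = X.L {7} := by_contra fun e17 => X.c307 r517 e17
                      exact X.c308 e13 e15 e16 e17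
                    · have e36 : ¬ X.L {3} = X.L {6} := fun e36 => X.c309 e36 e56 e35
                      have r136 : ¬ X.L {3, 1} = X.L {6, 1} := fun r136 => X.c66 r136 e36
                      have r135 : ¬ X.L {3, 1} = X.L {5, 1} := fun r135 => X.c36 r135 e35
                      have r134 : X.L {3, 1} = X.L {4, 1} := by_contra fun r134 => X.c310 r134 r136 r426 r412 r615 r645 r135
                      have r103 : X.L {0, 1} = X.L {3, 1} := by_contra fun r103 => X.c97 r134 r103 r136
                      have r104 : X.L {0, 1} = X.L {4, 1} := by_contra fun r104 => X.c149 r103 r134 r104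
                      have r137 : ¬ X.L {3, 1} = X.L {7, 1} := fun r137 => X.c311 r137 r135 r136
                      have r107 : ¬ X.L {0, 1} = X.L {7, 1} := fun r107 => X.c312 r103 r107 r137
                      have r102 : X.L {0, 1} = X.L {2, 1} := by_contra fun r102 => X.c156 r103 r102 r105 r106 r107
                      have e03 : X.L {0} = X.L {3} := by_contra fun e03 => X.c96 r103 e03
                      have e04 : X.L {0} = X.L {4} := by_contra fun e04 => X.c98 r104 e04
                      have e02 : ¬ X.L {0} = X.L {2} := fun e02 => X.c313 e02 e03 e04 e56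
                      exact X.c56 r102 e02
                · have r256 : ¬ X.L {5, 2} = X.L {6, 2} := fun r256 => X.c314 r256 e56
                  by_cases r245 : X.L {4, 2} = X.L {5, 2}
                  · have r246 : ¬ X.L {4, 2} = X.L {6, 2} := fun r246 => X.c315 r245 r246 r256
                    have r247 : X.L {4, 2} = X.L {7, 2} := by_contra fun r247 => X.c17 r245 r246 r247
                    have r204 : ¬ X.L {0, 2} = X.L {4, 2} := fun r204 => X.c316 r204 r245 r205
                    have r214 : ¬ X.L {1, 2} = X.L {4, 2} := fun r214 => X.c173 r214 r245 r215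
                    have r234 : X.L {3, 2} = X.L {4, 2} := by_contra fun r234 => X.c126 r245 r204 r214 r234 r246
                    have r203 : ¬ X.L {0, 2} = X.L {3, 2} := fun r203 => X.c317 r203 r234 r204
                    have r213 : ¬ X.L {1, 2} = X.L {3, 2} := fun r213 => X.c318 r213 r234 r214
                    exact X.c119 r234 r203 r213
                  · by_cases e35 : X.L {3} = X.L {5}
                    · have e23 : ¬ X.L {2} = X.L {3} := fun e23 => X.c300 e23 e35 e25
                      have r123 : ¬ X.L {2, 1} = X.L {3, 1} := fun r123 => X.c33 r123 e23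
                      have e03 : ¬ X.L {0} = X.L {3} := fun e03 => X.c299 e03 e35 e05
                      have r403 : ¬ X.L {0, 4} = X.L {3, 4} := fun r403 => X.c319 r403 e03
                      have r423 : ¬ X.L {2, 4} = X.L {3, 4} := fun r423 => X.c320 r423 e23
                      have r103 : ¬ X.L {0, 1} = X.L {3, 1} := fun r103 => X.c96 r103 e03
                      have r134 : ¬ X.L {3, 1} = X.L {4, 1} := fun r134 => X.c100 r134 r103 r123
                      have e36 : ¬ X.L {3} = X.L {6} := fun e36 => X.c321 e35 e36 e56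
                      have r136 : ¬ X.L {3, 1} = X.L {6, 1} := fun r136 => X.c66 r136 e36
                      by_cases r406 : X.L {0, 4} = X.L {6, 4}
                      · have r402 : X.L {0, 4} = X.L {2, 4} := by_contra fun r402 => X.c322 r406 r402 r405
                        have e02 : X.L {0} = X.L {2} := by_contra fun e02 => X.c59 r402 e02
                        have e06 : X.L {0} = X.L {6} := by_contra fun e06 => X.c128 r406 e06
                        have e01 : ¬ X.L {0} = X.L {1} := fun e01 => X.c323 e01 e02 e35 e06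
                        have r401 : ¬ X.L {0, 4} = X.L {1, 4} := fun r401 => X.c324 r401 e01
                        have e07 : ¬ X.L {0} = X.L {7} := fun e07 => X.c325 e02 e35 e06 e07
                        have r407 : ¬ X.L {0, 4} = X.L {7, 4} := fun r407 => X.c326 r407 e07
                        exact X.c327 r402 r401 r403 r405 r407
                      · have r402 : ¬ X.L {0, 4} = X.L {2, 4} := fun r402 => X.c295 r402 r405 r406
                        have r426 : ¬ X.L {2, 4} = X.L {6, 4} := fun r426 => X.c209 r426 r402 r425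
                        have r412 : X.L {1, 4} = X.L {2, 4} := by_contra fun r412 => X.c73 r134 r136 r426 r412 r615 r645 r123
                        have r416 : ¬ X.L {1, 4} = X.L {6, 4} := fun r416 => X.c232 r412 r416 r426
                        have r417 : X.L {1, 4} = X.L {7, 4} := by_contra fun r417 => X.c72 r412 r416 r417
                        have r401 : ¬ X.L {0, 4} = X.L {1, 4} := fun r401 => X.c233 r401 r412 r402
                        have r413 : ¬ X.L {1, 4} = X.L {3, 4} := fun r413 => X.c328 r412 r413 r423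
                        exact X.c235 r412 r401 r413 r415 r416
                    · have r235 : ¬ X.L {3, 2} = X.L {5, 2} := fun r235 => X.c329 r235 e35
                      have r135 : ¬ X.L {3, 1} = X.L {5, 1} := fun r135 => X.c36 r135 e35
                      by_cases r402 : X.L {0, 4} = X.L {2, 4}
                      · have e02 : X.L {0} = X.L {2} := by_contra fun e02 => X.c59 r402 e02
                        have r406 : X.L {0, 4} = X.L {6, 4} := by_contra fun r406 => X.c295 r402 r405 r406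
                        have e06 : X.L {0} = X.L {6} := by_contra fun e06 => X.c128 r406 e06
                        have r426 : X.L {2, 4} = X.L {6, 4} := by_contra fun r426 => X.c330 r402 r406 r426
                        have e26 : X.L {2} = X.L {6} := by_contra fun e26 => X.c68 r426 e26
                        by_cases e36 : X.L {3} = X.L {6}
                        · have e03 : X.L {0} = X.L {3} := by_contra fun e03 => X.c131 e06 e36 e03
                          have e01 : ¬ X.L {0} = X.L {1} := fun e01 => X.c331 e01 e02 e03 e06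
                          have r401 : ¬ X.L {0, 4} = X.L {1, 4} := fun r401 => X.c324 r401 e01
                          have e07 : ¬ X.L {0} = X.L {7} := fun e07 => X.c332 e02 e03 e06 e07
                          have r407 : ¬ X.L {0, 4} = X.L {7, 4} := fun r407 => X.c326 r407 e07
                          have r403 : X.L {0, 4} = X.L {3, 4} := by_contra fun r403 => X.c327 r402 r401 r403 r405 r407
                          have e13 : ¬ X.L {1} = X.L {3} := fun e13 => X.c290 e03 e13 e01
                          have r413 : ¬ X.L {1, 4} = X.L {3, 4} := fun r413 => X.c34 r413 e13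
                          have e37 : ¬ X.L {3} = X.L {7} := fun e37 => X.c333 e03 e37 e07
                          have r437 : ¬ X.L {3, 4} = X.L {7, 4} := fun r437 => X.c334 r437 e37
                          have r436 : ¬ X.L {3, 4} = X.L {6, 4} := fun r436 => X.c335 r436 r413 r437
                          exact X.c336 r403 r406 r436
                        · have e03 : ¬ X.L {0} = X.L {3} := fun e03 => X.c337 e03 e06 e36
                          have r403 : ¬ X.L {0, 4} = X.L {3, 4} := fun r403 => X.c319 r403 e03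
                          have e23 : ¬ X.L {2} = X.L {3} := fun e23 => X.c338 e23 e26 e36
                          have r423 : ¬ X.L {2, 4} = X.L {3, 4} := fun r423 => X.c320 r423 e23
                          by_cases r412 : X.L {1, 4} = X.L {2, 4}
                          · have r401 : X.L {0, 4} = X.L {1, 4} := by_contra fun r401 => X.c339 r402 r412 r401
                            have e01 : X.L {0} = X.L {1} := by_contra fun e01 => X.c324 r401 e01
                            have r413 : ¬ X.L {1, 4} = X.L {3, 4} := fun r413 => X.c328 r412 r413 r423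
                            have r417 : X.L {1, 4} = X.L {7, 4} := by_contra fun r417 => X.c92 r412 r413 r417
                            have r407 : X.L {0, 4} = X.L {7, 4} := by_contra fun r407 => X.c340 r401 r417 r407
                            have e07 : X.L {0} = X.L {7} := by_contra fun e07 => X.c326 r407 e07
                            exact X.c341 e01 e02 e06 e07
                          · have r401 : ¬ X.L {0, 4} = X.L {1, 4} := fun r401 => X.c342 r401 r402 r412
                            have r407 : X.L {0, 4} = X.L {7, 4} := by_contra fun r407 => X.c327 r402 r401 r403 r405 r407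
                            have r427 : ¬ X.L {2, 4} = X.L {7, 4} := fun r427 => X.c343 r427 r412 r423
                            exact X.c344 r402 r407 r427
                      · have r426 : ¬ X.L {2, 4} = X.L {6, 4} := fun r426 => X.c209 r426 r402 r425
                        by_cases r412 : X.L {1, 4} = X.L {2, 4}
                        · have e12 : X.L {1} = X.L {2} := by_contra fun e12 => X.c106 r412 e12
                          have r416 : ¬ X.L {1, 4} = X.L {6, 4} := fun r416 => X.c232 r412 r416 r426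
                          have r417 : X.L {1, 4} = X.L {7, 4} := by_contra fun r417 => X.c72 r412 r416 r417
                          have r401 : ¬ X.L {0, 4} = X.L {1, 4} := fun r401 => X.c233 r401 r412 r402
                          have r413 : X.L {1, 4} = X.L {3, 4} := by_contra fun r413 => X.c235 r412 r401 r413 r415 r416
                          have e13 : X.L {1} = X.L {3} := by_contra fun e13 => X.c34 r413 e13
                          have e17 : X.L {1} = X.L {7} := by_contra fun e17 => X.c71 r417 e17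
                          have e16 : ¬ X.L {1} = X.L {6} := fun e16 => X.c345 e12 e13 e16 e17
                          have e26 : ¬ X.L {2} = X.L {6} := fun e26 => X.c7 e12 e26 e16
                          have r526 : ¬ X.L {2, 5} = X.L {6, 5} := fun r526 => X.c8 r526 e26
                          have e36 : ¬ X.L {3} = X.L {6} := fun e36 => X.c9 e13 e36 e16
                          have r536 : ¬ X.L {3, 5} = X.L {6, 5} := fun r536 => X.c10 r536 e36
                          have e14 : ¬ X.L {1} = X.L {4} := fun e14 => X.c346 e12 e13 e14 e17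
                          have e34 : ¬ X.L {3} = X.L {4} := fun e34 => X.c11 e13 e34 e14
                          have r234 : ¬ X.L {3, 2} = X.L {4, 2} := fun r234 => X.c12 r234 e34
                          have r316 : ¬ X.L {1, 3} = X.L {6, 3} := fun r316 => X.c51 r316 e16
                          have r312 : X.L {1, 3} = X.L {2, 3} := by_contra fun r312 => X.c52 r315 r312 r526 r536 r234 r245 r316
                          have r314 : ¬ X.L {1, 3} = X.L {4, 3} := fun r314 => X.c2 r314 e14
                          have e06 : ¬ X.L {0} = X.L {6} := fun e06 => X.c347 e12 e13 e06 e17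
                          have r306 : ¬ X.L {0, 3} = X.L {6, 3} := fun r306 => X.c27 r306 e06
                          have r301 : ¬ X.L {0, 3} = X.L {1, 3} := fun r301 => X.c348 r301 r305 r306
                          have r317 : ¬ X.L {1, 3} = X.L {7, 3} := fun _ => X.c90 r312 r301 r314 r315 r316
                          exact X.c5 r312 r314 r317
                        · by_cases r137 : X.L {3, 1} = X.L {7, 1}
                          · have e37 : X.L {3} = X.L {7} := by_contra fun e37 => X.c237 r137 e37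
                            have r136 : X.L {3, 1} = X.L {6, 1} := by_contra fun r136 => X.c311 r137 r135 r136
                            have r167 : X.L {6, 1} = X.L {7, 1} := by_contra fun r167 => X.c349 r136 r137 r167
                            have e67 : X.L {6} = X.L {7} := by_contra fun e67 => X.c350 r167 e67
                            by_cases e07 : X.L {0} = X.L {7}
                            · have e03 : X.L {0} = X.L {3} := by_contra fun e03 => X.c351 e07 e37 e03
                              have e06 : X.L {0} = X.L {6} := by_contra fun e06 => X.c352 e07 e67 e06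
                              have e02 : ¬ X.L {0} = X.L {2} := fun e02 => X.c332 e02 e03 e06 e07
                              have r102 : ¬ X.L {0, 1} = X.L {2, 1} := fun r102 => X.c56 r102 e02
                              have e04 : ¬ X.L {0} = X.L {4} := fun e04 => X.c353 e03 e04 e06 e07
                              have r104 : ¬ X.L {0, 1} = X.L {4, 1} := fun r104 => X.c98 r104 e04
                              have r103 : ¬ X.L {0, 1} = X.L {3, 1} := fun r103 => X.c99 r103 r102 r104
                              have e23 : ¬ X.L {2} = X.L {3} := fun e23 => X.c354 e03 e23 e02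
                              have r123 : ¬ X.L {2, 1} = X.L {3, 1} := fun r123 => X.c33 r123 e23
                              have e34 : ¬ X.L {3} = X.L {4} := fun e34 => X.c264 e03 e34 e04
                              have r134 : ¬ X.L {3, 1} = X.L {4, 1} := fun r134 => X.c64 r134 e34
                              exact X.c102 r136 r103 r123 r134 r135
                            · have e03 : ¬ X.L {0} = X.L {3} := fun e03 => X.c333 e03 e37 e07
                              have r103 : ¬ X.L {0, 1} = X.L {3, 1} := fun r103 => X.c96 r103 e03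
                              by_cases r147 : X.L {4, 1} = X.L {7, 1}
                              · have r134 : X.L {3, 1} = X.L {4, 1} := by_contra fun r134 => X.c355 r137 r147 r134
                                have r123 : X.L {2, 1} = X.L {3, 1} := by_contra fun r123 => X.c100 r134 r103 r123
                                have e23 : X.L {2} = X.L {3} := by_contra fun e23 => X.c33 r123 e23
                                have r124 : X.L {2, 1} = X.L {4, 1} := by_contra fun r124 => X.c356 r123 r134 r124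
                                have e24 : X.L {2} = X.L {4} := by_contra fun e24 => X.c245 r124 e24
                                have r126 : X.L {2, 1} = X.L {6, 1} := by_contra fun r126 => X.c247 r123 r136 r126
                                have e26 : X.L {2} = X.L {6} := by_contra fun e26 => X.c357 r126 e26
                                have r127 : X.L {2, 1} = X.L {7, 1} := by_contra fun r127 => X.c358 r123 r137 r127
                                have e27 : X.L {2} = X.L {7} := by_contra fun e27 => X.c359 r127 e27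
                                exact X.c360 e23 e24 e26 e27
                              · have r134 : ¬ X.L {3, 1} = X.L {4, 1} := fun r134 => X.c361 r134 r137 r147
                                have r123 : X.L {2, 1} = X.L {3, 1} := by_contra fun r123 => X.c102 r136 r103 r123 r134 r135
                                have r126 : X.L {2, 1} = X.L {6, 1} := by_contra fun r126 => X.c247 r123 r136 r126
                                have r102 : ¬ X.L {0, 1} = X.L {2, 1} := fun r102 => X.c362 r102 r123 r103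
                                have r124 : ¬ X.L {2, 1} = X.L {4, 1} := fun r124 => X.c363 r123 r124 r134
                                exact X.c246 r126 r102 r124
                          · have r136 : ¬ X.L {3, 1} = X.L {6, 1} := fun r136 => X.c249 r136 r135 r137
                            have r134 : X.L {3, 1} = X.L {4, 1} := by_contra fun r134 => X.c251 r134 r136 r426 r412 r615 r645 r425
                            have r103 : X.L {0, 1} = X.L {3, 1} := by_contra fun r103 => X.c97 r134 r103 r136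
                            have r104 : X.L {0, 1} = X.L {4, 1} := by_contra fun r104 => X.c149 r103 r134 r104
                            have r106 : ¬ X.L {0, 1} = X.L {6, 1} := fun r106 => X.c364 r103 r106 r136
                            have r107 : ¬ X.L {0, 1} = X.L {7, 1} := fun r107 => X.c312 r103 r107 r137
                            have r102 : X.L {0, 1} = X.L {2, 1} := by_contra fun r102 => X.c156 r103 r102 r105 r106 r107
                            have e02 : X.L {0} = X.L {2} := by_contra fun e02 => X.c56 r102 e02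
                            have e03 : X.L {0} = X.L {3} := by_contra fun e03 => X.c96 r103 e03
                            have e04 : X.L {0} = X.L {4} := by_contra fun e04 => X.c98 r104 e04
                            have e01 : ¬ X.L {0} = X.L {1} := fun e01 => X.c365 e01 e02 e03 e04
                            have e12 : ¬ X.L {1} = X.L {2} := fun e12 => X.c55 e02 e12 e01
                            have r312 : ¬ X.L {1, 3} = X.L {2, 3} := fun r312 => X.c107 r312 e12
                            have e06 : ¬ X.L {0} = X.L {6} := fun e06 => X.c366 e02 e03 e04 e06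
                            have e26 : ¬ X.L {2} = X.L {6} := fun e26 => X.c45 e02 e26 e06
                            have r526 : ¬ X.L {2, 5} = X.L {6, 5} := fun r526 => X.c8 r526 e26
                            have e36 : ¬ X.L {3} = X.L {6} := fun e36 => X.c262 e03 e36 e06
                            have r536 : ¬ X.L {3, 5} = X.L {6, 5} := fun r536 => X.c10 r536 e36
                            have e16 : ¬ X.L {1} = X.L {6} := fun e16 => X.c367 e02 e03 e04 e16
                            have r316 : ¬ X.L {1, 3} = X.L {6, 3} := fun r316 => X.c51 r316 e16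
                            have r234 : X.L {3, 2} = X.L {4, 2} := by_contra fun r234 => X.c52 r315 r312 r526 r536 r234 r245 r316
                            have r203 : X.L {0, 2} = X.L {3, 2} := by_contra fun r203 => X.c368 r234 r203 r235
                            have r204 : X.L {0, 2} = X.L {4, 2} := by_contra fun r204 => X.c317 r203 r234 r204
                            have r201 : ¬ X.L {0, 2} = X.L {1, 2} := fun r201 => X.c123 r201 e01
                            have r206 : ¬ X.L {0, 2} = X.L {6, 2} := fun r206 => X.c163 r206 e06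
                            have e07 : ¬ X.L {0} = X.L {7} := fun e07 => X.c369 e02 e03 e04 e07
                            have r207 : ¬ X.L {0, 2} = X.L {7, 2} := fun r207 => X.c165 r207 e07
                            exact X.c166 r203 r201 r205 r206 r207

end WR

end Pool.Agent.MP_d6d24d_co.H35
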