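import Pool.Agent.MP_d6d24d_co.H35.Tile
import Pool.Agent.MP_d6d24d_co.H35.Cases

/-! A dual tiling gives a weakly convex realization of the dual of the link of a vertex. -/

namespace Pool.Agent.MP_d6d24d_co.H35

open Set Module Pool.Agent.MP_d6d24d_co.H30

theorem SB_down (σ τ : Finset (Fin 8)) (h : σ ⊆ τ) (hτ : SB τ) : SB σ := by
  obtain ⟨t, ht⟩ := hτ
  exact ⟨t, h.trans ht⟩

theorem fac_card : ∀ t, (fac t).card = 4 := by decide

theorem SB_pure (σ : Finset (Fin 8)) (hσ : SB σ) (hc : σ.card < 4) :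
    ∃ i, i ∉ σ ∧ SB (insert i σ) := by
  obtain ⟨t, ht⟩ := hσ
  obtain ⟨i, hi, hi'⟩ := Finset.exists_mem_notMem_of_card_lt_card (s := σ) (t := fac t)
    (by rw [fac_card]; exact hc)
  exact ⟨i, hi', t, Finset.insert_subset hi ht⟩

/-- The embedding `x ↦ (1, x)`. -/
def up (x : EuclideanSpace ℝ (Fin 4)) : ℝ × EuclideanSpace ℝ (Fin 4) := (1, x)

theorem up_convex {A : Set (EuclideanSpace ℝ (Fin 4))} (hA : Convex ℝ A) : Convex ℝ (up '' A) := by
  rintro _ ⟨x, hx, rfl⟩ _ ⟨y, hy, rfl⟩ a b ha hb hab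
  exact ⟨a • x + b • y, hA hx hy ha hb hab, by simp [up, hab]⟩

theorem up_cont : Continuous up := by unfold up; fun_prop

theorem up_span {A : Set (EuclideanSpace ℝ (Fin 4))} (hA : (interior A).Nonempty) :
    Submodule.span ℝ (up '' A) = ⊤ := by
  obtain ⟨x, hx⟩ := hA
  have hx1 : up x ∈ Submodule.span ℝ (up '' A) :=
    Submodule.subset_span ⟨x, interior_subset hx, rfl⟩
  rw [eq_top_iff]
  rintro ⟨a, v⟩ -
  have hc : Continuous (fun t : ℝ => x + t • (v - a • x)) := by fun_prop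
  have h1 : ∀ᶠ t in nhds (0 : ℝ), x + t • (v - a • x) ∈ interior A :=
    hc.continuousAt.eventually_mem (isOpen_interior.mem_nhds (by simpa using hx))
  obtain ⟨t, ht, ht'⟩ := ((h1.filter_mono (nhdsWithin_le_nhds (s := Ioi 0))).and
    self_mem_nhdsWithin).exists
  have ht0 : t ≠ 0 := ne_of_gt ht'
  have h2 : up (x + t • (v - a • x)) ∈ Submodule.span ℝ (up '' A) :=
    Submodule.subset_span ⟨_, interior_subset ht, rfl⟩
  have h3 := Submodule.add_mem _ (Submodule.smul_mem _ t⁻¹ (Submodule.sub_mem _ h2 hx1))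
    (Submodule.smul_mem _ a hx1)
  convert h3 using 1
  ext1
  · simp [up]
  · simp only [up, Prod.smul_mk, Prod.mk_sub_mk, Prod.mk_add_mk]
    match_scalars <;> (field_simp; try ring)

theorem up_dir {A : Set (EuclideanSpace ℝ (Fin 4))} {x : EuclideanSpace ℝ (Fin 4)} (hx : x ∈ A)
    {w : ℝ × EuclideanSpace ℝ (Fin 4)} (hw : w ∈ Submodule.span ℝ (up '' A)) (h0 : w.1 = 0) :
    x - w.2 ∈ affineSpan ℝ A := by
  have h1 : w.2 - w.1 • x ∈ (affineSpan ℝ A).direction := by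
    clear h0
    induction hw using Submodule.span_induction with
    | mem y hy =>
      obtain ⟨y, hy, rfl⟩ := hy
      simpa [up] using AffineSubspace.vsub_mem_direction (subset_affineSpan ℝ A hy)
        (subset_affineSpan ℝ A hx)
    | zero => simp
    | add u v _ _ hu hv =>
      convert Submodule.add_mem _ hu hv using 1
      simp only [Prod.snd_add, Prod.fst_add]; module
    | smul c u _ hu =>
      convert Submodule.smul_mem _ c hu using 1
      simp only [Prod.smul_snd, Prod.smul_fst, smul_eq_mul]; module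
  rw [h0, zero_smul, sub_zero] at h1
  have := AffineSubspace.vadd_mem_of_mem_direction (Submodule.neg_mem _ h1)
    (subset_affineSpan ℝ A hx)
  convert this using 1
  simp [sub_eq_neg_add]

theorem no_dual {T T' : Set (Set (EuclideanSpace ℝ (Fin 4)))} (hT' : IsTiling T')
    (hL' : IsLocFinite T') {v : EuclideanSpace ℝ (Fin 4)}
    (F : Finset (Fin 8) → Set (EuclideanSpace ℝ (Fin 4)))
    (hF : ∀ σ, SB σ → F σ ∈ facePoset T) (hFu : ∀ σ, SB σ → F σ ≠ univ) (h0 : F ∅ = {v})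
    (hle : ∀ σ τ, SB σ → SB τ → (F σ ⊆ F τ ↔ σ ⊆ τ))
    (hall : ∀ G ∈ facePoset T, v ∈ G → G = univ ∨ ∃ σ, SB σ ∧ G = F σ) : ¬ IsDual T T' := by
  classical
  rintro ⟨φ, hφ⟩
  have S0 : SB ∅ := by decide
  let D : Finset (Fin 8) → Set (EuclideanSpace ℝ (Fin 4)) := fun σ =>
    if h : SB σ then (φ ⟨F σ, hF σ h⟩).1 else ∅
  have hD : ∀ σ (h : SB σ), D σ = (φ ⟨F σ, hF σ h⟩).1 := fun σ h => dif_pos h
  have hDle : ∀ σ τ, SB σ → SB τ → (D τ ⊆ D σ ↔ σ ⊆ τ) := by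
    intro σ τ hσ hτ
    rw [hD σ hσ, hD τ hτ, ← hφ, ← hle σ τ hσ hτ]
  have hP : D ∅ ∈ T' := by
    have hv : ({v} : Set (EuclideanSpace ℝ (Fin 4))) ∈ facePoset T := h0 ▸ hF ∅ S0
    have : (⟨F ∅, hF ∅ S0⟩ : facePoset T) = ⟨{v}, hv⟩ := Subtype.ext h0
    rw [hD ∅ S0, this]
    exact dual_vertex (by norm_num) hT' φ hφ hv
  have hPc := (hT'.1 _ hP).isCompact
  have hlab : ∀ x, ∃ σ, x ∈ D ∅ → SB σ ∧ D σ = cell T' x := by
    intro x
    by_cases hx : x ∈ D ∅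
    · have h1 := (hφ ⟨F ∅, hF ∅ S0⟩ (φ.symm ⟨cell T' x, cell_mem T' x⟩)).2 (by
        rw [← hD ∅ S0]; simpa using cell_subset hT' hP hx)
      rcases hall _ (φ.symm ⟨cell T' x, cell_mem T' x⟩).2 (h1 (by simp [h0])) with h | ⟨σ, hσ, h⟩
      · exfalso
        have h2 : φ.symm ⟨cell T' x, cell_mem T' x⟩ = ⟨univ, univ_mem T⟩ := Subtype.ext h
        have h3 := dual_univ φ hφ
        rw [← h2] at h3
        simp only [Equiv.apply_symm_apply] at h3
        exact (h3 ▸ self_mem_cell T' x : x ∈ (∅ : Set _))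
      · refine ⟨σ, fun _ => ⟨hσ, ?_⟩⟩
        have h2 : φ.symm ⟨cell T' x, cell_mem T' x⟩ = ⟨F σ, hF σ hσ⟩ := Subtype.ext h
        rw [hD σ hσ, ← h2]
        simp
    · exact ⟨∅, fun h => absurd h hx⟩
  choose s hs using hlab
  have hsub : ∀ σ, D σ ⊆ D ∅ := by
    intro σ
    by_cases h : SB σ
    · exact (hDle ∅ σ S0 h).2 (by simp)
    · simp [D, h]
  have hcell : ∀ σ, SB σ → ∃ x, D σ = cell T' x := by
    intro σ hσ
    rcases (φ ⟨F σ, hF σ hσ⟩).2 with ⟨x, hx⟩ | h | h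
    · exact ⟨x, by rw [hD σ hσ]; exact hx⟩
    · exact absurd h (dual_nonempty φ hφ _ (hFu σ hσ)).ne_empty
    · exfalso
      have h1 := hsub σ
      rw [hD σ hσ, h] at h1
      exact noncompact_univ (EuclideanSpace ℝ (Fin 4)) (univ_subset_iff.1 h1 ▸ hPc)
  have hmem : ∀ σ x, x ∈ D σ ↔ x ∈ D ∅ ∧ σ ⊆ s x := by
    intro σ x
    constructor
    · intro hx
      have hx0 := hsub σ hx
      have hσ : SB σ := by by_contra h; simp [D, h] at hx
      obtain ⟨y, hy⟩ := hcell σ hσ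
      refine ⟨hx0, (hDle _ _ hσ (hs x hx0).1).1 ?_⟩
      rw [(hs x hx0).2, hy]
      exact cell_mono hT' hL' (hy ▸ hx)
    · rintro ⟨hx0, h⟩
      refine (hDle _ _ (SB_down _ _ h (hs x hx0).1) (hs x hx0).1).2 h ?_
      rw [(hs x hx0).2]
      exact self_mem_cell T' x
  have hset : ∀ σ, {w | w ∈ up '' D ∅ ∧ σ ⊆ s w.2} = up '' D σ := by
    intro σ
    ext w
    constructor
    · rintro ⟨⟨x, hx, rfl⟩, h⟩
      exact ⟨x, (hmem σ x).2 ⟨hx, h⟩, rfl⟩
    · rintro ⟨x, hx, rfl⟩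
      exact ⟨⟨x, hsub σ hx, rfl⟩, ((hmem σ x).1 hx).2⟩
  have hDc : ∀ σ, Convex ℝ (D σ) ∧ IsClosed (D σ) := by
    intro σ
    by_cases h : SB σ
    · obtain ⟨x, hx⟩ := hcell σ h
      rw [hx]
      exact ⟨cell_convex hT' hL' x, isClosed_closure⟩
    · simp [D, h, convex_empty]
  refine WR.false (W := ℝ × EuclideanSpace ℝ (Fin 4))
    { P := up '' D ∅
      s := fun w => s w.2
      e := LinearMap.fst ℝ ℝ _
      down := SB_down
      pure := SB_pure
      rank := by rw [up_span (hT'.1 _ hP).2]; simp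
      e_one := by rintro _ ⟨x, -, rfl⟩; rfl
      cpt := hPc.image up_cont
      mem := by rintro _ ⟨x, hx, rfl⟩; exact (hs x hx).1
      ex := ?_
      conv := fun σ => by rw [hset]; exact up_convex (hDc σ).1
      closed := fun σ => by
        rw [hset]
        exact ((hPc.of_isClosed_subset (hDc σ).2 (hsub σ)).image up_cont).isClosed
      opn := ?_
      sep := ?_ }
  · intro σ hσ
    obtain ⟨x, hx⟩ := hcell σ hσ
    have hx0 : x ∈ D ∅ := hsub σ (hx ▸ self_mem_cell T' x)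
    refine ⟨up x, ⟨x, hx0, rfl⟩, Finset.Subset.antisymm ?_ ?_⟩
    · exact (hDle _ _ (hs x hx0).1 hσ).1 (by rw [hx]; exact (hs x hx0).2.ge)
    · exact (hDle _ _ hσ (hs x hx0).1).1 (by rw [hx]; exact (hs x hx0).2.le)
  · rintro _ ⟨x, hx, rfl⟩ w hw h0
    rw [hset] at hw
    have hx' : D (s (up x).2) = cell T' x := (hs x hx).2
    rw [hx'] at hw
    obtain ⟨ε, hε, h⟩ := cell_open hT' hL' (up_dir (self_mem_cell T' x) hw h0)
    have h1 : up x + ε • w ∈ up '' D (s (up x).2) := by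
      refine ⟨_, hx' ▸ h, ?_⟩
      have h0' : w.1 = 0 := h0
      ext1 <;> simp [up, h0']
    rw [← hset] at h1
    exact ⟨ε, hε, h1⟩
  · rintro _ ⟨x, hx, rfl⟩ _ ⟨y, hy, rfl⟩ h1 h2
    have h3 : y ∈ cell T' x := (hs x hx).2 ▸ (hmem _ y).2 ⟨hy, h1⟩
    have h4 : x ∉ cell T' y := fun h =>
      h2 (Finset.Subset.antisymm h1 ((hmem _ x).1 ((hs y hy).2 ▸ h)).2)
    obtain ⟨l, hl1, hl2⟩ := cell_sep hT' hL' h3 h4
    refine ⟨l y • LinearMap.fst ℝ ℝ _ - l.toLinearMap.comp (LinearMap.snd ℝ ℝ _), ?_, ?_, ?_⟩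
    · rintro _ ⟨z, hz, rfl⟩ h5
      have := hl1 z ((hs x hx).2 ▸ (hmem _ z).2 ⟨hz, h5⟩)
      simpa [up] using this
    · simp [up]
    · simpa [up] using hl2

end Pool.Agent.MP_d6d24d_co.H35
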