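import Pool.Agent.MP_d6d24d_co.H30.Defs

/-! Face-to-face tilings. -/

namespace Pool.Agent.MP_d6d24d_co.H35

/-- Any two tiles meet in a set that is a face (possibly empty) of each. -/
def IsFaceToFace {d : ℕ} (T : Set (Set (EuclideanSpace ℝ (Fin d)))) : Prop :=
  ∀ P ∈ T, ∀ Q ∈ T, IsExposed ℝ P (P ∩ Q) ∧ IsExposed ℝ Q (P ∩ Q)

end Pool.Agent.MP_d6d24d_co.H35
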