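import Pool.Agent.MP_d6d24d_co.H35.Cases

/-! A complete simplicial fan in `ℝ^4` with the combinatorics of Barnette's sphere: the data. -/

namespace Pool.Agent.MP_d6d24d_co.H35

/-- The eight rays. -/
def ray : Fin 8 → Fin 4 → ℤ :=
  ![![1, 0, 0, 0],
    ![0, -1, -1, 0],
    ![1, 2, 0, -1],
    ![1, 0, -1, 2],
    ![0, 0, -1, -1],
    ![1, -1, 2, 0],
    ![0, -1, 0, -1],
    ![-1, 0, 0, 0]]

/-- Absolute values of the determinants of the nineteen cones. -/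
def dd : Fin 19 → ℤ := ![5, 1, 2, 7, 5, 1, 2, 5, 2, 1, 2, 3, 6, 6, 7, 2, 3, 3, 6]

/-- Rows of the adjugate matrices of the nineteen cones. -/
def nn : Fin 19 → Fin 8 → Fin 4 → ℤ :=
  ![![![5, -3, 3, -1], ![0, -1, -4, -2], ![0, 2, -2, -1], ![0, 1, -1, 2],
      ![0, 0, 0, 0], ![0, 0, 0, 0], ![0, 0, 0, 0], ![0, 0, 0, 0]],
    ![![1, -1, 1, -1], ![0, 1, -2, 2], ![0, 1, -1, 1], ![0, 0, 0, 0],
      ![0, -1, 1, -2], ![0, 0, 0, 0], ![0, 0, 0, 0], ![0, 0, 0, 0]],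
    ![![0, 0, 0, 0], ![6, -4, 2, -2], ![3, -1, 1, -1], ![-1, 1, -1, 1],
      ![-5, 3, -3, 1], ![0, 0, 0, 0], ![0, 0, 0, 0], ![0, 0, 0, 0]],
    ![![7, -7, -7, -7], ![0, 0, 0, 0], ![0, 4, 2, 1], ![0, 2, 1, 4],
      ![0, 0, 0, 0], ![0, 1, 4, 2], ![0, 0, 0, 0], ![0, 0, 0, 0]],
    ![![5, -1, -3, 3], ![0, 0, 0, 0], ![0, 2, 1, -1], ![0, 0, 0, 0],
      ![0, -2, -1, -4], ![0, -1, 2, -2], ![0, 0, 0, 0], ![0, 0, 0, 0]],
    ![![1, 1, -1, -1], ![0, 1, -2, -1], ![0, 0, 0, 0], ![0, -1, 1, 1],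
      ![0, 0, 0, 0], ![0, 0, 0, 0], ![0, -2, 2, 1], ![0, 0, 0, 0]],
    ![![2, 0, 0, 0], ![0, -1, -1, 1], ![0, 0, 0, 0], ![0, 0, 0, 0],
      ![0, 1, -1, -1], ![0, 0, 0, 0], ![0, -1, 1, -1], ![0, 0, 0, 0]],
    ![![5, 3, -1, -3], ![0, 0, 0, 0], ![0, 0, 0, 0], ![0, -2, -1, 2],
      ![0, 0, 0, 0], ![0, -1, 2, 1], ![0, -4, -2, -1], ![0, 0, 0, 0]],
    ![![0, 0, 0, 0], ![-5, -3, 1, 3], ![0, 0, 0, 0], ![3, 1, -1, -1],
      ![0, 0, 0, 0], ![-1, -1, 1, 1], ![6, 2, -2, -4], ![0, 0, 0, 0]],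
    ![![1, -1, -1, 1], ![0, 0, 0, 0], ![0, 0, 0, 0], ![0, 0, 0, 0],
      ![0, 2, 1, -2], ![0, 1, 1, -1], ![0, -2, -1, 1], ![0, 0, 0, 0]],
    ![![0, 0, 0, 0], ![0, 0, 0, 0], ![-1, 1, 1, -1], ![0, 0, 0, 0],
      ![6, -2, -4, 2], ![3, -1, -1, 1], ![-5, 1, 3, -3], ![0, 0, 0, 0]],
    ![![0, 0, 0, 0], ![0, -3, 0, 0], ![0, 0, 0, 0], ![0, 1, -1, 1],
      ![0, 2, -2, -1], ![0, 0, 0, 0], ![0, 0, 0, 0], ![-3, 1, -1, 1]],
    ![![0, 0, 0, 0], ![0, 0, 0, 0], ![0, 3, 0, 0], ![0, 1, -2, 2],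
      ![0, -1, -4, -2], ![0, 0, 0, 0], ![0, 0, 0, 0], ![-6, 4, -2, 2]],
    ![![0, 0, 0, 0], ![0, -4, -2, -1], ![0, 0, 0, 0], ![0, 0, 0, 3],
      ![0, 0, 0, 0], ![0, -2, 2, 1], ![0, 0, 0, 0], ![-6, -2, 2, 4]],
    ![![0, 0, 0, 0], ![0, 0, 0, 0], ![0, 4, 2, 1], ![0, 2, 1, 4],
      ![0, 0, 0, 0], ![0, 1, 4, 2], ![0, 0, 0, 0], ![-7, 7, 7, 7]],
    ![![0, 0, 0, 0], ![0, -1, -1, 1], ![0, 0, 0, 0], ![0, 0, 0, 0],
      ![0, 1, -1, -1], ![0, 0, 0, 0], ![0, -1, 1, -1], ![-2, 0, 0, 0]],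
    ![![0, 0, 0, 0], ![0, 0, 0, 0], ![0, 1, 1, -1], ![0, 0, 0, 0],
      ![0, 0, -3, 0], ![0, 0, 0, 0], ![0, -1, 2, -2], ![-3, 1, 1, -1]],
    ![![0, 0, 0, 0], ![0, -2, -1, 2], ![0, 0, 0, 0], ![0, 0, 0, 0],
      ![0, 0, 0, 0], ![0, -1, 1, 1], ![0, 0, 0, -3], ![-3, -1, 1, 1]],
    ![![0, 0, 0, 0], ![0, 0, 0, 0], ![0, 2, 1, -2], ![0, 0, 0, 0],
      ![0, 0, 0, 0], ![0, 0, 3, 0], ![0, -2, -1, -4], ![-6, 2, 4, -2]]]

/-- Separating functionals for pairs of cones. -/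
def sepv : Fin 19 → Fin 19 → Fin 4 → ℤ :=
  ![![![0, 0, 0, 0], ![0, 1, -1, 2], ![5, -3, 3, -1], ![0, -1, -4, -2], ![0, 2, -3, 4],
      ![0, 2, -2, -1], ![0, 2, -2, 3], ![0, 3, -4, -2], ![1, 3, -3, -2], ![0, 3, -4, 5],
      ![1, 1, -2, 3], ![4, -2, 2, -1], ![8, -5, 4, -2], ![1, 1, -1, -1], ![1, -2, -5, -3],
      ![2, 0, 0, 1], ![2, 0, -1, 2], ![1, 1, -1, 0], ![1, 0, -1, 1]],
    ![![0, -1, 1, -2], ![0, 0, 0, 0], ![1, -1, 1, -1], ![0, -1, -1, -2], ![0, 1, -2, 2],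
      ![0, 3, -3, -2], ![0, 1, -1, 1], ![0, 4, -5, -3], ![1, 4, -4, -3], ![0, 2, -3, 3],
      ![1, 0, -1, 1], ![2, -1, 1, -1], ![4, -3, 2, -2], ![1, 1, -1, -2], ![1, -2, -2, -3],
      ![1, 1, -1, 1], ![1, 0, -1, 1], ![1, 1, -1, 0], ![1, 0, -2, 1]],
    ![![-5, 3, -3, 1], ![-1, 1, -1, 1], ![0, 0, 0, 0], ![-2, 1, -2, 0], ![-1, 2, -3, 3],
      ![-1, 1, -1, 0], ![-1, 2, -2, 2], ![-1, 2, -3, -1], ![-1, 1, -1, 0], ![-1, 3, -4, 4],
      ![1, 0, -1, 1], ![3, -1, 1, -1], ![3, -2, 1, -1], ![1, 1, -1, -1], ![1, -2, -5, -3],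
      ![1, 1, -1, 1], ![1, 0, -1, 1], ![1, 1, -1, 0], ![1, 0, -2, 1]],
    ![![0, 1, 4, 2], ![0, 1, 1, 2], ![2, -1, 2, 0], ![0, 0, 0, 0], ![0, 2, 1, 4],
      ![0, 1, 2, 1], ![0, 1, 1, 1], ![0, 4, 2, 1], ![1, 3, 1, 0], ![0, 2, 1, 1],
      ![1, 1, 0, 3], ![1, 0, 1, 0], ![1, 0, 3, 1], ![1, 3, 1, 0], ![1, -1, -1, -1],
      ![1, 1, 1, 1], ![1, 0, 0, 1], ![1, 1, 0, 0], ![1, 1, 0, 3]],
    ![![0, -2, 3, -4], ![0, -1, 2, -2], ![1, -2, 3, -3], ![0, -2, -1, -4], ![0, 0, 0, 0],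
      ![0, 5, 3, -4], ![0, 3, 2, -2], ![0, 4, 2, -3], ![1, 3, 1, -2], ![0, 2, 1, -1],
      ![5, -1, -3, 3], ![1, 0, 1, -1], ![1, -1, 1, -1], ![1, 1, 0, -1], ![1, -3, -2, -5],
      ![2, 1, 0, 0], ![4, -1, -2, 2], ![2, 2, 0, -1], ![8, -2, -5, 4]],
    ![![0, -2, 2, 1], ![0, -3, 3, 2], ![1, -1, 1, 0], ![0, -1, -2, -1], ![0, -5, -3, 4],
      ![0, 0, 0, 0], ![0, -1, 1, 1], ![0, 1, -2, -1], ![1, 1, -1, -1], ![0, -3, -2, 3],
      ![1, -4, -3, 4], ![1, -1, 1, 0], ![1, -2, 1, 0], ![4, 2, -2, -3], ![1, -2, -3, -2],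
      ![1, -1, 1, 1], ![1, -1, 0, 1], ![2, 1, -1, -1], ![1, -1, -2, 1]],
    ![![0, -2, 2, -3], ![0, -1, 1, -1], ![1, -2, 2, -2], ![0, -1, -1, -1], ![0, -3, -2, 2],
      ![0, 1, -1, -1], ![0, 0, 0, 0], ![0, 2, -3, -2], ![1, 2, -2, -2], ![0, -1, -1, 1],
      ![1, -2, -2, 2], ![1, -1, 1, -1], ![1, -2, 1, -1], ![1, 1, -1, -2], ![1, -2, -2, -2],
      ![1, 0, 0, 0], ![1, -1, -1, 1], ![1, 1, -1, -1], ![1, -1, -2, 1]],
    ![![0, -3, 4, 2], ![0, -4, 5, 3], ![1, -2, 3, 1], ![0, -4, -2, -1], ![0, -4, -2, 3],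
      ![0, -1, 2, 1], ![0, -2, 3, 2], ![0, 0, 0, 0], ![5, 3, -1, -3], ![0, -2, -1, 2],
      ![1, -3, -2, 3], ![2, -1, 2, 0], ![1, -1, 1, 0], ![8, 4, -2, -5], ![1, -5, -3, -2],
      ![2, 0, 1, 0], ![1, -1, 0, 1], ![4, 2, -1, -2], ![1, -1, -1, 1]],
    ![![-1, -3, 3, 2], ![-1, -4, 4, 3], ![1, -1, 1, 0], ![-1, -3, -1, 0], ![-1, -3, -1, 2],
      ![-1, -1, 1, 1], ![-1, -2, 2, 2], ![-5, -3, 1, 3], ![0, 0, 0, 0], ![-1, -1, 0, 1],
      ![-1, -1, 0, 1], ![1, -1, 1, 0], ![1, -2, 1, 0], ![3, 1, -1, -2], ![1, -5, -3, -2],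
      ![1, -1, 1, 1], ![1, -1, 0, 1], ![3, 1, -1, -1], ![1, -1, -1, 1]],
    ![![0, -3, 4, -5], ![0, -2, 3, -3], ![1, -3, 4, -4], ![0, -2, -1, -1], ![0, -2, -1, 1],
      ![0, 3, 2, -3], ![0, 1, 1, -1], ![0, 2, 1, -2], ![1, 1, 0, -1], ![0, 0, 0, 0],
      ![1, -1, -1, 1], ![1, 0, 1, -1], ![1, -2, 1, -1], ![1, 1, 0, -2], ![1, -3, -2, -2],
      ![1, 1, 1, -1], ![2, -1, -1, 1], ![1, 1, 0, -1], ![4, -2, -3, 2]],
    ![![-1, -1, 2, -3], ![-1, 0, 1, -1], ![-1, 0, 1, -1], ![-1, -1, 0, -3], ![-5, 1, 3, -3],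
      ![-1, 4, 3, -4], ![-1, 2, 2, -2], ![-1, 3, 2, -3], ![1, 1, 0, -1], ![-1, 1, 1, -1],
      ![0, 0, 0, 0], ![1, 0, 1, -1], ![1, -1, 1, -1], ![1, 1, 0, -2], ![1, -3, -2, -5],
      ![1, 1, 1, -1], ![3, -1, -1, 1], ![1, 1, 0, -1], ![3, -1, -2, 1]],
    ![![-4, 2, -2, 1], ![-2, 1, -1, 1], ![-3, 1, -1, 1], ![-1, 0, -1, 0], ![-1, 0, -1, 1],
      ![-1, 1, -1, 0], ![-1, 1, -1, 1], ![-2, 1, -2, 0], ![-1, 1, -1, 0], ![-1, 0, -1, 1],
      ![-1, 0, -1, 1], ![0, 0, 0, 0], ![0, -1, 0, 0], ![0, 2, -2, -1], ![0, -1, -2, -1],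
      ![0, 1, -1, 1], ![0, 0, -1, 1], ![0, 1, -1, 0], ![0, 0, -2, 1]],
    ![![-8, 5, -4, 2], ![-4, 3, -2, 2], ![-3, 2, -1, 1], ![-1, 0, -3, -1], ![-1, 1, -1, 1],
      ![-1, 2, -1, 0], ![-1, 2, -1, 1], ![-1, 1, -1, 0], ![-1, 2, -1, 0], ![-1, 2, -1, 1],
      ![-1, 1, -1, 1], ![0, 1, 0, 0], ![0, 0, 0, 0], ![0, 3, -2, -1], ![0, -1, -4, -2],
      ![0, 2, -1, 1], ![0, 1, -2, 2], ![0, 2, -1, 0], ![0, 1, -3, 2]],
    ![![-1, -1, 1, 1], ![-1, -1, 1, 2], ![-1, -1, 1, 1], ![-1, -3, -1, 0], ![-1, -1, 0, 1],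
      ![-4, -2, 2, 3], ![-1, -1, 1, 2], ![-8, -4, 2, 5], ![-3, -1, 1, 2], ![-1, -1, 0, 2],
      ![-1, -1, 0, 2], ![0, -2, 2, 1], ![0, -3, 2, 1], ![0, 0, 0, 0], ![0, -4, -2, -1],
      ![0, -1, 1, 2], ![0, -1, 0, 2], ![0, 0, 0, 1], ![0, -2, -1, 3]],
    ![![-1, 2, 5, 3], ![-1, 2, 2, 3], ![-1, 2, 5, 3], ![-1, 1, 1, 1], ![-1, 3, 2, 5],
      ![-1, 2, 3, 2], ![-1, 2, 2, 2], ![-1, 5, 3, 2], ![-1, 5, 3, 2], ![-1, 3, 2, 2],
      ![-1, 3, 2, 5], ![0, 1, 2, 1], ![0, 1, 4, 2], ![0, 4, 2, 1], ![0, 0, 0, 0],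
      ![0, 1, 1, 1], ![0, 1, 1, 2], ![0, 2, 1, 1], ![0, 2, 1, 4]],
    ![![-2, 0, 0, -1], ![-1, -1, 1, -1], ![-1, -1, 1, -1], ![-1, -1, -1, -1], ![-2, -1, 0, 0],
      ![-1, 1, -1, -1], ![-1, 0, 0, 0], ![-2, 0, -1, 0], ![-1, 1, -1, -1], ![-1, -1, -1, 1],
      ![-1, -1, -1, 1], ![0, -1, 1, -1], ![0, -2, 1, -1], ![0, 1, -1, -2], ![0, -1, -1, -1],
      ![0, 0, 0, 0], ![0, -1, -1, 1], ![0, 1, -1, -1], ![0, -1, -2, 1]],
    ![![-2, 0, 1, -2], ![-1, 0, 1, -1], ![-1, 0, 1, -1], ![-1, 0, 0, -1], ![-4, 1, 2, -2],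
      ![-1, 1, 0, -1], ![-1, 1, 1, -1], ![-1, 1, 0, -1], ![-1, 1, 0, -1], ![-2, 1, 1, -1],
      ![-3, 1, 1, -1], ![0, 0, 1, -1], ![0, -1, 2, -2], ![0, 1, 0, -2], ![0, -1, -1, -2],
      ![0, 1, 1, -1], ![0, 0, 0, 0], ![0, 1, 0, -1], ![0, 0, -1, 0]],
    ![![-1, -1, 1, 0], ![-1, -1, 1, 0], ![-1, -1, 1, 0], ![-1, -1, 0, 0], ![-2, -2, 0, 1],
      ![-2, -1, 1, 1], ![-1, -1, 1, 1], ![-4, -2, 1, 2], ![-3, -1, 1, 1], ![-1, -1, 0, 1],
      ![-1, -1, 0, 1], ![0, -1, 1, 0], ![0, -2, 1, 0], ![0, 0, 0, -1], ![0, -2, -1, -1],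
      ![0, -1, 1, 1], ![0, -1, 0, 1], ![0, 0, 0, 0], ![0, -2, -1, 2]],
    ![![-1, 0, 1, -1], ![-1, 0, 2, -1], ![-1, 0, 2, -1], ![-1, -1, 0, -3], ![-8, 2, 5, -4],
      ![-1, 1, 2, -1], ![-1, 1, 2, -1], ![-1, 1, 1, -1], ![-1, 1, 1, -1], ![-4, 2, 3, -2],
      ![-3, 1, 2, -1], ![0, 0, 2, -1], ![0, -1, 3, -2], ![0, 2, 1, -3], ![0, -2, -1, -4],
      ![0, 1, 2, -1], ![0, 0, 1, 0], ![0, 2, 1, -2], ![0, 0, 0, 0]]]

/-- The integer dot product. -/
def dot (u v : Fin 4 → ℤ) : ℤ := u 0 * v 0 + u 1 * v 1 + u 2 * v 2 + u 3 * v 3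

theorem dd_pos : ∀ t, 0 < dd t := by decide +kernel

theorem nn_zero : ∀ t i, i ∉ fac t → ∀ k, nn t i k = 0 := by decide +kernel

theorem nn_ray : ∀ t i, ∀ j ∈ fac t, dot (nn t i) (ray j) = if i = j then dd t else 0 := by
  decide +kernel

theorem ray_nn : ∀ t k m, ∑ i, ray i k * nn t i m = if k = m then dd t else 0 := by
  decide +kernel

theorem sepv_pos : ∀ t u i, i ∈ fac t → 0 ≤ dot (sepv t u) (ray i) := by decide +kernel

theorem sepv_neg : ∀ t u i, i ∈ fac u → dot (sepv t u) (ray i) ≤ 0 := by decide +kernel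

theorem sepv_ne : ∀ t u i, i ∈ fac t → i ∉ fac u → dot (sepv t u) (ray i) ≠ 0 := by
  decide +kernel

theorem fac_inj : ∀ t u, fac t ⊆ fac u → t = u := by decide +kernel

/-- The point `(a, b, c, d)` lies in some cone. -/
def Cov (a b c d : ℝ) : Prop :=
  ∃ t, ∀ i, 0 ≤ (nn t i 0 : ℝ) * a + nn t i 1 * b + nn t i 2 * c + nn t i 3 * d

theorem leaf0 {a b c d : ℝ} (h0 : 0 ≤ 5 * a - 3 * b + 3 * c - d) (h1 : 0 ≤ -b - 4 * c - 2 * d)
    (h2 : 0 ≤ 2 * b - 2 * c - d) (h3 : 0 ≤ b - c + 2 * d) : Cov a b c d := by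
  refine ⟨0, forall8 ?_ ?_ ?_ ?_ ?_ ?_ ?_ ?_⟩ <;> simp [nn] <;> linarith

theorem leaf1 {a b c d : ℝ} (h0 : 0 ≤ a - b + c - d) (h1 : 0 ≤ b - 2 * c + 2 * d)
    (h2 : 0 ≤ b - c + d) (h4 : 0 ≤ -b + c - 2 * d) : Cov a b c d := by
  refine ⟨1, forall8 ?_ ?_ ?_ ?_ ?_ ?_ ?_ ?_⟩ <;> simp [nn] <;> linarith

theorem leaf2 {a b c d : ℝ} (h1 : 0 ≤ 6 * a - 4 * b + 2 * c - 2 * d) (h2 : 0 ≤ 3 * a - b + c - d)
    (h3 : 0 ≤ -a + b - c + d) (h4 : 0 ≤ -5 * a + 3 * b - 3 * c + d) : Cov a b c d := by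
  refine ⟨2, forall8 ?_ ?_ ?_ ?_ ?_ ?_ ?_ ?_⟩ <;> simp [nn] <;> linarith

theorem leaf3 {a b c d : ℝ} (h0 : 0 ≤ 7 * a - 7 * b - 7 * c - 7 * d) (h2 : 0 ≤ 4 * b + 2 * c + d)
    (h3 : 0 ≤ 2 * b + c + 4 * d) (h5 : 0 ≤ b + 4 * c + 2 * d) : Cov a b c d := by
  refine ⟨3, forall8 ?_ ?_ ?_ ?_ ?_ ?_ ?_ ?_⟩ <;> simp [nn] <;> linarith

theorem leaf4 {a b c d : ℝ} (h0 : 0 ≤ 5 * a - b - 3 * c + 3 * d) (h2 : 0 ≤ 2 * b + c - d)
    (h4 : 0 ≤ -2 * b - c - 4 * d) (h5 : 0 ≤ -b + 2 * c - 2 * d) : Cov a b c d := by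
  refine ⟨4, forall8 ?_ ?_ ?_ ?_ ?_ ?_ ?_ ?_⟩ <;> simp [nn] <;> linarith

theorem leaf5 {a b c d : ℝ} (h0 : 0 ≤ a + b - c - d) (h1 : 0 ≤ b - 2 * c - d)
    (h3 : 0 ≤ -b + c + d) (h6 : 0 ≤ -2 * b + 2 * c + d) : Cov a b c d := by
  refine ⟨5, forall8 ?_ ?_ ?_ ?_ ?_ ?_ ?_ ?_⟩ <;> simp [nn] <;> linarith

theorem leaf6 {a b c d : ℝ} (h0 : 0 ≤ 2 * a) (h1 : 0 ≤ -b - c + d)
    (h4 : 0 ≤ b - c - d) (h6 : 0 ≤ -b + c - d) : Cov a b c d := by
  refine ⟨6, forall8 ?_ ?_ ?_ ?_ ?_ ?_ ?_ ?_⟩ <;> simp [nn] <;> linarith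

theorem leaf7 {a b c d : ℝ} (h0 : 0 ≤ 5 * a + 3 * b - c - 3 * d) (h3 : 0 ≤ -2 * b - c + 2 * d)
    (h5 : 0 ≤ -b + 2 * c + d) (h6 : 0 ≤ -4 * b - 2 * c - d) : Cov a b c d := by
  refine ⟨7, forall8 ?_ ?_ ?_ ?_ ?_ ?_ ?_ ?_⟩ <;> simp [nn] <;> linarith

theorem leaf8 {a b c d : ℝ} (h1 : 0 ≤ -5 * a - 3 * b + c + 3 * d) (h3 : 0 ≤ 3 * a + b - c - d)
    (h5 : 0 ≤ -a - b + c + d) (h6 : 0 ≤ 6 * a + 2 * b - 2 * c - 4 * d) : Cov a b c d := by
  refine ⟨8, forall8 ?_ ?_ ?_ ?_ ?_ ?_ ?_ ?_⟩ <;> simp [nn] <;> linarith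

theorem leaf9 {a b c d : ℝ} (h0 : 0 ≤ a - b - c + d) (h4 : 0 ≤ 2 * b + c - 2 * d)
    (h5 : 0 ≤ b + c - d) (h6 : 0 ≤ -2 * b - c + d) : Cov a b c d := by
  refine ⟨9, forall8 ?_ ?_ ?_ ?_ ?_ ?_ ?_ ?_⟩ <;> simp [nn] <;> linarith

theorem leaf10 {a b c d : ℝ} (h2 : 0 ≤ -a + b + c - d) (h4 : 0 ≤ 6 * a - 2 * b - 4 * c + 2 * d)
    (h5 : 0 ≤ 3 * a - b - c + d) (h6 : 0 ≤ -5 * a + b + 3 * c - 3 * d) : Cov a b c d := by
  refine ⟨10, forall8 ?_ ?_ ?_ ?_ ?_ ?_ ?_ ?_⟩ <;> simp [nn] <;> linarith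

theorem leaf11 {a b c d : ℝ} (h1 : 0 ≤ -3 * b) (h3 : 0 ≤ b - c + d)
    (h4 : 0 ≤ 2 * b - 2 * c - d) (h7 : 0 ≤ -3 * a + b - c + d) : Cov a b c d := by
  refine ⟨11, forall8 ?_ ?_ ?_ ?_ ?_ ?_ ?_ ?_⟩ <;> simp [nn] <;> linarith

theorem leaf12 {a b c d : ℝ} (h2 : 0 ≤ 3 * b) (h3 : 0 ≤ b - 2 * c + 2 * d)
    (h4 : 0 ≤ -b - 4 * c - 2 * d) (h7 : 0 ≤ -6 * a + 4 * b - 2 * c + 2 * d) : Cov a b c d := by
  refine ⟨12, forall8 ?_ ?_ ?_ ?_ ?_ ?_ ?_ ?_⟩ <;> simp [nn] <;> linarith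

theorem leaf13 {a b c d : ℝ} (h1 : 0 ≤ -4 * b - 2 * c - d) (h3 : 0 ≤ 3 * d)
    (h5 : 0 ≤ -2 * b + 2 * c + d) (h7 : 0 ≤ -6 * a - 2 * b + 2 * c + 4 * d) : Cov a b c d := by
  refine ⟨13, forall8 ?_ ?_ ?_ ?_ ?_ ?_ ?_ ?_⟩ <;> simp [nn] <;> linarith

theorem leaf14 {a b c d : ℝ} (h2 : 0 ≤ 4 * b + 2 * c + d) (h3 : 0 ≤ 2 * b + c + 4 * d)
    (h5 : 0 ≤ b + 4 * c + 2 * d) (h7 : 0 ≤ -7 * a + 7 * b + 7 * c + 7 * d) : Cov a b c d := by
  refine ⟨14, forall8 ?_ ?_ ?_ ?_ ?_ ?_ ?_ ?_⟩ <;> simp [nn] <;> linarith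

theorem leaf15 {a b c d : ℝ} (h1 : 0 ≤ -b - c + d) (h4 : 0 ≤ b - c - d)
    (h6 : 0 ≤ -b + c - d) (h7 : 0 ≤ -2 * a) : Cov a b c d := by
  refine ⟨15, forall8 ?_ ?_ ?_ ?_ ?_ ?_ ?_ ?_⟩ <;> simp [nn] <;> linarith

theorem leaf16 {a b c d : ℝ} (h2 : 0 ≤ b + c - d) (h4 : 0 ≤ -3 * c)
    (h6 : 0 ≤ -b + 2 * c - 2 * d) (h7 : 0 ≤ -3 * a + b + c - d) : Cov a b c d := by
  refine ⟨16, forall8 ?_ ?_ ?_ ?_ ?_ ?_ ?_ ?_⟩ <;> simp [nn] <;> linarith

theorem leaf17 {a b c d : ℝ} (h1 : 0 ≤ -2 * b - c + 2 * d) (h5 : 0 ≤ -b + c + d)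
    (h6 : 0 ≤ -3 * d) (h7 : 0 ≤ -3 * a - b + c + d) : Cov a b c d := by
  refine ⟨17, forall8 ?_ ?_ ?_ ?_ ?_ ?_ ?_ ?_⟩ <;> simp [nn] <;> linarith

theorem leaf18 {a b c d : ℝ} (h2 : 0 ≤ 2 * b + c - 2 * d) (h5 : 0 ≤ 3 * c)
    (h6 : 0 ≤ -2 * b - c - 4 * d) (h7 : 0 ≤ -6 * a + 2 * b + 4 * c - 2 * d) : Cov a b c d := by
  refine ⟨18, forall8 ?_ ?_ ?_ ?_ ?_ ?_ ?_ ?_⟩ <;> simp [nn] <;> linarith

theorem cover (a b c d : ℝ) : Cov a b c d := by
  rcases le_total 0 (a - b - c - d) with g0 | g0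
  · rcases le_total 0 (-2 * b - c + 2 * d) with g1 | g1
    · rcases le_total 0 (2 * b - 2 * c - d) with g2 | g2
      · rcases le_total 0 (b - c + d) with g3 | g3
        · rcases le_total 0 (5 * a - 3 * b + 3 * c - d) with g4 | g4
          · rcases le_total 0 (-b - 4 * c - 2 * d) with g5 | g5
            · rcases le_total 0 (b - c + 2 * d) with g6 | g6
              · exact leaf0 (by linarith) (by linarith) (by linarith) (by linarith)
              · exact leaf1 (by linarith) (by linarith) (by linarith) (by linarith)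
            · exact leaf3 (by linarith) (by linarith) (by linarith) (by linarith)
          · rcases le_total 0 (a - b + c - d) with g5 | g5
            · exact leaf1 (by linarith) (by linarith) (by linarith) (by linarith)
            · rcases le_total 0 (-b) with g6 | g6
              · rcases le_total 0 (3 * a - b + c - d) with g7 | g7
                · exact leaf2 (by linarith) (by linarith) (by linarith) (by linarith)
                · exact leaf11 (by linarith) (by linarith) (by linarith) (by linarith)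
              · rcases le_total 0 (3 * a - 2 * b + c - d) with g7 | g7
                · exact leaf2 (by linarith) (by linarith) (by linarith) (by linarith)
                · exact leaf12 (by linarith) (by linarith) (by linarith) (by linarith)
        · rcases le_total 0 (a) with g4 | g4
          · exact leaf6 (by linarith) (by linarith) (by linarith) (by linarith)
          · exact leaf15 (by linarith) (by linarith) (by linarith) (by linarith)
      · rcases le_total 0 (-b + c + d) with g3 | g3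
        · rcases le_total 0 (5 * a + 3 * b - c - 3 * d) with g4 | g4
          · rcases le_total 0 (b - 2 * c - d) with g5 | g5
            · exact leaf5 (by linarith) (by linarith) (by linarith) (by linarith)
            · rcases le_total 0 (4 * b + 2 * c + d) with g6 | g6
              · exact leaf3 (by linarith) (by linarith) (by linarith) (by linarith)
              · exact leaf7 (by linarith) (by linarith) (by linarith) (by linarith)
          · rcases le_total 0 (a + b - c - d) with g5 | g5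
            · exact leaf5 (by linarith) (by linarith) (by linarith) (by linarith)
            · rcases le_total 0 (d) with g6 | g6
              · rcases le_total 0 (3 * a + b - c - 2 * d) with g7 | g7
                · exact leaf8 (by linarith) (by linarith) (by linarith) (by linarith)
                · exact leaf13 (by linarith) (by linarith) (by linarith) (by linarith)
              · rcases le_total 0 (3 * a + b - c - d) with g7 | g7
                · exact leaf8 (by linarith) (by linarith) (by linarith) (by linarith)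
                · exact leaf17 (by linarith) (by linarith) (by linarith) (by linarith)
        · rcases le_total 0 (a) with g4 | g4
          · exact leaf6 (by linarith) (by linarith) (by linarith) (by linarith)
          · exact leaf15 (by linarith) (by linarith) (by linarith) (by linarith)
    · rcases le_total 0 (b - 2 * c + 2 * d) with g2 | g2
      · rcases le_total 0 (b - c + d) with g3 | g3
        · rcases le_total 0 (5 * a - 3 * b + 3 * c - d) with g4 | g4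
          · rcases le_total 0 (-b - 4 * c - 2 * d) with g5 | g5
            · rcases le_total 0 (b - c + 2 * d) with g6 | g6
              · exact leaf0 (by linarith) (by linarith) (by linarith) (by linarith)
              · exact leaf1 (by linarith) (by linarith) (by linarith) (by linarith)
            · exact leaf3 (by linarith) (by linarith) (by linarith) (by linarith)
          · rcases le_total 0 (a - b + c - d) with g5 | g5
            · exact leaf1 (by linarith) (by linarith) (by linarith) (by linarith)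
            · rcases le_total 0 (-b) with g6 | g6
              · rcases le_total 0 (3 * a - b + c - d) with g7 | g7
                · exact leaf2 (by linarith) (by linarith) (by linarith) (by linarith)
                · exact leaf11 (by linarith) (by linarith) (by linarith) (by linarith)
              · rcases le_total 0 (3 * a - 2 * b + c - d) with g7 | g7
                · exact leaf2 (by linarith) (by linarith) (by linarith) (by linarith)
                · exact leaf12 (by linarith) (by linarith) (by linarith) (by linarith)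
        · rcases le_total 0 (a) with g4 | g4
          · exact leaf6 (by linarith) (by linarith) (by linarith) (by linarith)
          · exact leaf15 (by linarith) (by linarith) (by linarith) (by linarith)
      · rcases le_total 0 (-b - c + d) with g3 | g3
        · rcases le_total 0 (a) with g4 | g4
          · exact leaf6 (by linarith) (by linarith) (by linarith) (by linarith)
          · exact leaf15 (by linarith) (by linarith) (by linarith) (by linarith)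
        · rcases le_total 0 (5 * a - b - 3 * c + 3 * d) with g4 | g4
          · rcases le_total 0 (2 * b + c - d) with g5 | g5
            · rcases le_total 0 (2 * b + c + 4 * d) with g6 | g6
              · exact leaf3 (by linarith) (by linarith) (by linarith) (by linarith)
              · exact leaf4 (by linarith) (by linarith) (by linarith) (by linarith)
            · exact leaf9 (by linarith) (by linarith) (by linarith) (by linarith)
          · rcases le_total 0 (a - b - c + d) with g5 | g5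
            · exact leaf9 (by linarith) (by linarith) (by linarith) (by linarith)
            · rcases le_total 0 (-c) with g6 | g6
              · rcases le_total 0 (3 * a - b - c + d) with g7 | g7
                · exact leaf10 (by linarith) (by linarith) (by linarith) (by linarith)
                · exact leaf16 (by linarith) (by linarith) (by linarith) (by linarith)
              · rcases le_total 0 (3 * a - b - 2 * c + d) with g7 | g7
                · exact leaf10 (by linarith) (by linarith) (by linarith) (by linarith)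
                · exact leaf18 (by linarith) (by linarith) (by linarith) (by linarith)
  · rcases le_total 0 (-b - 4 * c - 2 * d) with g1 | g1
    · rcases le_total 0 (-b - c + d) with g2 | g2
      · rcases le_total 0 (-b) with g3 | g3
        · rcases le_total 0 (-b + c + d) with g4 | g4
          · rcases le_total 0 (d) with g5 | g5
            · rcases le_total 0 (2 * b - 2 * c - d) with g6 | g6
              · exact leaf11 (by linarith) (by linarith) (by linarith) (by linarith)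
              · exact leaf13 (by linarith) (by linarith) (by linarith) (by linarith)
            · exact leaf17 (by linarith) (by linarith) (by linarith) (by linarith)
          · rcases le_total 0 (b - c + d) with g5 | g5
            · exact leaf11 (by linarith) (by linarith) (by linarith) (by linarith)
            · exact leaf15 (by linarith) (by linarith) (by linarith) (by linarith)
        · exact leaf12 (by linarith) (by linarith) (by linarith) (by linarith)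
      · rcases le_total 0 (-c) with g3 | g3
        · rcases le_total 0 (b - 2 * c + 2 * d) with g4 | g4
          · exact leaf12 (by linarith) (by linarith) (by linarith) (by linarith)
          · exact leaf16 (by linarith) (by linarith) (by linarith) (by linarith)
        · rcases le_total 0 (-2 * b - c + 2 * d) with g4 | g4
          · exact leaf17 (by linarith) (by linarith) (by linarith) (by linarith)
          · exact leaf18 (by linarith) (by linarith) (by linarith) (by linarith)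
    · rcases le_total 0 (-2 * b - c + 2 * d) with g2 | g2
      · rcases le_total 0 (d) with g3 | g3
        · rcases le_total 0 (4 * b + 2 * c + d) with g4 | g4
          · exact leaf14 (by linarith) (by linarith) (by linarith) (by linarith)
          · exact leaf13 (by linarith) (by linarith) (by linarith) (by linarith)
        · exact leaf17 (by linarith) (by linarith) (by linarith) (by linarith)
      · rcases le_total 0 (2 * b + c + 4 * d) with g3 | g3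
        · exact leaf14 (by linarith) (by linarith) (by linarith) (by linarith)
        · exact leaf18 (by linarith) (by linarith) (by linarith) (by linarith)

end Pool.Agent.MP_d6d24d_co.H35
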