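import Pool.Agent.MP_d6d24d_co.H30.Obstruct

/-! Cells of a locally finite tiling by convex polytopes. -/

namespace Pool.Agent.MP_d6d24d_co.H35

open Set Pool.Agent.MP_d6d24d_co.H30

variable {d : ℕ} {T : Set (Set (EuclideanSpace ℝ (Fin d)))}

theorem mem_openSeg {E : Type*} [AddCommGroup E] [Module ℝ E] (x y : E) {ε : ℝ} (hε : 0 < ε) :
    x ∈ openSegment ℝ y (x + ε • (x - y)) := by
  refine ⟨ε / (1 + ε), 1 / (1 + ε), by positivity, by positivity, by field_simp; ring, ?_⟩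
  have hne : (1 + ε) ≠ 0 := by positivity
  match_scalars <;> (field_simp; try ring)

theorem minFace_sub {E : Type*} [NormedAddCommGroup E] [NormedSpace ℝ E] {Q : Set E}
    (hQ : Convex ℝ Q) {x y : E} (hy : y ∈ minFace Q x) : minFace Q y ⊆ minFace Q x := by
  rintro z ⟨hz, ε, hε, h⟩
  exact (minFace_isExtreme hQ).left_mem_of_mem_openSegment hz h hy (mem_openSeg y z hε)

theorem sigma_iff (hT : IsTiling T) {x : EuclideanSpace ℝ (Fin d)}
    {Q F : Set (EuclideanSpace ℝ (Fin d))} :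
    (Q, F) ∈ sigma T x ↔ Q ∈ T ∧ x ∈ Q ∧ F = minFace Q x := by
  constructor
  · rintro ⟨hQ, hx, hF, hxF⟩
    refine ⟨hQ, hx, subset_antisymm (fun y hy => ?_) ?_⟩
    · obtain ⟨ε, hε, h⟩ := relint_extend hxF (subset_affineSpan ℝ _ hy)
      exact ⟨hF.subset hy, ε, hε, hF.subset (h ε (by rw [abs_of_pos hε]))⟩
    · rintro y ⟨hy, ε, hε, h⟩
      exact hF.isExtreme.left_mem_of_mem_openSegment hy h (intrinsicInterior_subset hxF)
        (mem_openSeg x y hε)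
  · rintro ⟨hQ, hx, rfl⟩
    exact minFace_mem_sigma hT hQ hx

theorem nbhd (hT : IsTiling T) (hL : IsLocFinite T) (x : EuclideanSpace ℝ (Fin d)) :
    ∃ δ > 0, ∀ y, dist y x < δ → ∃ Q ∈ T, x ∈ Q ∧ y ∈ Q := by
  have hfin := hL (Metric.ball x 1) Metric.isBounded_ball
  have hc : IsClosed (⋃ Q ∈ {P ∈ T | (P ∩ Metric.ball x 1).Nonempty} ∩ {P | x ∉ P}, Q) :=
    (hfin.inter_of_left _).isClosed_biUnion (fun Q hQ => (hT.1 Q hQ.1.1).isCompact.isClosed)
  have hn := hc.isOpen_compl.mem_nhds (x := x) (by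
    simp only [mem_compl_iff, mem_iUnion, not_exists]
    exact fun Q hQ hx => hQ.2 hx)
  obtain ⟨δ, hδ, hb⟩ := Metric.mem_nhds_iff.1 hn
  refine ⟨min δ 1, lt_min hδ one_pos, fun y hy => ?_⟩
  obtain ⟨Q, hQ, hyQ⟩ := exists_tile hT y
  refine ⟨Q, hQ, ?_, hyQ⟩
  by_contra hx
  refine hb (a := y) (lt_of_lt_of_le hy (min_le_left _ _)) ?_
  simp only [mem_iUnion]
  exact ⟨Q, ⟨⟨hQ, y, hyQ, lt_of_lt_of_le hy (min_le_right _ _)⟩, hx⟩, hyQ⟩

theorem tiles_seg (hT : IsTiling T) (hL : IsLocFinite T) {x y : EuclideanSpace ℝ (Fin d)}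
    (hy : ∀ Q ∈ T, x ∈ Q → y ∈ Q) {t : ℝ} (ht0 : 0 < t) (ht1 : t ≤ 1)
    {Q' : Set (EuclideanSpace ℝ (Fin d))} (hQ' : Q' ∈ T) (hz : t • x + (1 - t) • y ∈ Q') :
    x ∈ Q' := by
  obtain ⟨δ, hδ, hb⟩ := nbhd hT hL x
  rw [← (hT.1 Q' hQ').closure_interior] at hz
  obtain ⟨u, hu, hd⟩ := Metric.mem_closure_iff.1 hz (t * δ) (by positivity)
  obtain ⟨Q, hQ, hxQ, hn⟩ := hb (x + t⁻¹ • (u - (t • x + (1 - t) • y))) (by
    rw [dist_eq_norm, add_sub_cancel_left, norm_smul, Real.norm_eq_abs, abs_of_pos (inv_pos.2 ht0),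
      ← dist_eq_norm, dist_comm, inv_mul_lt_iff₀ ht0]
    exact hd)
  have huQ : u ∈ Q := by
    have := (hT.1 Q hQ).convex hn (hy Q hQ hxQ) ht0.le (sub_nonneg.2 ht1) (by ring)
    convert this using 1
    match_scalars <;> (field_simp; try ring)
  rw [← eq_of_mem_interior hT hQ' hQ hu huQ]
  exact hxQ

theorem cell_eq (hT : IsTiling T) (hL : IsLocFinite T) (x : EuclideanSpace ℝ (Fin d)) :
    cell T x = {y | ∀ Q ∈ T, x ∈ Q → y ∈ minFace Q x} := by
  apply subset_antisymm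
  · refine closure_minimal (fun y hy Q hQ hx => ?_) ?_
    · have hy' : sigma T y = sigma T x := hy
      have h := minFace_mem_sigma hT hQ hx
      rw [← hy'] at h
      exact intrinsicInterior_subset h.2.2.2
    · have : {y | ∀ Q ∈ T, x ∈ Q → y ∈ minFace Q x} = ⋂ Q ∈ T, ⋂ (_ : x ∈ Q), minFace Q x := by
        ext y; simp
      rw [this]
      exact isClosed_biInter fun Q hQ => isClosed_iInter fun hx =>
        (minFace_mem_sigma hT hQ hx).2.2.1.isClosed (hT.1 Q hQ).isCompact.isClosed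
  · intro y hy
    have hc : Continuous (fun t : ℝ => t • x + (1 - t) • y) := by fun_prop
    have ht : Filter.Tendsto (fun t : ℝ => t • x + (1 - t) • y) (nhdsWithin 0 (Ioo 0 1))
        (nhds y) := by
      have := hc.tendsto 0
      simp only [zero_smul, sub_zero, one_smul, zero_add] at this
      exact this.mono_left nhdsWithin_le_nhds
    have : (nhdsWithin (0 : ℝ) (Ioo 0 1)).NeBot := left_nhdsWithin_Ioo_neBot one_pos
    refine mem_closure_of_tendsto ht ?_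
    filter_upwards [self_mem_nhdsWithin] with t ht
    have key : ∀ Q ∈ T, x ∈ Q → t • x + (1 - t) • y ∈ Q ∧
        minFace Q (t • x + (1 - t) • y) = minFace Q x := by
      intro Q hQ hx
      have hcv := (hT.1 Q hQ).convex
      have h1 : t • x + (1 - t) • y ∈ minFace Q x :=
        minFace_convex hcv hx (self_mem_minFace hx) (hy Q hQ hx) ht.1.le (by linarith [ht.2])
          (by ring)
      refine ⟨h1.1, subset_antisymm (minFace_sub hcv h1) (minFace_sub hcv ⟨hx, t, ht.1, ?_⟩)⟩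
      have := hcv hx (hy Q hQ hx).1 (a := t ^ 2) (b := 1 - t ^ 2) (by positivity)
        (by nlinarith [ht.1, ht.2]) (by ring)
      convert this using 1
      module
    show sigma T _ = sigma T x
    ext ⟨Q, F⟩
    rw [sigma_iff hT, sigma_iff hT]
    constructor
    · rintro ⟨hQ, hz, rfl⟩
      have hx := tiles_seg hT hL (fun Q hQ hx => (hy Q hQ hx).1) ht.1 ht.2.le hQ hz
      exact ⟨hQ, hx, (key Q hQ hx).2⟩
    · rintro ⟨hQ, hx, rfl⟩
      exact ⟨hQ, (key Q hQ hx).1, (key Q hQ hx).2.symm⟩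

theorem cell_mono (hT : IsTiling T) (hL : IsLocFinite T) {x y : EuclideanSpace ℝ (Fin d)}
    (hy : y ∈ cell T x) : cell T y ⊆ cell T x := by
  rw [cell_eq hT hL] at hy ⊢
  rw [cell_eq hT hL]
  intro w hw Q hQ hx
  exact minFace_sub (hT.1 Q hQ).convex (hy Q hQ hx) (hw Q hQ (hy Q hQ hx).1)

theorem cell_convex (hT : IsTiling T) (hL : IsLocFinite T) (x : EuclideanSpace ℝ (Fin d)) :
    Convex ℝ (cell T x) := by
  rw [cell_eq hT hL]
  intro a ha b hb s t hs ht hst Q hQ hx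
  exact minFace_convex (hT.1 Q hQ).convex hx (ha Q hQ hx) (hb Q hQ hx) hs ht hst

theorem tiles_finite (hL : IsLocFinite T) (x : EuclideanSpace ℝ (Fin d)) :
    {Q ∈ T | x ∈ Q}.Finite :=
  (hL {x} Bornology.isBounded_singleton).subset (fun _ hQ => ⟨hQ.1, x, hQ.2, rfl⟩)

theorem common_eps (hL : IsLocFinite T) (x : EuclideanSpace ℝ (Fin d))
    {p : Set (EuclideanSpace ℝ (Fin d)) → ℝ → Prop}
    (h : ∀ Q ∈ T, x ∈ Q → ∃ ε > 0, ∀ t, 0 < t → t ≤ ε → p Q t) :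
    ∃ t > 0, ∀ Q ∈ T, x ∈ Q → p Q t := by
  have h1 : ∀ᶠ t in nhdsWithin (0 : ℝ) (Ioi 0), ∀ Q ∈ {Q ∈ T | x ∈ Q}, p Q t := by
    rw [(tiles_finite hL x).eventually_all]
    intro Q hQ
    obtain ⟨ε, hε, h2⟩ := h Q hQ.1 hQ.2
    filter_upwards [Ioc_mem_nhdsGT hε] with t ht using h2 t ht.1 ht.2
  obtain ⟨t, ht, ht'⟩ := (h1.and self_mem_nhdsWithin).exists
  exact ⟨t, ht', fun Q hQ hx => ht Q ⟨hQ, hx⟩⟩

theorem cell_open (hT : IsTiling T) (hL : IsLocFinite T) {x w : EuclideanSpace ℝ (Fin d)}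
    (hw : w ∈ affineSpan ℝ (cell T x)) : ∃ ε : ℝ, 0 < ε ∧ x + ε • (x - w) ∈ cell T x := by
  obtain ⟨t, ht, h⟩ := common_eps hL x (p := fun Q t => x + t • (x - w) ∈ minFace Q x)
    (fun Q hQ hx => by
      have hsub : cell T x ⊆ minFace Q x := by
        rw [cell_eq hT hL]; exact fun y hy => hy Q hQ hx
      obtain ⟨ε, hε, h⟩ := relint_extend (mem_relint_minFace (hT.1 Q hQ).convex hx)
        (affineSpan_mono ℝ hsub hw)
      exact ⟨ε, hε, fun t h0 h1 => h t (by rwa [abs_of_pos h0])⟩)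
  exact ⟨t, ht, by rw [cell_eq hT hL]; exact h⟩

theorem cell_sep (hT : IsTiling T) (hL : IsLocFinite T) {x y : EuclideanSpace ℝ (Fin d)}
    (hy : y ∈ cell T x) (hx : x ∉ cell T y) :
    ∃ l : EuclideanSpace ℝ (Fin d) →L[ℝ] ℝ, (∀ z ∈ cell T x, l z ≤ l y) ∧ l x < l y := by
  have hy' : ∀ Q ∈ T, x ∈ Q → y ∈ Q := fun Q hQ hxQ => cell_subset hT hQ hxQ hy
  obtain ⟨Q, hQ, hxQ, hn⟩ : ∃ Q ∈ T, x ∈ Q ∧ x ∉ minFace Q y := by
    by_contra hcon
    push Not at hcon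
    apply hx
    obtain ⟨t, ht, h⟩ := common_eps hL x (p := fun Q t => y + t • (y - x) ∈ Q)
      (fun Q hQ hxQ => by
        obtain ⟨-, ε, hε, h⟩ := hcon Q hQ hxQ
        exact ⟨ε, hε, fun t h0 h1 =>
          minFace_shrink (hT.1 Q hQ).convex (hy' Q hQ hxQ) hε h h0.le h1⟩)
    rw [cell_eq hT hL]
    intro Q hQ hyQ
    refine hcon Q hQ (tiles_seg hT hL h (t := t / (1 + t)) (by positivity)
      (by rw [div_le_one (by positivity)]; linarith) hQ ?_)
    convert hyQ using 1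
    have hne : (1 + t) ≠ 0 := by positivity
    match_scalars <;> (field_simp; try ring)
  have hyQ := hy' Q hQ hxQ
  obtain ⟨l, hl⟩ := (minFace_mem_sigma hT hQ hyQ).2.2.1 ⟨y, self_mem_minFace hyQ⟩
  simp only at hl
  have h1 := self_mem_minFace hyQ
  rw [hl] at h1 hn
  refine ⟨l, fun z hz => h1.2 z (cell_subset hT hQ hxQ hz), ?_⟩
  by_contra h2
  push Not at h2
  exact hn ⟨hxQ, fun z hz => (h1.2 z hz).trans h2⟩

end Pool.Agent.MP_d6d24d_co.H35
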