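import Pool.Agent.MP_d6d24d_co.H35.Fan
import Pool.Agent.MP_d6d24d_co.H35.Bridge
import Pool.Agent.MP_d6d24d_co.H35.Defs

/-! The face-to-face tiling of `ℝ^4` obtained by cutting the fan into layers. -/

namespace Pool.Agent.MP_d6d24d_co.H35

open Set Pool.Agent.MP_d6d24d_co.H30

/-- Euclidean 4-space. -/
abbrev E4 := EuclideanSpace ℝ (Fin 4)

/-- The functional given by an integer vector. -/
noncomputable def lin (v : Fin 4 → ℤ) : E4 →L[ℝ] ℝ :=
  ∑ k, (v k : ℝ) • EuclideanSpace.proj k

theorem lin_apply (v : Fin 4 → ℤ) (x : E4) :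
    lin v x = v 0 * x 0 + v 1 * x 1 + v 2 * x 2 + v 3 * x 3 := by
  simp [lin, Fin.sum_univ_four]

/-- The rays as points of `ℝ^4`. -/
noncomputable def rr (i : Fin 8) : E4 := WithLp.toLp 2 (fun k => (ray i k : ℝ))

theorem lin_rr (v : Fin 4 → ℤ) (i : Fin 8) : lin v (rr i) = (dot v (ray i) : ℝ) := by
  simp [lin_apply, rr, dot]

/-- Coordinates with respect to the rays of a cone. -/
noncomputable def co (t : Fin 19) (i : Fin 8) : E4 →L[ℝ] ℝ := (dd t : ℝ)⁻¹ • lin (nn t i)

/-- The sum of the coordinates. -/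
noncomputable def lev (t : Fin 19) : E4 →L[ℝ] ℝ := ∑ i, co t i

theorem lev_apply (t : Fin 19) (x : E4) : lev t x = ∑ i, co t i x := by simp [lev]

/-- The combination of the rays with given coefficients. -/
noncomputable def comb (l : Fin 8 → ℝ) : E4 := ∑ i, l i • rr i

theorem dd_ne (t : Fin 19) : (dd t : ℝ) ≠ 0 := by exact_mod_cast (dd_pos t).ne'

theorem co_zero {t : Fin 19} {i : Fin 8} (hi : i ∉ fac t) (x : E4) : co t i x = 0 := by
  simp [co, lin_apply, nn_zero t i hi]

theorem co_rr {t : Fin 19} (i : Fin 8) {j : Fin 8} (hj : j ∈ fac t) :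
    co t i (rr j) = if i = j then 1 else 0 := by
  simp only [co, smul_apply, lin_rr, nn_ray t i j hj, smul_eq_mul]
  split_ifs
  · exact inv_mul_cancel₀ (dd_ne t)
  · simp

theorem co_comb {t : Fin 19} {l : Fin 8 → ℝ} (hl : ∀ i, i ∉ fac t → l i = 0) (i : Fin 8) :
    co t i (comb l) = l i := by
  rw [comb, map_sum, Finset.sum_eq_single i]
  · by_cases hi : i ∈ fac t
    · simp [co_rr i hi]
    · simp [hl i hi]
  · intro j _ hj
    by_cases hj' : j ∈ fac t
    · simp [co_rr i hj', Ne.symm hj]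
    · simp [hl j hj']
  · simp

theorem comb_co (t : Fin 19) (x : E4) : comb (fun i => co t i x) = x := by
  ext k
  have h : ∀ m, ∑ i, (ray i k : ℝ) * nn t i m = if k = m then (dd t : ℝ) else 0 := by
    intro m
    have := congrArg (Int.cast : ℤ → ℝ) (ray_nn t k m)
    push_cast at this
    exact this
  have h2 : (comb (fun i => co t i x)) k =
      (dd t : ℝ)⁻¹ * ((∑ i, (ray i k : ℝ) * nn t i 0) * x 0 + (∑ i, (ray i k : ℝ) * nn t i 1) * x 1
        + (∑ i, (ray i k : ℝ) * nn t i 2) * x 2 + (∑ i, (ray i k : ℝ) * nn t i 3) * x 3) := by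
    simp only [comb, co, rr, lin_apply, smul_apply, smul_eq_mul,
      Fin.sum_univ_eight, PiLp.add_apply, PiLp.smul_apply]
    ring
  rw [h2, h, h, h, h]
  have := dd_ne t
  fin_cases k <;> simp <;> field_simp

/-- The cone `t`. -/
def In (t : Fin 19) (x : E4) : Prop := ∀ i, 0 ≤ co t i x

theorem exists_in (x : E4) : ∃ t, In t x := by
  obtain ⟨t, ht⟩ := cover (x 0) (x 1) (x 2) (x 3)
  refine ⟨t, fun i => ?_⟩
  simp only [co, smul_apply, lin_apply, smul_eq_mul]
  exact mul_nonneg (inv_nonneg.2 (by exact_mod_cast (dd_pos t).le)) (ht i)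

theorem co_of_supp {t u : Fin 19} {x : E4} (h : ∀ i, i ∉ fac u → co t i x = 0) (i : Fin 8) :
    co u i x = co t i x := by
  conv_lhs => rw [← comb_co t x]
  exact co_comb h i

theorem co_eq {t u : Fin 19} {x : E4} (ht : In t x) (hu : In u x) (i : Fin 8) :
    co u i x = co t i x := by
  have e : ∀ s, lin (sepv t u) x = ∑ j, co s j x * (dot (sepv t u) (ray j) : ℝ) := by
    intro s
    conv_lhs => rw [← comb_co s x]
    simp [comb, lin_rr]
  have h1 : ∀ j ∈ Finset.univ, 0 ≤ co t j x * (dot (sepv t u) (ray j) : ℝ) := by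
    intro j _
    by_cases hj : j ∈ fac t
    · exact mul_nonneg (ht j) (by exact_mod_cast sepv_pos t u j hj)
    · simp [co_zero hj]
  have h2 : ∑ j, co u j x * (dot (sepv t u) (ray j) : ℝ) ≤ 0 := by
    refine Finset.sum_nonpos fun j _ => ?_
    by_cases hj : j ∈ fac u
    · exact mul_nonpos_of_nonneg_of_nonpos (hu j) (by exact_mod_cast sepv_neg t u j hj)
    · simp [co_zero hj]
  have h3 : ∑ j, co t j x * (dot (sepv t u) (ray j) : ℝ) = 0 :=
    le_antisymm (by rw [← e t, e u]; exact h2) (Finset.sum_nonneg h1)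
  refine co_of_supp (fun j hj => ?_) i
  by_cases hj' : j ∈ fac t
  · exact (mul_eq_zero.1 ((Finset.sum_eq_zero_iff_of_nonneg h1).1 h3 j (Finset.mem_univ _))).resolve_right
      (by exact_mod_cast sepv_ne t u j hj' hj)
  · exact co_zero hj' x

theorem lev_eq {t u : Fin 19} {x : E4} (ht : In t x) (hu : In u x) : lev u x = lev t x := by
  simp [lev_apply, co_eq ht hu]

theorem lev_nonneg {t : Fin 19} {x : E4} (ht : In t x) : 0 ≤ lev t x := by
  rw [lev_apply]; exact Finset.sum_nonneg fun i _ => ht i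

theorem lev_rr {t : Fin 19} {j : Fin 8} (hj : j ∈ fac t) : lev t (rr j) = 1 := by
  simp [lev_apply, co_rr _ hj]

theorem in_rr {t : Fin 19} {j : Fin 8} (hj : j ∈ fac t) : In t (rr j) := by
  intro i; rw [co_rr i hj]; split_ifs <;> norm_num

theorem fac_nonempty (t : Fin 19) : ∃ j, j ∈ fac t :=
  Finset.card_pos.1 (by rw [fac_card]; norm_num)

/-- The layer `k` of the cone `t`. -/
def tile (t : Fin 19) (k : ℕ) : Set E4 := {x | In t x ∧ (k : ℝ) ≤ lev t x ∧ lev t x ≤ k + 1}

/-- The tiling. -/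
def tiling : Set (Set E4) := {P | ∃ t k, P = tile t k}

theorem tile_convex (t : Fin 19) (k : ℕ) : Convex ℝ (tile t k) := by
  rintro x ⟨h1, h2, h3⟩ y ⟨h4, h5, h6⟩ a b ha hb hab
  refine ⟨fun i => ?_, ?_, ?_⟩
  · rw [map_add, map_smul, map_smul]
    exact add_nonneg (mul_nonneg ha (h1 i)) (mul_nonneg hb (h4 i))
  · rw [map_add, map_smul, map_smul, smul_eq_mul, smul_eq_mul]
    nlinarith
  · rw [map_add, map_smul, map_smul, smul_eq_mul, smul_eq_mul]
    nlinarith

theorem tile_polytope (t : Fin 19) (k : ℕ) : IsPolytope (tile t k) := by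
  classical
  obtain ⟨j0, hj0⟩ := fac_nonempty t
  constructor
  · refine ⟨(fac t).image (fun j => (k : ℝ) • rr j) ∪ (fac t).image (fun j => ((k : ℝ) + 1) • rr j),
      subset_antisymm ?_ (convexHull_min ?_ (tile_convex t k))⟩
    · rintro x ⟨h1, h2, h3⟩
      set H := convexHull ℝ (((fac t).image (fun j => (k : ℝ) • rr j) ∪
        (fac t).image (fun j => ((k : ℝ) + 1) • rr j) : Finset E4) : Set E4) with hH
      have hc : Convex ℝ H := convex_convexHull _ _
      have hz : ∀ j ∈ fac t, lev t x • rr j ∈ H := by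
        intro j hj
        have := hc (x := (k : ℝ) • rr j) (y := ((k : ℝ) + 1) • rr j)
          (subset_convexHull ℝ _ (by simp only [Finset.coe_union, Finset.coe_image]; exact Or.inl ⟨j, hj, rfl⟩))
          (subset_convexHull ℝ _ (by simp only [Finset.coe_union, Finset.coe_image]; exact Or.inr ⟨j, hj, rfl⟩))
          (a := k + 1 - lev t x) (b := lev t x - k) (by linarith) (by linarith) (by ring)
        convert this using 1
        module
      have hsum : ∑ j ∈ fac t, co t j x = lev t x := by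
        rw [lev_apply]
        exact Finset.sum_subset (Finset.subset_univ _) (fun j _ hj => co_zero hj x)
      have hx : x = ∑ j ∈ fac t, co t j x • rr j := by
        conv_lhs => rw [← comb_co t x]
        exact (Finset.sum_subset (Finset.subset_univ _) (fun j _ hj => by simp [co_zero hj x])).symm
      rcases (lev_nonneg h1).eq_or_lt with h0 | h0
      · have h4 : x = 0 := by
          rw [hx]
          refine Finset.sum_eq_zero fun j hj => ?_
          rw [(Finset.sum_eq_zero_iff_of_nonneg (fun i _ => h1 i)).1 (hsum.trans h0.symm) j hj,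
            zero_smul]
        have := hz j0 hj0
        rwa [← h0, zero_smul, ← h4] at this
      · have := hc.sum_mem (t := fac t) (w := fun j => co t j x / lev t x)
          (z := fun j => lev t x • rr j) (fun j _ => div_nonneg (h1 j) h0.le)
          (by rw [← Finset.sum_div, hsum, div_self h0.ne']) hz
        convert this using 1
        conv_lhs => rw [hx]
        refine Finset.sum_congr rfl fun j _ => ?_
        rw [smul_smul, div_mul_cancel₀ _ h0.ne']
    · intro x hx
      simp only [Finset.coe_union, Finset.coe_image] at hx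
      rcases hx with ⟨j, hj, rfl⟩ | ⟨j, hj, rfl⟩
      · exact ⟨fun i => by rw [map_smul]; exact mul_nonneg (by positivity) (in_rr hj i),
          by simp [lev_rr hj], by simp [lev_rr hj]⟩
      · exact ⟨fun i => by rw [map_smul]; exact mul_nonneg (by positivity) (in_rr hj i),
          by simp [lev_rr hj], by simp [lev_rr hj]⟩
  · have ho : IsOpen ((⋂ i ∈ fac t, {x : E4 | 0 < co t i x}) ∩
        ({x | (k : ℝ) < lev t x} ∩ {x | lev t x < k + 1})) :=
      (isOpen_biInter_finset fun i _ => isOpen_lt continuous_const (co t i).continuous).inter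
        ((isOpen_lt continuous_const (lev t).continuous).inter
          (isOpen_lt (lev t).continuous continuous_const))
    have hl : ∀ i, i ∉ fac t → (fun i => if i ∈ fac t then ((k : ℝ) + 1 / 2) / 4 else 0) i = 0 :=
      fun i hi => if_neg hi
    have hlev : lev t (comb fun i => if i ∈ fac t then ((k : ℝ) + 1 / 2) / 4 else 0) = k + 1 / 2 := by
      rw [lev_apply]
      simp only [co_comb hl]
      rw [Finset.sum_ite_mem, Finset.univ_inter, Finset.sum_const, fac_card]
      simp only [nsmul_eq_mul]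
      push_cast
      ring
    refine ⟨comb fun i => if i ∈ fac t then ((k : ℝ) + 1 / 2) / 4 else 0,
      interior_maximal ?_ ho ⟨?_, ?_, ?_⟩⟩
    · rintro x ⟨h1, h2, h3⟩
      simp only [mem_iInter, mem_ofPred_eq] at h1
      refine ⟨fun i => ?_, le_of_lt h2, le_of_lt h3⟩
      by_cases hi : i ∈ fac t
      · exact (h1 i hi).le
      · exact (co_zero hi x).ge
    · simp only [mem_iInter, mem_ofPred_eq]
      intro i hi
      rw [co_comb hl, if_pos hi]
      positivity
    · rw [mem_ofPred_eq, hlev]; linarith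
    · rw [mem_ofPred_eq, hlev]; linarith

theorem lt_of_interior {A : Set E4} (g : E4 →L[ℝ] ℝ) {v : E4} (hv : g v = 1) {a : ℝ}
    (hA : ∀ y ∈ A, a ≤ g y) {x : E4} (hx : x ∈ interior A) : a < g x := by
  have hc : Continuous (fun s : ℝ => x - s • v) := by fun_prop
  have h1 : ∀ᶠ s in nhds (0 : ℝ), x - s • v ∈ interior A :=
    hc.continuousAt.eventually_mem (isOpen_interior.mem_nhds (by simpa using hx))
  obtain ⟨s, hs, hs'⟩ := ((h1.filter_mono (nhdsWithin_le_nhds (s := Ioi 0))).and
    self_mem_nhdsWithin).exists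
  have := hA _ (interior_subset hs)
  rw [map_sub, map_smul, hv, smul_eq_mul, mul_one] at this
  have h2 : (0 : ℝ) < s := hs'
  linarith

theorem tiling_isTiling : IsTiling tiling := by
  refine ⟨?_, ?_, ?_⟩
  · rintro _ ⟨t, k, rfl⟩
    exact tile_polytope t k
  · rw [eq_univ_iff_forall]
    intro x
    obtain ⟨t, ht⟩ := exists_in x
    exact ⟨_, ⟨t, ⌊lev t x⌋₊, rfl⟩, ht, Nat.floor_le (lev_nonneg ht), (Nat.lt_floor_add_one _).le⟩
  · rintro _ ⟨t, k, rfl⟩ _ ⟨u, m, rfl⟩ hne
    rw [Set.disjoint_left]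
    intro x hx hx'
    apply hne
    have h1 := interior_subset hx
    have h2 := interior_subset hx'
    have htu : t = u := by
      refine fac_inj t u fun i hi => ?_
      by_contra hi'
      have h3 := lt_of_interior (co t i) (v := rr i) (by simp [co_rr i hi]) (fun y hy => hy.1 i) hx
      rw [← co_eq h1.1 h2.1, co_zero hi'] at h3
      exact lt_irrefl _ h3
    subst htu
    obtain ⟨j, hj⟩ := fac_nonempty t
    have h3 := lt_of_interior (lev t) (lev_rr hj) (fun y hy => hy.2.1) hx
    have h4 := lt_of_interior (lev t) (lev_rr hj) (fun y hy => hy.2.1) hx'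
    have h5 : (k : ℝ) < m + 1 := lt_of_lt_of_le h3 h2.2.2
    have h6 : (m : ℝ) < k + 1 := lt_of_lt_of_le h4 h1.2.2
    have h7 : k < m + 1 := by exact_mod_cast h5
    have h8 : m < k + 1 := by exact_mod_cast h6
    rw [show k = m by omega]

theorem tiling_locFinite : IsLocFinite tiling := by
  intro B hB
  have h : ∀ t, ∃ N : ℕ, ∀ x ∈ B, lev t x ≤ N := by
    intro t
    obtain ⟨M, hM⟩ := ((lev t).lipschitz.isBounded_image hB).bddAbove
    exact ⟨⌈M⌉₊, fun x hx => (hM ⟨x, hx, rfl⟩).trans (Nat.le_ceil M)⟩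
  choose N hN using h
  refine (Set.finite_iUnion fun t => (Set.finite_Iic (N t)).image (tile t)).subset ?_
  rintro _ ⟨⟨t, k, rfl⟩, x, hx, hxB⟩
  refine mem_iUnion.2 ⟨t, k, ?_, rfl⟩
  have := hx.2.1.trans (hN t x hxB)
  exact_mod_cast this

theorem tile_exposed (t u : Fin 19) (k m : ℕ) : IsExposed ℝ (tile t k) (tile t k ∩ tile u m) := by
  rintro ⟨x0, hx0, hx0'⟩
  have key : ∀ y ∈ tile t k, ∀ z ∈ tile t k, y ∈ tile u m →
      ((m : ℝ) - k) * lev t z ≤ ((m : ℝ) - k) * lev t y := by
    intro y hy z hz hy'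
    have h1 := hy'.2.1
    have h2 := hy'.2.2
    rw [lev_eq hy.1 hy'.1] at h1 h2
    rcases lt_trichotomy k m with h | h | h
    · have h3 : (k : ℝ) + 1 ≤ m := by exact_mod_cast h
      exact mul_le_mul_of_nonneg_left (by linarith [hz.2.2]) (by linarith)
    · simp [h]
    · have h3 : (m : ℝ) + 1 ≤ k := by exact_mod_cast h
      exact mul_le_mul_of_nonpos_left (by linarith [hz.2.1]) (by linarith)
  have hA : ∀ y ∈ tile t k, 0 ≤ ∑ i ∈ (fac u)ᶜ, co t i y := fun y hy =>
    Finset.sum_nonneg fun i _ => hy.1 i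
  have hA0 : ∀ y ∈ tile t k, y ∈ tile u m → ∑ i ∈ (fac u)ᶜ, co t i y = 0 := fun y hy hy' =>
    Finset.sum_eq_zero fun i hi => by
      rw [← co_eq hy.1 hy'.1, co_zero (Finset.mem_compl.1 hi)]
  refine ⟨((m : ℝ) - k) • lev t - ∑ i ∈ (fac u)ᶜ, co t i, ?_⟩
  ext y
  simp only [mem_inter_iff, mem_ofPred_eq, sub_apply,
    smul_apply, sum_apply, smul_eq_mul]
  refine and_congr_right fun hy => ⟨fun hy' z hz => ?_, fun h => ?_⟩
  · have := key y hy z hz hy'
    have := hA z hz
    rw [hA0 y hy hy']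
    linarith
  · have h1 := h x0 hx0
    have h2 := key x0 hx0 y hy hx0'
    have h3 := hA y hy
    rw [hA0 x0 hx0 hx0'] at h1
    have h4 : ∑ i ∈ (fac u)ᶜ, co t i y = 0 := by linarith
    have h5 : ∀ i, co u i y = co t i y := co_of_supp fun i hi =>
      (Finset.sum_eq_zero_iff_of_nonneg (fun i _ => hy.1 i)).1 h4 i (Finset.mem_compl.2 hi)
    have h6 : In u y := fun i => h5 i ▸ hy.1 i
    have h7 := lev_eq hy.1 h6
    by_cases hkm : (m : ℝ) - k = 0
    · have h8 : (m : ℝ) = k := by linarith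
      exact ⟨h6, by rw [h7, h8]; exact hy.2.1, by rw [h7, h8]; exact hy.2.2⟩
    · have h8 : lev t y = lev t x0 := mul_left_cancel₀ hkm (by linarith)
      have h9 := lev_eq hx0.1 hx0'.1
      exact ⟨h6, by rw [h7, h8, ← h9]; exact hx0'.2.1, by rw [h7, h8, ← h9]; exact hx0'.2.2⟩

theorem tiling_faceToFace : IsFaceToFace tiling := by
  rintro _ ⟨t, k, rfl⟩ _ ⟨u, m, rfl⟩
  exact ⟨tile_exposed t u k m, by rw [inter_comm]; exact tile_exposed u t m k⟩

/-- The simplex spanned by the origin and the rays in `σ`. -/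
def simp0 (σ : Finset (Fin 8)) : Set E4 :=
  {x | ∃ l : Fin 8 → ℝ, (∀ i, 0 ≤ l i) ∧ (∀ i, i ∉ σ → l i = 0) ∧ ∑ i, l i ≤ 1 ∧ x = comb l}

theorem simp0_sub {σ : Finset (Fin 8)} {t : Fin 19} (h : σ ⊆ fac t) : simp0 σ ⊆ tile t 0 := by
  rintro _ ⟨l, h1, h2, h3, rfl⟩
  have h4 := co_comb (t := t) (l := l) (fun i hi => h2 i (fun h' => hi (h h')))
  have h5 : In t (comb l) := fun i => by rw [h4]; exact h1 i
  exact ⟨h5, by simpa using lev_nonneg h5, by simpa [lev_apply, h4] using h3⟩

theorem cell_simp0 {t : Fin 19} {x : E4} (hx : In t x) (h1 : lev t x < 1) {σ : Finset (Fin 8)}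
    (hσ : ∀ i, i ∈ σ ↔ co t i x ≠ 0) : cell tiling x = simp0 σ := by
  rw [cell_eq tiling_isTiling tiling_locFinite]
  apply subset_antisymm
  · intro y hy
    obtain ⟨hy1, ε, hε, hy2⟩ := hy _ ⟨t, 0, rfl⟩ ⟨hx, by simpa using lev_nonneg hx, by simpa using h1.le⟩
    refine ⟨fun i => co t i y, hy1.1, fun i hi => ?_, by simpa [lev_apply] using hy1.2.2,
      (comb_co t y).symm⟩
    have h2 : co t i x = 0 := by by_contra h; exact hi ((hσ i).2 h)
    have h3 := hy2.1 i
    rw [map_add, map_smul, map_sub, h2, smul_eq_mul] at h3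
    have h4 := hy1.1 i
    nlinarith
  · rintro y hy _ ⟨u, m, rfl⟩ hxu
    have hm : m = 0 := by
      have h2 := hxu.2.1
      rw [lev_eq hx hxu.1] at h2
      have h3 : (m : ℝ) < 1 := lt_of_le_of_lt h2 h1
      have h4 : m < 1 := by exact_mod_cast h3
      omega
    subst hm
    have hsub : σ ⊆ fac u := fun i hi => by
      by_contra h
      exact (hσ i).1 hi (by rw [← co_eq hx hxu.1, co_zero h])
    refine ⟨simp0_sub hsub hy, ?_⟩
    obtain ⟨l, -, hl2, -, rfl⟩ := hy
    have h4 := co_comb (t := u) (l := l) (fun i hi => hl2 i (fun h' => hi (hsub h')))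
    have hc : Continuous (fun s : ℝ => x + s • (x - comb l)) := by fun_prop
    have e1 : ∀ i, ∀ᶠ s in nhds (0 : ℝ), 0 ≤ co u i (x + s • (x - comb l)) := by
      intro i
      by_cases hi : i ∈ σ
      · have h5 : 0 < co u i x := by
          rw [co_eq hx hxu.1]; exact lt_of_le_of_ne (hx i) (Ne.symm ((hσ i).1 hi))
        have := (((co u i).continuous.comp hc).tendsto 0).eventually
          (lt_mem_nhds (a := 0) (by simpa using h5))
        exact this.mono fun s hs => le_of_lt hs
      · have h5 : co u i x = 0 := by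
          rw [co_eq hx hxu.1]; by_contra h; exact hi ((hσ i).2 h)
        simp [h5, h4, hl2 i hi]
    have e2 : ∀ᶠ s in nhds (0 : ℝ), lev u (x + s • (x - comb l)) < 1 :=
      (((lev u).continuous.comp hc).tendsto 0).eventually
        (gt_mem_nhds (by simpa [lev_eq hx hxu.1] using h1))
    obtain ⟨s, hs, hs'⟩ := ((((Filter.eventually_all.2 e1).and e2).filter_mono
      (nhdsWithin_le_nhds (s := Ioi 0))).and self_mem_nhdsWithin).exists
    exact ⟨s, hs', hs.1, by simpa using lev_nonneg hs.1, by simpa using hs.2.le⟩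

theorem tiling_no_dual {T' : Set (Set E4)} (hT' : IsTiling T') (hL' : IsLocFinite T') :
    ¬ IsDual tiling T' := by
  classical
  refine no_dual hT' hL' (v := 0) simp0 ?_ ?_ ?_ ?_ ?_
  · rintro σ ⟨t, ht⟩
    have h4 := co_comb (t := t) (l := fun i => if i ∈ σ then (1 / 9 : ℝ) else 0)
      (fun i hi => if_neg (fun h' => hi (ht h')))
    rw [← cell_simp0 (t := t) (x := comb fun i => if i ∈ σ then (1 / 9 : ℝ) else 0)
      (fun i => by rw [h4]; split_ifs <;> norm_num) ?_ (fun i => by rw [h4]; simp)]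
    · exact cell_mem _ _
    · rw [lev_apply]
      simp only [h4]
      calc _ ≤ ∑ _i : Fin 8, (1 / 9 : ℝ) :=
            Finset.sum_le_sum fun i _ => by split_ifs <;> norm_num
        _ < 1 := by norm_num
  · rintro σ ⟨t, ht⟩ h
    have h1 := simp0_sub ht
    rw [h, univ_subset_iff] at h1
    exact noncompact_univ E4 (h1 ▸ (tile_polytope t 0).isCompact)
  · ext x
    constructor
    · rintro ⟨l, -, h2, -, rfl⟩
      simp [comb, h2]
    · rintro rfl
      exact ⟨0, by simp, by simp, by simp, by simp [comb]⟩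
  · rintro σ τ ⟨t, ht⟩ ⟨u, hu⟩
    constructor
    · intro h i hi
      have h1 : rr i ∈ simp0 σ := by
        refine ⟨fun j => if j = i then 1 else 0, fun j => by dsimp only; split_ifs <;> norm_num,
          fun j hj => if_neg (fun h' : j = i => hj (h' ▸ hi)), by simp, by simp [comb]⟩
      have h2 := h h1
      have h3 := co_eq (in_rr (ht hi)) (simp0_sub hu h2).1 i
      obtain ⟨l, -, hl2, -, hl⟩ := h2
      by_contra hi'
      rw [co_rr i (ht hi), hl, co_comb (fun j hj => hl2 j (fun h' => hj (hu h'))), hl2 i hi'] at h3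
      simp at h3
    · rintro h _ ⟨l, h1, h2, h3, rfl⟩
      exact ⟨l, h1, fun i hi => h2 i (fun h' => hi (h h')), h3, rfl⟩
  · rintro G (⟨x, rfl⟩ | rfl | rfl) h0
    · right
      obtain ⟨t, ht⟩ := exists_in x
      have h1 : lev t x < 1 := by
        have h2 := cell_subset tiling_isTiling (P := tile t ⌊lev t x⌋₊) ⟨t, _, rfl⟩
          ⟨ht, Nat.floor_le (lev_nonneg ht), (Nat.lt_floor_add_one _).le⟩ h0
        have h3 := h2.2.1
        rw [map_zero] at h3
        have h4 := Nat.lt_floor_add_one (lev t x)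
        linarith
      refine ⟨Finset.univ.filter (fun i => co t i x ≠ 0), ⟨t, fun i hi => ?_⟩,
        cell_simp0 ht h1 (by simp)⟩
      by_contra h
      exact (Finset.mem_filter.1 hi).2 (co_zero h x)
    · exact absurd h0 (notMem_empty _)
    · exact Or.inl rfl

end Pool.Agent.MP_d6d24d_co.H35
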