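import Pool.Agent.MP_d6d24d_co.H35.Weak3

/-! Barnette's 3-sphere has no weakly convex dual realization. -/

namespace Pool.Agent.MP_d6d24d_co.H35

open Set Module

/-- The nineteen facets of Barnette's sphere. -/
def fac : Fin 19 → Finset (Fin 8) :=
  ![{0, 1, 2, 3}, {0, 1, 2, 4}, {1, 2, 3, 4}, {0, 2, 3, 5}, {0, 2, 4, 5}, {0, 1, 3, 6},
    {0, 1, 4, 6}, {0, 3, 5, 6}, {1, 3, 5, 6}, {0, 4, 5, 6}, {2, 4, 5, 6}, {1, 3, 4, 7},
    {2, 3, 4, 7}, {1, 3, 5, 7}, {2, 3, 5, 7}, {1, 4, 6, 7}, {2, 4, 6, 7}, {1, 5, 6, 7},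
    {2, 5, 6, 7}]

/-- The faces of Barnette's sphere. -/
def SB (σ : Finset (Fin 8)) : Prop := ∃ t : Fin 19, σ ⊆ fac t

instance : DecidablePred SB := fun σ => inferInstanceAs (Decidable (∃ t : Fin 19, σ ⊆ fac t))

namespace WR

variable {W : Type*} [NormedAddCommGroup W] [NormedSpace ℝ W] (X : WR W SB)
  [FiniteDimensional ℝ W]

omit [FiniteDimensional ℝ W] in
theorem mC {σ τ : Finset (Fin 8)} {w : W} (hw : w ∈ X.P) (hs : X.s w = τ) (h : σ ⊆ τ) :
    w ∈ X.C σ := ⟨hw, hs ▸ h⟩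

theorem verA
    (n0a : X.L {3, 1} ≠ X.L {4, 1})
    (n0b : X.L {3, 1} ≠ X.L {6, 1})
    (n1a : X.L {2, 4} ≠ X.L {6, 4})
    (n1b : X.L {2, 4} ≠ X.L {1, 4})
    (n2a : X.L {5, 6} ≠ X.L {1, 6})
    (n2b : X.L {5, 6} ≠ X.L {4, 6}) :
    X.L {2, 1} = X.L {3, 1} ∧
    X.L {2, 4} = X.L {3, 4} ∧
    X.L {5, 4} = X.L {2, 4} ∧
    X.L {5, 6} = X.L {2, 6} ∧
    X.L {3, 6} = X.L {5, 6} ∧
    X.L {3, 1} = X.L {5, 1} := by
  obtain ⟨T, hT, sT⟩ := X.ex {0, 1, 4, 6} (by decide)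
  obtain ⟨B, hB, sB⟩ := X.ex {1, 4, 6, 7} (by decide)
  obtain ⟨a0, ha0, sa0⟩ := X.ex {1, 2, 3, 4} (by decide)
  obtain ⟨Q0, hQ0, sQ0⟩ := X.ex {0, 1, 2, 4} (by decide)
  obtain ⟨R0, hR0, sR0⟩ := X.ex {1, 3, 4, 7} (by decide)
  obtain ⟨p0, hp0, sp0⟩ := X.ex {0, 1, 2, 3} (by decide)
  obtain ⟨q0, hq0, sq0⟩ := X.ex {2, 3, 4, 7} (by decide)
  obtain ⟨a1, ha1, sa1⟩ := X.ex {2, 4, 5, 6} (by decide)
  obtain ⟨Q1, hQ1, sQ1⟩ := X.ex {0, 4, 5, 6} (by decide)
  obtain ⟨R1, hR1, sR1⟩ := X.ex {2, 4, 6, 7} (by decide)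
  obtain ⟨p1, hp1, sp1⟩ := X.ex {0, 2, 4, 5} (by decide)
  obtain ⟨q1, hq1, sq1⟩ := X.ex {2, 5, 6, 7} (by decide)
  obtain ⟨a2, ha2, sa2⟩ := X.ex {1, 3, 5, 6} (by decide)
  obtain ⟨Q2, hQ2, sQ2⟩ := X.ex {0, 1, 3, 6} (by decide)
  obtain ⟨R2, hR2, sR2⟩ := X.ex {1, 5, 6, 7} (by decide)
  obtain ⟨p2, hp2, sp2⟩ := X.ex {0, 3, 5, 6} (by decide)
  obtain ⟨q2, hq2, sq2⟩ := X.ex {1, 3, 5, 7} (by decide)
  obtain ⟨f0, hf0⟩ := X.exists_supp' (σ := {1}) (i := 3) (by decide) (by decide)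
  obtain ⟨f1, hf1⟩ := X.exists_supp' (σ := {4}) (i := 2) (by decide) (by decide)
  obtain ⟨f2, hf2⟩ := X.exists_supp' (σ := {6}) (i := 5) (by decide) (by decide)
  have A0 := X.restrict (ρ := {4, 1}) (by decide) (by decide) (by decide) rfl (by decide) hf0 n0a
  have B0 := X.restrict (ρ := {4, 1}) (by decide) (by decide) (by decide) (by decide) (by decide) hf1 n1b
  have A1 := X.restrict (ρ := {6, 4}) (by decide) (by decide) (by decide) rfl (by decide) hf1 n1a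
  have B1 := X.restrict (ρ := {6, 4}) (by decide) (by decide) (by decide) (by decide) (by decide) hf2 n2b
  have A2 := X.restrict (ρ := {1, 6}) (by decide) (by decide) (by decide) rfl (by decide) hf2 n2a
  have B2 := X.restrict (ρ := {1, 6}) (by decide) (by decide) (by decide) (by decide) (by decide) hf0 n0b
  have D0 := X.defined (by decide) (by decide) (by decide) (by decide) A0 B2 (X.mC hT sT (by decide)) (X.mC hT sT (by decide))
    (X.mC hB sB (by decide)) (X.mC hB sB (by decide)) (by rw [sT, sB]; decide)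
    (X.mC ha0 sa0 (by decide)) (X.mC ha2 sa2 (by decide)) (by rw [sT, sa0, sa2]; decide)
  have D1 := X.defined (by decide) (by decide) (by decide) (by decide) A1 B0 (X.mC hT sT (by decide)) (X.mC hT sT (by decide))
    (X.mC hB sB (by decide)) (X.mC hB sB (by decide)) (by rw [sT, sB]; decide)
    (X.mC ha1 sa1 (by decide)) (X.mC ha0 sa0 (by decide)) (by rw [sT, sa1, sa0]; decide)
  have D2 := X.defined (by decide) (by decide) (by decide) (by decide) A2 B1 (X.mC hT sT (by decide)) (X.mC hT sT (by decide))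
    (X.mC hB sB (by decide)) (X.mC hB sB (by decide)) (by rw [sT, sB]; decide)
    (X.mC ha2 sa2 (by decide)) (X.mC ha1 sa1 (by decide)) (by rw [sT, sa2, sa1]; decide)
  have P0 := X.penta (z := 6) (u := 0) (by decide) (by decide) (by decide) (by decide) (by decide)
    (X.mC hT sT (by decide)) (X.mC hT sT (by decide)) (X.mC hB sB (by decide))
    (X.mC hQ0 sQ0 (by decide)) (X.mC hQ0 sQ0 (by decide)) (X.mC ha0 sa0 (by decide))
    (X.mC ha0 sa0 (by decide)) (by rw [sB]; decide) (by rw [sa0]; decide) (by rw [sa0]; decide) A0 B0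
  have t0 := hf0.1 T (X.mC hT sT (by decide))
  have b0 := hf0.1 B (X.mC hB sB (by decide))
  have P1 := X.penta (z := 1) (u := 0) (by decide) (by decide) (by decide) (by decide) (by decide)
    (X.mC hT sT (by decide)) (X.mC hT sT (by decide)) (X.mC hB sB (by decide))
    (X.mC hQ1 sQ1 (by decide)) (X.mC hQ1 sQ1 (by decide)) (X.mC ha1 sa1 (by decide))
    (X.mC ha1 sa1 (by decide)) (by rw [sB]; decide) (by rw [sa1]; decide) (by rw [sa1]; decide) A1 B1
  have t1 := hf1.1 T (X.mC hT sT (by decide))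
  have b1 := hf1.1 B (X.mC hB sB (by decide))
  have P2 := X.penta (z := 4) (u := 0) (by decide) (by decide) (by decide) (by decide) (by decide)
    (X.mC hT sT (by decide)) (X.mC hT sT (by decide)) (X.mC hB sB (by decide))
    (X.mC hQ2 sQ2 (by decide)) (X.mC hQ2 sQ2 (by decide)) (X.mC ha2 sa2 (by decide))
    (X.mC ha2 sa2 (by decide)) (by rw [sB]; decide) (by rw [sa2]; decide) (by rw [sa2]; decide) A2 B2
  have t2 := hf2.1 T (X.mC hT sT (by decide))
  have b2 := hf2.1 B (X.mC hB sB (by decide))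
  have E0 := (P0.2 (cyc3 t0 b0 t1 b1 t2 b2 D2 P0.1 P1.1 P2.1)).resolve_right
    (X.penta_fix (by decide) (X.mC hT sT (by decide)) (X.mC hB sB (by decide)) ha0
      (sa0.trans (by decide)) A0 B0 D0 D1)
  have E1 := (P1.2 (cyc3 t1 b1 t2 b2 t0 b0 D0 P1.1 P2.1 P0.1)).resolve_right
    (X.penta_fix (by decide) (X.mC hT sT (by decide)) (X.mC hB sB (by decide)) ha1
      (sa1.trans (by decide)) A1 B1 D1 D2)
  have E2 := (P2.2 (cyc3 t2 b2 t0 b0 t1 b1 D1 P2.1 P0.1 P1.1)).resolve_right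
    (X.penta_fix (by decide) (X.mC hT sT (by decide)) (X.mC hB sB (by decide)) ha2
      (sa2.trans (by decide)) A2 B2 D2 D0)
  exact ⟨X.lift (x := 1) (by decide) (by decide) (by decide) (by decide) E0 (X.mC hp0 sp0 (by decide))
      (X.mC hp0 sp0 (by decide)) (X.mC ha0 sa0 (by decide)) (Or.inl (X.mC hQ0 sQ0 (by decide)))
      (by rw [sp0, sa0, sQ0]; decide),
    X.lift (x := 4) (by decide) (by decide) (by decide) (by decide) E0 (X.mC hq0 sq0 (by decide))
      (X.mC hq0 sq0 (by decide)) (X.mC ha0 sa0 (by decide)) (Or.inr (X.mC hR0 sR0 (by decide)))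
      (by rw [sq0, sa0, sR0]; decide),
    X.lift (x := 4) (by decide) (by decide) (by decide) (by decide) E1 (X.mC hp1 sp1 (by decide))
      (X.mC hp1 sp1 (by decide)) (X.mC ha1 sa1 (by decide)) (Or.inl (X.mC hQ1 sQ1 (by decide)))
      (by rw [sp1, sa1, sQ1]; decide),
    X.lift (x := 6) (by decide) (by decide) (by decide) (by decide) E1 (X.mC hq1 sq1 (by decide))
      (X.mC hq1 sq1 (by decide)) (X.mC ha1 sa1 (by decide)) (Or.inr (X.mC hR1 sR1 (by decide)))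
      (by rw [sq1, sa1, sR1]; decide),
    X.lift (x := 6) (by decide) (by decide) (by decide) (by decide) E2 (X.mC hp2 sp2 (by decide))
      (X.mC hp2 sp2 (by decide)) (X.mC ha2 sa2 (by decide)) (Or.inl (X.mC hQ2 sQ2 (by decide)))
      (by rw [sp2, sa2, sQ2]; decide),
    X.lift (x := 1) (by decide) (by decide) (by decide) (by decide) E2 (X.mC hq2 sq2 (by decide))
      (X.mC hq2 sq2 (by decide)) (X.mC ha2 sa2 (by decide)) (Or.inr (X.mC hR2 sR2 (by decide)))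
      (by rw [sq2, sa2, sR2]; decide)⟩

theorem verB
    (n0a : X.L {1, 3} ≠ X.L {5, 3})
    (n0b : X.L {1, 3} ≠ X.L {2, 3})
    (n1a : X.L {6, 5} ≠ X.L {2, 5})
    (n1b : X.L {6, 5} ≠ X.L {3, 5})
    (n2a : X.L {4, 2} ≠ X.L {3, 2})
    (n2b : X.L {4, 2} ≠ X.L {5, 2}) :
    X.L {6, 3} = X.L {1, 3} ∧
    X.L {6, 5} = X.L {1, 5} ∧
    X.L {4, 5} = X.L {6, 5} ∧
    X.L {4, 2} = X.L {6, 2} ∧
    X.L {1, 2} = X.L {4, 2} ∧
    X.L {1, 3} = X.L {4, 3} := by
  obtain ⟨T, hT, sT⟩ := X.ex {0, 2, 3, 5} (by decide)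
  obtain ⟨B, hB, sB⟩ := X.ex {2, 3, 5, 7} (by decide)
  obtain ⟨a0, ha0, sa0⟩ := X.ex {1, 3, 5, 6} (by decide)
  obtain ⟨Q0, hQ0, sQ0⟩ := X.ex {0, 3, 5, 6} (by decide)
  obtain ⟨R0, hR0, sR0⟩ := X.ex {1, 3, 5, 7} (by decide)
  obtain ⟨p0, hp0, sp0⟩ := X.ex {0, 1, 3, 6} (by decide)
  obtain ⟨q0, hq0, sq0⟩ := X.ex {1, 5, 6, 7} (by decide)
  obtain ⟨a1, ha1, sa1⟩ := X.ex {2, 4, 5, 6} (by decide)
  obtain ⟨Q1, hQ1, sQ1⟩ := X.ex {0, 2, 4, 5} (by decide)
  obtain ⟨R1, hR1, sR1⟩ := X.ex {2, 5, 6, 7} (by decide)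
  obtain ⟨p1, hp1, sp1⟩ := X.ex {0, 4, 5, 6} (by decide)
  obtain ⟨q1, hq1, sq1⟩ := X.ex {2, 4, 6, 7} (by decide)
  obtain ⟨a2, ha2, sa2⟩ := X.ex {1, 2, 3, 4} (by decide)
  obtain ⟨Q2, hQ2, sQ2⟩ := X.ex {0, 1, 2, 3} (by decide)
  obtain ⟨R2, hR2, sR2⟩ := X.ex {2, 3, 4, 7} (by decide)
  obtain ⟨p2, hp2, sp2⟩ := X.ex {0, 1, 2, 4} (by decide)
  obtain ⟨q2, hq2, sq2⟩ := X.ex {1, 3, 4, 7} (by decide)
  obtain ⟨f0, hf0⟩ := X.exists_supp' (σ := {3}) (i := 1) (by decide) (by decide)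
  obtain ⟨f1, hf1⟩ := X.exists_supp' (σ := {5}) (i := 6) (by decide) (by decide)
  obtain ⟨f2, hf2⟩ := X.exists_supp' (σ := {2}) (i := 4) (by decide) (by decide)
  have A0 := X.restrict (ρ := {5, 3}) (by decide) (by decide) (by decide) rfl (by decide) hf0 n0a
  have B0 := X.restrict (ρ := {5, 3}) (by decide) (by decide) (by decide) (by decide) (by decide) hf1 n1b
  have A1 := X.restrict (ρ := {2, 5}) (by decide) (by decide) (by decide) rfl (by decide) hf1 n1a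
  have B1 := X.restrict (ρ := {2, 5}) (by decide) (by decide) (by decide) (by decide) (by decide) hf2 n2b
  have A2 := X.restrict (ρ := {3, 2}) (by decide) (by decide) (by decide) rfl (by decide) hf2 n2a
  have B2 := X.restrict (ρ := {3, 2}) (by decide) (by decide) (by decide) (by decide) (by decide) hf0 n0b
  have D0 := X.defined (by decide) (by decide) (by decide) (by decide) A0 B2 (X.mC hT sT (by decide)) (X.mC hT sT (by decide))
    (X.mC hB sB (by decide)) (X.mC hB sB (by decide)) (by rw [sT, sB]; decide)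
    (X.mC ha0 sa0 (by decide)) (X.mC ha2 sa2 (by decide)) (by rw [sT, sa0, sa2]; decide)
  have D1 := X.defined (by decide) (by decide) (by decide) (by decide) A1 B0 (X.mC hT sT (by decide)) (X.mC hT sT (by decide))
    (X.mC hB sB (by decide)) (X.mC hB sB (by decide)) (by rw [sT, sB]; decide)
    (X.mC ha1 sa1 (by decide)) (X.mC ha0 sa0 (by decide)) (by rw [sT, sa1, sa0]; decide)
  have D2 := X.defined (by decide) (by decide) (by decide) (by decide) A2 B1 (X.mC hT sT (by decide)) (X.mC hT sT (by decide))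
    (X.mC hB sB (by decide)) (X.mC hB sB (by decide)) (by rw [sT, sB]; decide)
    (X.mC ha2 sa2 (by decide)) (X.mC ha1 sa1 (by decide)) (by rw [sT, sa2, sa1]; decide)
  have P0 := X.penta (z := 2) (u := 0) (by decide) (by decide) (by decide) (by decide) (by decide)
    (X.mC hT sT (by decide)) (X.mC hT sT (by decide)) (X.mC hB sB (by decide))
    (X.mC hQ0 sQ0 (by decide)) (X.mC hQ0 sQ0 (by decide)) (X.mC ha0 sa0 (by decide))
    (X.mC ha0 sa0 (by decide)) (by rw [sB]; decide) (by rw [sa0]; decide) (by rw [sa0]; decide) A0 B0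
  have t0 := hf0.1 T (X.mC hT sT (by decide))
  have b0 := hf0.1 B (X.mC hB sB (by decide))
  have P1 := X.penta (z := 3) (u := 0) (by decide) (by decide) (by decide) (by decide) (by decide)
    (X.mC hT sT (by decide)) (X.mC hT sT (by decide)) (X.mC hB sB (by decide))
    (X.mC hQ1 sQ1 (by decide)) (X.mC hQ1 sQ1 (by decide)) (X.mC ha1 sa1 (by decide))
    (X.mC ha1 sa1 (by decide)) (by rw [sB]; decide) (by rw [sa1]; decide) (by rw [sa1]; decide) A1 B1
  have t1 := hf1.1 T (X.mC hT sT (by decide))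
  have b1 := hf1.1 B (X.mC hB sB (by decide))
  have P2 := X.penta (z := 5) (u := 0) (by decide) (by decide) (by decide) (by decide) (by decide)
    (X.mC hT sT (by decide)) (X.mC hT sT (by decide)) (X.mC hB sB (by decide))
    (X.mC hQ2 sQ2 (by decide)) (X.mC hQ2 sQ2 (by decide)) (X.mC ha2 sa2 (by decide))
    (X.mC ha2 sa2 (by decide)) (by rw [sB]; decide) (by rw [sa2]; decide) (by rw [sa2]; decide) A2 B2
  have t2 := hf2.1 T (X.mC hT sT (by decide))
  have b2 := hf2.1 B (X.mC hB sB (by decide))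
  have E0 := (P0.2 (cyc3 t0 b0 t1 b1 t2 b2 D2 P0.1 P1.1 P2.1)).resolve_right
    (X.penta_fix (by decide) (X.mC hT sT (by decide)) (X.mC hB sB (by decide)) ha0
      (sa0.trans (by decide)) A0 B0 D0 D1)
  have E1 := (P1.2 (cyc3 t1 b1 t2 b2 t0 b0 D0 P1.1 P2.1 P0.1)).resolve_right
    (X.penta_fix (by decide) (X.mC hT sT (by decide)) (X.mC hB sB (by decide)) ha1
      (sa1.trans (by decide)) A1 B1 D1 D2)
  have E2 := (P2.2 (cyc3 t2 b2 t0 b0 t1 b1 D1 P2.1 P0.1 P1.1)).resolve_right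
    (X.penta_fix (by decide) (X.mC hT sT (by decide)) (X.mC hB sB (by decide)) ha2
      (sa2.trans (by decide)) A2 B2 D2 D0)
  exact ⟨X.lift (x := 3) (by decide) (by decide) (by decide) (by decide) E0 (X.mC hp0 sp0 (by decide))
      (X.mC hp0 sp0 (by decide)) (X.mC ha0 sa0 (by decide)) (Or.inl (X.mC hQ0 sQ0 (by decide)))
      (by rw [sp0, sa0, sQ0]; decide),
    X.lift (x := 5) (by decide) (by decide) (by decide) (by decide) E0 (X.mC hq0 sq0 (by decide))
      (X.mC hq0 sq0 (by decide)) (X.mC ha0 sa0 (by decide)) (Or.inr (X.mC hR0 sR0 (by decide)))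
      (by rw [sq0, sa0, sR0]; decide),
    X.lift (x := 5) (by decide) (by decide) (by decide) (by decide) E1 (X.mC hp1 sp1 (by decide))
      (X.mC hp1 sp1 (by decide)) (X.mC ha1 sa1 (by decide)) (Or.inl (X.mC hQ1 sQ1 (by decide)))
      (by rw [sp1, sa1, sQ1]; decide),
    X.lift (x := 2) (by decide) (by decide) (by decide) (by decide) E1 (X.mC hq1 sq1 (by decide))
      (X.mC hq1 sq1 (by decide)) (X.mC ha1 sa1 (by decide)) (Or.inr (X.mC hR1 sR1 (by decide)))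
      (by rw [sq1, sa1, sR1]; decide),
    X.lift (x := 2) (by decide) (by decide) (by decide) (by decide) E2 (X.mC hp2 sp2 (by decide))
      (X.mC hp2 sp2 (by decide)) (X.mC ha2 sa2 (by decide)) (Or.inl (X.mC hQ2 sQ2 (by decide)))
      (by rw [sp2, sa2, sQ2]; decide),
    X.lift (x := 3) (by decide) (by decide) (by decide) (by decide) E2 (X.mC hq2 sq2 (by decide))
      (X.mC hq2 sq2 (by decide)) (X.mC ha2 sa2 (by decide)) (Or.inr (X.mC hR2 sR2 (by decide)))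
      (by rw [sq2, sa2, sR2]; decide)⟩

end WR

end Pool.Agent.MP_d6d24d_co.H35
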