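import Mathlib

/-! Weakly convex realizations of the dual of a simplicial 3-sphere on eight vertices:
the abstract data and the general facts about them. -/

namespace Pool.Agent.MP_d6d24d_co.H35

open Set Module

/-- A compact convex set `P` (in the hyperplane `e = 1`) cut into relatively open convex pieces
labelled by the faces of a pure complex `S`. -/
structure WR (W : Type*) [NormedAddCommGroup W] [NormedSpace ℝ W]
    (S : Finset (Fin 8) → Prop) where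
  P : Set W
  s : W → Finset (Fin 8)
  e : W →ₗ[ℝ] ℝ
  down : ∀ σ τ, σ ⊆ τ → S τ → S σ
  pure : ∀ σ, S σ → σ.card < 4 → ∃ i, i ∉ σ ∧ S (insert i σ)
  rank : finrank ℝ (Submodule.span ℝ P) = 5
  e_one : ∀ x ∈ P, e x = 1
  cpt : IsCompact P
  mem : ∀ x ∈ P, S (s x)
  ex : ∀ σ, S σ → ∃ x ∈ P, s x = σ
  conv : ∀ σ, Convex ℝ {x | x ∈ P ∧ σ ⊆ s x}
  closed : ∀ σ, IsClosed {x | x ∈ P ∧ σ ⊆ s x}
  opn : ∀ x ∈ P, ∀ w ∈ Submodule.span ℝ {y | y ∈ P ∧ s x ⊆ s y}, e w = 0 →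
    ∃ ε : ℝ, 0 < ε ∧ x + ε • w ∈ P ∧ s x ⊆ s (x + ε • w)
  sep : ∀ x ∈ P, ∀ y ∈ P, s x ⊆ s y → s x ≠ s y →
    ∃ f : W →ₗ[ℝ] ℝ, (∀ z ∈ P, s x ⊆ s z → 0 ≤ f z) ∧ f y = 0 ∧ 0 < f x

namespace WR

variable {W : Type*} [NormedAddCommGroup W] [NormedSpace ℝ W] {S : Finset (Fin 8) → Prop}
  (X : WR W S)

/-- The closed cell of `σ`. -/
def C (σ : Finset (Fin 8)) : Set W := {x | x ∈ X.P ∧ σ ⊆ X.s x}

/-- The linear span of the closed cell of `σ`. -/
def L (σ : Finset (Fin 8)) : Submodule ℝ W := Submodule.span ℝ (X.C σ)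

theorem C_anti {σ τ : Finset (Fin 8)} (h : σ ⊆ τ) : X.C τ ⊆ X.C σ :=
  fun _ hx => ⟨hx.1, h.trans hx.2⟩

theorem L_anti {σ τ : Finset (Fin 8)} (h : σ ⊆ τ) : X.L τ ≤ X.L σ :=
  Submodule.span_mono (X.C_anti h)

theorem mem_L {σ : Finset (Fin 8)} {x : W} (hx : x ∈ X.P) (h : σ ⊆ X.s x) : x ∈ X.L σ :=
  Submodule.subset_span ⟨hx, h⟩

theorem C_empty : X.C ∅ = X.P := by
  ext x; simp [C]

theorem zero_on_L {σ : Finset (Fin 8)} {f : W →ₗ[ℝ] ℝ} (hf : ∀ z ∈ X.C σ, f z = 0) :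
    ∀ w ∈ X.L σ, f w = 0 := by
  intro w hw
  have : X.L σ ≤ LinearMap.ker f := Submodule.span_le.2 (fun z hz => hf z hz)
  exact this hw

/-- A functional that is nonnegative on a cell and vanishes at an inner point vanishes. -/
theorem vanish {σ : Finset (Fin 8)} {f : W →ₗ[ℝ] ℝ} (hf : ∀ z ∈ X.C σ, 0 ≤ f z) {x : W}
    (hx : x ∈ X.P) (hs : X.s x = σ) (h0 : f x = 0) : ∀ w ∈ X.L σ, f w = 0 := by
  apply X.zero_on_L
  intro y hy
  have hxL : x ∈ X.L σ := X.mem_L hx hs.ge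
  have hyL : y ∈ X.L σ := Submodule.subset_span hy
  have hw : x - y ∈ Submodule.span ℝ {y | y ∈ X.P ∧ X.s x ⊆ X.s y} := by
    rw [hs]; exact (X.L σ).sub_mem hxL hyL
  obtain ⟨ε, hε, h1, h2⟩ := X.opn x hx _ hw (by rw [map_sub, X.e_one x hx, X.e_one y hy.1, sub_self])
  have h3 := hf _ ⟨h1, hs ▸ h2⟩
  rw [map_add, map_smul, map_sub, h0, smul_eq_mul] at h3
  have h4 := hf y hy
  nlinarith

/-- A supporting functional of the cell of `σ` along the cell of `τ`. -/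
def Supp (σ τ : Finset (Fin 8)) (f : W →ₗ[ℝ] ℝ) : Prop :=
  (∀ z ∈ X.C σ, 0 ≤ f z) ∧ (∀ w ∈ X.L τ, f w = 0) ∧ ∀ x ∈ X.P, X.s x = σ → 0 < f x

theorem exists_supp {σ τ : Finset (Fin 8)} (hτ : S τ) (h : σ ⊆ τ) (hne : σ ≠ τ) :
    ∃ f, X.Supp σ τ f := by
  obtain ⟨x, hx, hsx⟩ := X.ex σ (X.down σ τ h hτ)
  obtain ⟨y, hy, hsy⟩ := X.ex τ hτ
  obtain ⟨f, h1, h2, h3⟩ := X.sep x hx y hy (by rw [hsx, hsy]; exact h) (by rw [hsx, hsy]; exact hne)
  have h1' : ∀ z ∈ X.C σ, 0 ≤ f z := fun z hz => h1 z hz.1 (hsx ▸ hz.2)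
  refine ⟨f, h1', X.vanish (fun z hz => h1' z (X.C_anti h hz)) hy hsy h2, fun x' hx' hs' => ?_⟩
  rcases (h1' x' ⟨hx', hs'.ge⟩).eq_or_lt with h0 | h0
  · have := X.vanish h1' hx' hs' h0.symm x (X.mem_L hx hsx.ge)
    linarith
  · exact h0

variable [FiniteDimensional ℝ W]

theorem rank_lt {σ τ : Finset (Fin 8)} (hτ : S τ) (h : σ ⊆ τ) (hne : σ ≠ τ) :
    finrank ℝ (X.L τ) < finrank ℝ (X.L σ) := by
  apply Submodule.finrank_lt_finrank_of_lt
  refine lt_of_le_of_ne (X.L_anti h) (fun heq => ?_)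
  obtain ⟨f, -, h2, h3⟩ := X.exists_supp hτ h hne
  obtain ⟨x, hx, hsx⟩ := X.ex σ (X.down σ τ h hτ)
  have := h2 x (heq ▸ X.mem_L hx hsx.ge)
  have := h3 x hx hsx
  linarith

theorem rank_le (σ : Finset (Fin 8)) (hσ : S σ) : finrank ℝ (X.L σ) + σ.card ≤ 5 := by
  induction σ using Finset.induction_on with
  | empty =>
    have : X.L ∅ = Submodule.span ℝ X.P := by rw [L, X.C_empty]
    rw [this, X.rank]; simp
  | insert i σ hi ih =>
    have h1 := ih (X.down _ _ (Finset.subset_insert _ _) hσ)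
    have h2 := X.rank_lt hσ (Finset.subset_insert i σ) (fun h => hi (h ▸ Finset.mem_insert_self i σ))
    rw [Finset.card_insert_of_notMem hi]
    omega

theorem rank_pos {σ : Finset (Fin 8)} (hσ : S σ) : 1 ≤ finrank ℝ (X.L σ) := by
  obtain ⟨x, hx, hsx⟩ := X.ex σ hσ
  have hx0 : x ≠ 0 := fun h => by simpa [h] using X.e_one x hx
  rw [Nat.one_le_iff_ne_zero, Ne, Submodule.finrank_eq_zero]
  intro h
  have := X.mem_L hx hsx.ge
  rw [h] at this
  exact hx0 ((Submodule.mem_bot ℝ).1 this)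

theorem rank_ge (n : ℕ) : ∀ σ : Finset (Fin 8), S σ → σ.card + n = 4 →
    n + 1 ≤ finrank ℝ (X.L σ) := by
  induction n with
  | zero => intro σ hσ _; exact X.rank_pos hσ
  | succ n ih =>
    intro σ hσ hc
    obtain ⟨i, hi, hS⟩ := X.pure σ hσ (by omega)
    have h1 := ih _ hS (by rw [Finset.card_insert_of_notMem hi]; omega)
    have h2 := X.rank_lt hS (Finset.subset_insert i σ) (fun h => hi (h ▸ Finset.mem_insert_self i σ))
    omega

theorem rank_eq {σ : Finset (Fin 8)} (hσ : S σ) : finrank ℝ (X.L σ) + σ.card = 5 := by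
  have h1 := X.rank_le σ hσ
  have h2 := X.rank_pos hσ
  have h3 := X.rank_ge (4 - σ.card) σ hσ (by omega)
  omega

theorem L_eq_of_le {σ τ : Finset (Fin 8)} (hσ : S σ) (hτ : S τ) (hc : σ.card = τ.card)
    (h : X.L σ ≤ X.L τ) : X.L σ = X.L τ := by
  apply Submodule.eq_of_le_of_finrank_le h
  have := X.rank_eq hσ
  have := X.rank_eq hτ
  omega

/-- The kernel of a supporting functional along a cell of codimension one. -/
theorem ker_mem {σ : Finset (Fin 8)} {i : Fin 8} (hi : i ∉ σ) (hS : S (insert i σ))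
    {f : W →ₗ[ℝ] ℝ} (h0 : ∀ w ∈ X.L (insert i σ), f w = 0) {x : W} (hx : x ∈ X.L σ)
    (hfx : f x ≠ 0) {w : W} (hw : w ∈ X.L σ) (hfw : f w = 0) : w ∈ X.L (insert i σ) := by
  have hσ := X.down _ _ (Finset.subset_insert i σ) hS
  have h1 : X.L (insert i σ) ≤ X.L σ ⊓ LinearMap.ker f :=
    le_inf (X.L_anti (Finset.subset_insert i σ)) (fun w hw => h0 w hw)
  have h2 : X.L σ ⊓ LinearMap.ker f < X.L σ := by
    refine lt_of_le_of_ne inf_le_left (fun h => hfx ?_)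
    have : x ∈ X.L σ ⊓ LinearMap.ker f := by rw [h]; exact hx
    exact this.2
  have h3 := Submodule.finrank_lt_finrank_of_lt h2
  have h4 := X.rank_eq hσ
  have h5 := X.rank_eq hS
  rw [Finset.card_insert_of_notMem hi] at h5
  have h6 := Submodule.eq_of_le_of_finrank_le h1 (by omega)
  rw [h6]
  exact ⟨hw, hfw⟩

theorem Supp.ker {σ : Finset (Fin 8)} {i : Fin 8} (hi : i ∉ σ) (hS : S (insert i σ))
    {f : W →ₗ[ℝ] ℝ} (hf : X.Supp σ (insert i σ) f) {w : W} (hw : w ∈ X.L σ) (hfw : f w = 0) :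
    w ∈ X.L (insert i σ) := by
  obtain ⟨x, hx, hsx⟩ := X.ex σ (X.down _ _ (Finset.subset_insert i σ) hS)
  exact X.ker_mem hi hS hf.2.1 (X.mem_L hx hsx.ge) (hf.2.2 x hx hsx).ne' hw hfw

omit [FiniteDimensional ℝ W] in
theorem exists_supp' {σ : Finset (Fin 8)} {i : Fin 8} (hi : i ∉ σ) (hS : S (insert i σ)) :
    ∃ f, X.Supp σ (insert i σ) f :=
  X.exists_supp hS (Finset.subset_insert i σ) (fun h => hi (h ▸ Finset.mem_insert_self i σ))

omit [FiniteDimensional ℝ W] in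
theorem near (x y : W) (hx : x ∈ X.P) (hy : y ∈ X.P) :
    ∃ t : ℝ, 0 < t ∧ t < 1 ∧ X.s ((1 - t) • x + t • y) ⊆ X.s x := by
  have hc : Continuous (fun t : ℝ => (1 - t) • x + t • y) := by fun_prop
  have h1 : ∀ j : Fin 8, ∀ᶠ t : ℝ in nhds 0, j ∉ X.s x → (1 - t) • x + t • y ∉ X.C {j} := by
    intro j
    by_cases hj : j ∈ X.s x
    · simp [hj]
    · have hn : (X.C {j})ᶜ ∈ nhds ((fun t : ℝ => (1 - t) • x + t • y) 0) := by
        apply (X.closed {j}).isOpen_compl.mem_nhds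
        simp [hj]
      filter_upwards [hc.continuousAt hn] with t ht _ using ht
  have h2 := (Filter.eventually_all.2 h1).filter_mono (nhdsWithin_le_nhds (s := Ioo (0 : ℝ) 1))
  have : (nhdsWithin (0 : ℝ) (Ioo 0 1)).NeBot := left_nhdsWithin_Ioo_neBot one_pos
  obtain ⟨t, ht, ht'⟩ := (h2.and self_mem_nhdsWithin).exists
  refine ⟨t, ht'.1, ht'.2, fun j hj => ?_⟩
  by_contra hj'
  refine ht j hj' ⟨?_, by simpa using hj⟩
  have := X.conv ∅ (x := x) (y := y) ⟨hx, by simp⟩ ⟨hy, by simp⟩ (a := 1 - t) (b := t)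
    (by linarith [ht'.2]) ht'.1.le (by ring)
  exact this.1

/-- A point of the cell of `σ` in the span of the cell of `insert i σ` lies in a cell with the
same span. -/
theorem cls {σ : Finset (Fin 8)} {i : Fin 8} (hi : i ∉ σ) (hS : S (insert i σ)) {x : W}
    (hx : x ∈ X.C σ) (hxL : x ∈ X.L (insert i σ)) :
    ∃ k ∈ X.s x, k ∉ σ ∧ X.L (insert k σ) = X.L (insert i σ) := by
  by_contra hcon
  push Not at hcon
  obtain ⟨y, hy, hsy⟩ := X.ex _ hS
  obtain ⟨f, hf⟩ := X.exists_supp' hi hS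
  obtain ⟨t, ht0, ht1, hsub⟩ := X.near x y hx.1 hy
  have hyσ : y ∈ X.C σ := ⟨hy, hsy ▸ Finset.subset_insert i σ⟩
  have hz : (1 - t) • x + t • y ∈ X.C σ :=
    X.conv σ hx hyσ (by linarith) ht0.le (by ring)
  set z := (1 - t) • x + t • y with hzdef
  have hfz : f z = 0 := by
    rw [hzdef, map_add, map_smul, map_smul, hf.2.1 x hxL, hf.2.1 y (X.mem_L hy hsy.ge)]
    simp
  have hne : X.s z ≠ σ := fun h => (hf.2.2 z hz.1 h).ne' hfz
  obtain ⟨k, hk, hkσ⟩ : ∃ k ∈ X.s z, k ∉ σ := by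
    by_contra h
    push Not at h
    exact hne (Finset.Subset.antisymm h hz.2)
  have hkx := hsub hk
  have hSk : S (insert k σ) :=
    X.down _ _ (Finset.insert_subset hkx hx.2) (X.mem x hx.1)
  obtain ⟨g, hg⟩ := X.exists_supp' hkσ hSk
  have hgx : g x = 0 := hg.2.1 x (X.mem_L hx.1 (Finset.insert_subset hkx hx.2))
  have hgz : g z = 0 := hg.2.1 z (X.mem_L hz.1 (Finset.insert_subset hk hz.2))
  have hgy : g y = 0 := by
    rw [hzdef, map_add, map_smul, map_smul, hgx, smul_eq_mul, smul_eq_mul] at hgz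
    have : t * g y = 0 := by linarith
    exact (mul_eq_zero.1 this).resolve_left ht0.ne'
  have h1 := X.vanish (fun z hz => hg.1 z (X.C_anti (Finset.subset_insert i σ) hz)) hy hsy hgy
  have h2 : X.L (insert i σ) ≤ X.L (insert k σ) := fun w hw =>
    hg.ker X hkσ hSk (X.L_anti (Finset.subset_insert i σ) hw) (h1 w hw)
  exact hcon k hkx hkσ (X.L_eq_of_le hS hSk (by
    rw [Finset.card_insert_of_notMem hi, Finset.card_insert_of_notMem hkσ]) h2).symm

end WR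

end Pool.Agent.MP_d6d24d_co.H35
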