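import Pool.Agent.MP_d6d24d_co.H35.Weak

/-! Coplanarity rules in a weakly convex realization. -/

namespace Pool.Agent.MP_d6d24d_co.H35

open Set Module

theorem berge3 {W : Type*} [NormedAddCommGroup W] [NormedSpace ℝ W] {A B D U : Set W}
    (hA : Convex ℝ A) (hB : Convex ℝ B) (hD : Convex ℝ D) (hU : Convex ℝ U)
    (hAc : IsCompact A) (hBc : IsClosed B) (hDc : IsClosed D) (hAU : A ⊆ U) (hBU : B ⊆ U)
    (hcov : U ⊆ A ∪ B ∪ D) {p q r : W} (hp : p ∈ A ∩ B) (hq : q ∈ A ∩ D) (hr : r ∈ B ∩ D) :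
    (A ∩ B ∩ D).Nonempty := by
  by_contra hne
  have hdis : Disjoint (A ∩ B) D := by
    rw [Set.disjoint_iff_inter_eq_empty]; exact not_nonempty_iff_eq_empty.1 hne
  obtain ⟨f, u, v, hu, huv, hv⟩ := geometric_hahn_banach_compact_closed (hA.inter hB)
    (hAc.inter_right hBc) hD hDc hdis
  have key : ∀ {Z : Set W} {y : W}, Convex ℝ Z → p ∈ Z → y ∈ Z → y ∈ D → ∃ z ∈ Z, f z = u := by
    intro Z y hZ hpZ hyZ hyD
    have h1 := hu p hp
    have h2 := hv y hyD
    have hd : 0 < f y - f p := by linarith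
    refine ⟨_, hZ hpZ hyZ (a := (f y - u) / (f y - f p)) (b := (u - f p) / (f y - f p))
      (div_nonneg (by linarith) hd.le) (div_nonneg (by linarith) hd.le) (by field_simp; ring), ?_⟩
    rw [map_add, map_smul, map_smul, smul_eq_mul, smul_eq_mul]
    field_simp
    ring
  obtain ⟨y, hy, hfy⟩ := key hA hp.1 hq.1 hq.2
  obtain ⟨z, hz, hfz⟩ := key hB hp.2 hr.1 hr.2
  have hV : Convex ℝ (U ∩ {w | f w = u}) := hU.inter (convex_hyperplane f.isLinear u)
  obtain ⟨w, hw, hwA, hwB⟩ := isPreconnected_closed_iff.1 hV.isPreconnected A B hAc.isClosed hBc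
    (fun w hw => by
      rcases hcov hw.1 with h | h
      · exact h
      · have := hv w h
        have h2 : f w = u := hw.2
        linarith) ⟨y, ⟨hAU hy, hfy⟩, hy⟩ ⟨z, ⟨hBU hz, hfz⟩, hz⟩
  have h1 := hu w ⟨hwA, hwB⟩
  have h2 : f w = u := hw.2
  linarith

theorem cyc3 {a1 b1 a2 b2 a3 b3 : ℝ} (ha1 : 0 ≤ a1) (hb1 : 0 ≤ b1) (ha2 : 0 ≤ a2) (hb2 : 0 ≤ b2)
    (ha3 : 0 ≤ a3) (hb3 : 0 ≤ b3) (h3 : ¬ (a3 = 0 ∧ b3 = 0))
    (h12 : a2 * b1 ≤ a1 * b2) (h23 : a3 * b2 ≤ a2 * b3) (h31 : a1 * b3 ≤ a3 * b1) :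
    a2 * b1 = a1 * b2 := by
  have hs : 0 < a3 + b3 := by
    rcases ha3.eq_or_lt with h | h
    · rcases hb3.eq_or_lt with h' | h'
      · exact absurd ⟨h.symm, h'.symm⟩ h3
      · linarith
    · linarith
  have hid : (a1 * b2 - a2 * b1) * (a3 + b3) + (a2 * b3 - a3 * b2) * (a1 + b1) +
      (a3 * b1 - a1 * b3) * (a2 + b2) = 0 := by ring
  have h1 : 0 ≤ (a2 * b3 - a3 * b2) * (a1 + b1) := mul_nonneg (by linarith) (by linarith)
  have h2 : 0 ≤ (a3 * b1 - a1 * b3) * (a2 + b2) := mul_nonneg (by linarith) (by linarith)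
  have h4 : (a1 * b2 - a2 * b1) * (a3 + b3) ≤ 0 := by linarith
  have h5 : a1 * b2 - a2 * b1 ≤ 0 := by
    by_contra h
    push Not at h
    nlinarith
  linarith

namespace WR

variable {W : Type*} [NormedAddCommGroup W] [NormedSpace ℝ W] {S : Finset (Fin 8) → Prop}
  (X : WR W S)

theorem convC (σ : Finset (Fin 8)) : Convex ℝ (X.C σ) := X.conv σ

theorem closedC (σ : Finset (Fin 8)) : IsClosed (X.C σ) := X.closed σ

theorem cptC (σ : Finset (Fin 8)) : IsCompact (X.C σ) :=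
  X.cpt.of_isClosed_subset (X.closed σ) (fun _ h => h.1)

theorem sub_of_comb {a b c : W} (ha : a ∈ X.P) (hb : b ∈ X.P) {p q : ℝ} (hp : 0 ≤ p) (hq : 0 ≤ q)
    (hpq : p + q = 1) (h : c = p • a + q • b) : X.s a ∩ X.s b ⊆ X.s c := by
  have := X.conv (X.s a ∩ X.s b) (x := a) (y := b) ⟨ha, Finset.inter_subset_left⟩
    ⟨hb, Finset.inter_subset_right⟩ hp hq hpq
  rw [h]; exact this.2

variable [FiniteDimensional ℝ W]

theorem span_two {a b : W} (ha : a ∈ X.P) (hb : b ∈ X.P) (hab : a ≠ b) {U : Submodule ℝ W}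
    (hU : finrank ℝ U ≤ 2) (haU : a ∈ U) (hbU : b ∈ U) {w : W} (hw : w ∈ U) :
    ∃ p q : ℝ, w = p • a + q • b := by
  have li : LinearIndependent ℝ ![a, b] := by
    rw [LinearIndependent.pair_iff]
    intro s t hst
    have h1 := congrArg X.e hst
    rw [map_add, map_smul, map_smul, X.e_one a ha, X.e_one b hb, map_zero] at h1
    have h2 : t = -s := by simp only [smul_eq_mul] at h1; linarith
    subst h2
    have h3 : s • (a - b) = 0 := by rw [← hst]; module
    have h4 := (smul_eq_zero.1 h3).resolve_right (sub_ne_zero.2 hab)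
    simp [h4]
  have h1 := finrank_span_eq_card li
  have h2 : Submodule.span ℝ (range ![a, b]) ≤ U := by
    rw [Submodule.span_le]; rintro _ ⟨i, rfl⟩; fin_cases i <;> simpa
  have h3 := Submodule.eq_of_le_of_finrank_le h2 (by rw [h1]; simpa using hU)
  rw [← h3, Submodule.mem_span_range_iff_exists_fun] at hw
  obtain ⟨c, hc⟩ := hw
  exact ⟨c 0, c 1, by rw [← hc]; simp [Fin.sum_univ_two]⟩

theorem span_three {a b c : W}
    (hind : ∀ p q r : ℝ, p • a + q • b + r • c = 0 → p = 0 ∧ q = 0 ∧ r = 0) {U : Submodule ℝ W}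
    (hU : finrank ℝ U ≤ 3) (haU : a ∈ U) (hbU : b ∈ U) (hcU : c ∈ U) {w : W} (hw : w ∈ U) :
    ∃ p q r : ℝ, w = p • a + q • b + r • c := by
  have li : LinearIndependent ℝ ![a, b, c] := by
    rw [Fintype.linearIndependent_iff]
    intro g hg i
    obtain ⟨h0, h1, h2⟩ := hind (g 0) (g 1) (g 2) (by rw [← hg]; simp [Fin.sum_univ_three])
    fin_cases i <;> simpa
  have h1 := finrank_span_eq_card li
  have h2 : Submodule.span ℝ (range ![a, b, c]) ≤ U := by
    rw [Submodule.span_le]; rintro _ ⟨i, rfl⟩; fin_cases i <;> simpa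
  have h3 := Submodule.eq_of_le_of_finrank_le h2 (by rw [h1]; simpa using hU)
  rw [← h3, Submodule.mem_span_range_iff_exists_fun] at hw
  obtain ⟨g, hg⟩ := hw
  exact ⟨g 0, g 1, g 2, by rw [← hg]; simp [Fin.sum_univ_three]⟩

/-- Of three collinear points one lies between the other two. -/
theorem between {a b c : W} (ha : a ∈ X.P) (hb : b ∈ X.P) (hc : c ∈ X.P) {U : Submodule ℝ W}
    (hU : finrank ℝ U ≤ 2) (haU : a ∈ U) (hbU : b ∈ U) (hcU : c ∈ U) :
    X.s a ∩ X.s b ⊆ X.s c ∨ X.s a ∩ X.s c ⊆ X.s b ∨ X.s b ∩ X.s c ⊆ X.s a := by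
  by_cases hab : a = b
  · right; left; rw [hab]; exact Finset.inter_subset_left
  obtain ⟨p, q, h⟩ := X.span_two ha hb hab hU haU hbU hcU
  have hpq : p + q = 1 := by
    have := congrArg X.e h
    rw [map_add, map_smul, map_smul, X.e_one a ha, X.e_one b hb, X.e_one c hc] at this
    simp only [smul_eq_mul] at this; linarith
  rcases lt_or_ge p 0 with hp | hp
  · right; left
    have hq : 0 < q := by linarith
    refine X.sub_of_comb ha hc (p := -p / q) (q := 1 / q) (div_nonneg (by linarith) hq.le)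
      (by positivity) (by field_simp; linarith) ?_
    rw [h]
    match_scalars <;> (field_simp; try ring)
  rcases lt_or_ge q 0 with hq | hq
  · right; right
    have hp' : 0 < p := by linarith
    refine X.sub_of_comb hb hc (p := -q / p) (q := 1 / p) (div_nonneg (by linarith) hp'.le)
      (by positivity) (by field_simp; linarith) ?_
    rw [h]
    match_scalars <;> (field_simp; try ring)
  · left; exact X.sub_of_comb ha hb hp hq hpq h

theorem ruleL1 {x j k : Fin 8} (hj : S {j, x}) (hk : S {k, x})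
    (h : X.L {j, x} = X.L {k, x}) : X.L {j} = X.L {k} := by
  have aux : ∀ {j k : Fin 8}, S {j, x} → S {k, x} → X.L {j, x} = X.L {k, x} →
      X.L {j} = X.L {k} ∨ X.L {x} = X.L {k} := by
    intro j k hj hk h
    obtain ⟨y, hy, hsy⟩ := X.ex _ hj
    have h1 : y ∈ X.L (insert k ∅) :=
      X.L_anti (by simp) (h ▸ X.mem_L hy hsy.ge : y ∈ X.L {k, x})
    obtain ⟨u, hu, -, hu2⟩ := X.cls (σ := ∅) (i := k) (by simp) (X.down _ _ (by simp) hk)
      (x := y) ⟨hy, by simp⟩ h1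
    rw [hsy] at hu
    simp only [Finset.mem_insert, Finset.mem_singleton] at hu
    rcases hu with rfl | rfl
    · left; simpa using hu2
    · right; simpa using hu2
  rcases aux hj hk h with h1 | h1
  · exact h1
  rcases aux hk hj h.symm with h2 | h2
  · exact h2.symm
  · rw [← h1, ← h2]

theorem ruleEdge {x u v j k : Fin 8} (hc : ({u, v, x} : Finset (Fin 8)).card = 3)
    (hj : S {j, u, v, x}) (hk : S {k, u, v, x}) (hjx : j ≠ x)
    (hne : ({j, u, v, x} : Finset (Fin 8)) ≠ {k, u, v, x})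
    (h : X.L {j, x} = X.L {k, x}) : X.L {j, x} = X.L {u, x} ∨ X.L {j, x} = X.L {v, x} := by
  have hε : S {u, v, x} := X.down _ _ (Finset.subset_insert _ _) hj
  obtain ⟨a, ha, hsa⟩ := X.ex _ hj
  obtain ⟨b, hb, hsb⟩ := X.ex _ hk
  obtain ⟨m, hm, hsm⟩ := X.ex _ hε
  have hab : a ≠ b := fun h => hne (by rw [← hsa, ← hsb, h])
  have hr := X.rank_eq hε
  obtain ⟨p, q, hpq⟩ := X.span_two ha hb hab (U := X.L {u, v, x}) (by omega)
    (X.mem_L ha (by rw [hsa]; exact Finset.subset_insert _ _))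
    (X.mem_L hb (by rw [hsb]; exact Finset.subset_insert _ _)) (X.mem_L hm hsm.ge)
  have hmL : m ∈ X.L {j, x} := by
    rw [hpq]
    refine Submodule.add_mem _ (Submodule.smul_mem _ _ (X.mem_L ha ?_))
      (Submodule.smul_mem _ _ (h ▸ X.mem_L hb ?_))
    · rw [hsa]; intro t; simp only [Finset.mem_insert, Finset.mem_singleton]; tauto
    · rw [hsb]; intro t; simp only [Finset.mem_insert, Finset.mem_singleton]; tauto
  obtain ⟨t, ht, htx, ht2⟩ := X.cls (σ := {x}) (i := j) (by simpa using hjx)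
    (X.down _ _ (by intro t; simp only [Finset.mem_insert, Finset.mem_singleton]; tauto) hj)
    (x := m) ⟨hm, by rw [hsm]; simp⟩ hmL
  rw [hsm] at ht
  simp only [Finset.mem_insert, Finset.mem_singleton] at ht htx
  rcases ht with rfl | rfl | rfl
  · left; exact ht2.symm
  · right; exact ht2.symm
  · exact absurd rfl htx

theorem ruleBerge {x y z w : Fin 8} (hyx : y ≠ x) (h1 : S {y, z, x}) (h2 : S {y, w, x})
    (h3 : S {z, w, x}) (h4 : ¬ S {y, z, w, x}) (e1 : X.L {y, x} = X.L {z, x})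
    (ho : ∀ u, S {u, x} → u ≠ x → X.L {y, x} = X.L {u, x} → u = y ∨ u = z ∨ u = w) : False := by
  have hyS : S {y, x} := X.down _ _ (by intro t; simp only [Finset.mem_insert, Finset.mem_singleton]; tauto) h1
  obtain ⟨p, hp, hsp⟩ := X.ex _ h1
  obtain ⟨q, hq, hsq⟩ := X.ex _ h2
  obtain ⟨r, hr, hsr⟩ := X.ex _ h3
  obtain ⟨t, ⟨ht1, ht2⟩, ht3⟩ := berge3 (A := X.C {y, x}) (B := X.C {z, x}) (D := X.C {w, x})
    (U := X.C {x} ∩ (X.L {y, x} : Set W)) (X.convC _) (X.convC _) (X.convC _)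
    ((X.convC _).inter (X.L {y, x}).convex) (X.cptC _) (X.closedC _) (X.closedC _)
    (fun a ha => ⟨X.C_anti (by simp) ha, Submodule.subset_span ha⟩)
    (fun a ha => ⟨X.C_anti (by simp) ha, e1 ▸ Submodule.subset_span ha⟩)
    (fun a ha => by
      obtain ⟨k, hk, hkx, hk2⟩ := X.cls (σ := {x}) (i := y) (by simpa using hyx) hyS ha.1 ha.2
      have hsub : ({k, x} : Finset (Fin 8)) ⊆ X.s a := Finset.insert_subset hk ha.1.2
      rcases ho k (X.down _ _ hsub (X.mem a ha.1.1)) (by simpa using hkx) hk2.symm with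
        rfl | rfl | rfl
      · exact Or.inl (Or.inl ⟨ha.1.1, hsub⟩)
      · exact Or.inl (Or.inr ⟨ha.1.1, hsub⟩)
      · exact Or.inr ⟨ha.1.1, hsub⟩)
    (p := p) (q := q) (r := r)
    ⟨⟨hp, by rw [hsp]; intro t; simp only [Finset.mem_insert, Finset.mem_singleton]; tauto⟩,
      ⟨hp, by rw [hsp]; intro t; simp only [Finset.mem_insert, Finset.mem_singleton]; tauto⟩⟩
    ⟨⟨hq, by rw [hsq]; intro t; simp only [Finset.mem_insert, Finset.mem_singleton]; tauto⟩,
      ⟨hq, by rw [hsq]; intro t; simp only [Finset.mem_insert, Finset.mem_singleton]; tauto⟩⟩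
    ⟨⟨hr, by rw [hsr]; intro t; simp only [Finset.mem_insert, Finset.mem_singleton]; tauto⟩,
      ⟨hr, by rw [hsr]; intro t; simp only [Finset.mem_insert, Finset.mem_singleton]; tauto⟩⟩
  apply h4
  refine X.down _ _ ?_ (X.mem t ht1.1)
  refine Finset.insert_subset (ht1.2 (by simp)) (Finset.insert_subset (ht2.2 (by simp)) ht3.2)

theorem ruleFive (h1 : ∀ i : Fin 8, S {i}) (a b c d : Fin 8)
    (h : ∀ i : Fin 8, X.L {i} = X.L {a} ∨ X.L {i} = X.L {b} ∨ X.L {i} = X.L {c} ∨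
      X.L {i} = X.L {d}) : False := by
  have hs : ∀ i : Fin 8, ∃ f, X.Supp ∅ {i} f := fun i =>
    X.exists_supp (h1 i) (by simp) (by simp)
  choose g hg using hs
  have hS0 : S ∅ := X.down _ _ (by simp) (h1 0)
  have hr := X.rank_eq hS0
  let Φ : X.L ∅ →ₗ[ℝ] (Fin 4 → ℝ) :=
    (LinearMap.pi ![X.e, g a, g b, g c]).comp (X.L ∅).subtype
  have hker := LinearMap.ker_ne_bot_of_finrank_lt (f := Φ) (by simp at hr ⊢; omega)
  obtain ⟨w0, hw0, hw0ne⟩ := Submodule.exists_mem_ne_zero_of_ne_bot hker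
  have hw0' : ∀ i, (![X.e, g a, g b, g c] i) w0.1 = 0 := fun i => congrFun hw0 i
  obtain ⟨w, hwL, hwne, he, hga, hgb, hgc, hgd⟩ : ∃ w ∈ X.L ∅, w ≠ 0 ∧ X.e w = 0 ∧ g a w = 0 ∧
      g b w = 0 ∧ g c w = 0 ∧ 0 ≤ g d w := by
    have hne : w0.1 ≠ 0 := fun h => hw0ne (Subtype.ext h)
    have e0 : X.e w0.1 = 0 := hw0' 0
    have e1 : g a w0.1 = 0 := hw0' 1
    have e2 : g b w0.1 = 0 := hw0' 2
    have e3 : g c w0.1 = 0 := hw0' 3
    rcases le_total 0 (g d w0.1) with h | h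
    · exact ⟨w0.1, w0.2, hne, e0, e1, e2, e3, h⟩
    · exact ⟨-w0.1, neg_mem w0.2, neg_ne_zero.2 hne, by simp [e0], by simp [e1], by simp [e2],
        by simp [e3], by simpa using h⟩
  obtain ⟨x, hx, hsx⟩ := X.ex _ hS0
  set A : Set ℝ := {t | 0 ≤ t ∧ x + t • w ∈ X.P} with hA
  have hAc : IsClosed A := by
    refine IsClosed.inter isClosed_Ici (X.cpt.isClosed.preimage (f := fun t : ℝ => x + t • w) ?_)
    fun_prop
  have hAb : BddAbove A := by
    obtain ⟨R, hR⟩ := X.cpt.isBounded.exists_norm_le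
    refine ⟨(R + ‖x‖) / ‖w‖, fun t ht => ?_⟩
    rw [le_div_iff₀ (norm_pos_iff.2 hwne)]
    have h2 := hR _ ht.2
    have h3 : ‖t • w‖ ≤ ‖x + t • w‖ + ‖x‖ := by
      simpa using norm_sub_le (x + t • w) x
    rw [norm_smul, Real.norm_eq_abs, abs_of_nonneg ht.1] at h3
    linarith
  have hmem := hAc.csSup_mem ⟨0, le_rfl, by simpa using hx⟩ hAb
  set t := sSup A with ht
  by_cases h0 : X.s (x + t • w) = ∅
  · obtain ⟨ε, hε, h2, -⟩ := X.opn _ hmem.2 w (by rw [h0]; exact hwL) he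
    have h3 : t + ε ∈ A := ⟨by linarith [hmem.1], by rw [add_smul, ← add_assoc]; exact h2⟩
    have := le_csSup hAb h3
    linarith
  · obtain ⟨i, hi⟩ := Finset.nonempty_iff_ne_empty.2 h0
    have hL : x + t • w ∈ X.L {i} := X.mem_L hmem.2 (by simpa using hi)
    have fin : ∀ j, X.L {i} = X.L {j} → 0 ≤ g j w → False := by
      intro j hj hjw
      have h2 := (hg j).2.1 _ (hj ▸ hL)
      have h3 := (hg j).2.2 x hx hsx
      rw [map_add, map_smul, smul_eq_mul] at h2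
      have := mul_nonneg hmem.1 hjw
      linarith
    rcases h i with h2 | h2 | h2 | h2
    · exact fin _ h2 hga.ge
    · exact fin _ h2 hgb.ge
    · exact fin _ h2 hgc.ge
    · exact fin _ h2 hgd

end WR

end Pool.Agent.MP_d6d24d_co.H35
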