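import Pool.Agent.MP_d6d24d_co.H35.Weak2

/-! The monotone ratio along a planar cell. -/

namespace Pool.Agent.MP_d6d24d_co.H35

open Set Module

namespace WR

variable {W : Type*} [NormedAddCommGroup W] [NormedSpace ℝ W] {S : Finset (Fin 8) → Prop}
  (X : WR W S) [FiniteDimensional ℝ W]

omit [FiniteDimensional ℝ W] in
theorem S_of_mem {σ : Finset (Fin 8)} {x : W} (hx : x ∈ X.C σ) : S σ :=
  X.down _ _ hx.2 (X.mem x hx.1)

theorem rank_ins {ρ : Finset (Fin 8)} (hρ : ρ.card = 2) {z : Fin 8} (hz : z ∉ ρ)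
    (hS : S (insert z ρ)) : finrank ℝ (X.L (insert z ρ)) ≤ 2 := by
  have := X.rank_eq hS
  rw [Finset.card_insert_of_notMem hz] at this
  omega

theorem penta {ρ : Finset (Fin 8)} (hρ : ρ.card = 2) {z u j k : Fin 8} (hz : z ∉ ρ) (hu : u ∉ ρ)
    (hj : j ∉ ρ) (hk : k ∉ ρ) {T B a Q : W} (hT : T ∈ X.C (insert z ρ))
    (hT' : T ∈ X.C (insert u ρ)) (hB : B ∈ X.C (insert z ρ)) (hQ : Q ∈ X.C (insert u ρ))
    (hQ' : Q ∈ X.C (insert j ρ)) (ha : a ∈ X.C (insert j ρ)) (ha' : a ∈ X.C (insert k ρ))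
    (huB : u ∉ X.s B) (hua : u ∉ X.s a) (hza : z ∉ X.s a) {α β : W →ₗ[ℝ] ℝ}
    (hα : X.Supp ρ (insert k ρ) α) (hβ : X.Supp ρ (insert j ρ) β) :
    β T * α B ≤ α T * β B ∧ (β T * α B = α T * β B →
      X.L (insert j ρ) = X.L (insert k ρ) ∨ a ∈ X.L (insert z ρ)) := by
  have Sz := X.S_of_mem hT
  have Su := X.S_of_mem hT'
  have Sj := X.S_of_mem ha
  have Sk := X.S_of_mem ha'
  have Sρ := X.down _ _ (Finset.subset_insert z ρ) Sz
  have sub : ∀ {i : Fin 8} {w : W}, w ∈ X.C (insert i ρ) → w ∈ X.C ρ := fun h =>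
    X.C_anti (Finset.subset_insert _ _) h
  have sp : ∀ {σ : Finset (Fin 8)} {w : W}, w ∈ X.C σ → w ∈ X.L σ := fun h =>
    Submodule.subset_span h
  have hTB : T ≠ B := fun h => huB (h ▸ hT'.2 (Finset.mem_insert_self _ _))
  have haB : a ≠ B := fun h => hza (h ▸ hB.2 (Finset.mem_insert_self _ _))
  have hαa : α a = 0 := hα.2.1 a (sp ha')
  have hβa : β a = 0 := hβ.2.1 a (sp ha)
  have hβQ : β Q = 0 := hβ.2.1 Q (sp hQ')
  have eT := X.e_one T hT.1
  have eB := X.e_one B hB.1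
  have ea := X.e_one a ha.1
  have eQ := X.e_one Q hQ.1
  by_cases haz : a ∈ X.L (insert z ρ)
  · obtain ⟨p, q, h⟩ := X.span_two hT.1 hB.1 hTB (X.rank_ins hρ hz Sz) (sp hT) (sp hB) haz
    have h1 := congrArg α h
    have h2 := congrArg β h
    have h3 := congrArg X.e h
    simp only [map_add, map_smul, smul_eq_mul, hαa, hβa, eT, eB, ea] at h1 h2 h3
    have hp : p ≠ 0 := by
      rintro rfl
      apply haB
      have : q = 1 := by linarith
      rw [h, this]; simp
    have h4 : p * (β T * α B - α T * β B) = 0 := by linear_combination (β B) * h1 - (α B) * h2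
    have h5 := (mul_eq_zero.1 h4).resolve_left hp
    exact ⟨by linarith, fun _ => Or.inr haz⟩
  have hind : ∀ p q r : ℝ, p • a + q • B + r • T = 0 → p = 0 ∧ q = 0 ∧ r = 0 := by
    intro p q r h
    have hp : p = 0 := by
      by_contra hp
      apply haz
      have : a = (-q / p) • B + (-r / p) • T := by
        have h2 : p • a = -(q • B + r • T) := by rw [eq_neg_iff_add_eq_zero, ← h]; abel
        have h3 : a = p⁻¹ • (p • a) := by rw [smul_smul, inv_mul_cancel₀ hp, one_smul]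
        rw [h3, h2]
        match_scalars <;> field_simp
      rw [this]
      exact Submodule.add_mem _ (Submodule.smul_mem _ _ (sp hB)) (Submodule.smul_mem _ _ (sp hT))
    subst hp
    have h3 := congrArg X.e h
    simp only [map_add, map_smul, smul_eq_mul, eT, eB, ea, map_zero] at h3
    have h4 : r = -q := by linarith
    subst h4
    have h5 : q • (B - T) = 0 := by rw [← h]; module
    have h6 := (smul_eq_zero.1 h5).resolve_right (sub_ne_zero.2 hTB.symm)
    simp [h6]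
  have hr3 : finrank ℝ (X.L ρ) ≤ 3 := by have := X.rank_eq Sρ; omega
  have hαT := hα.1 T (sub hT)
  have hαB := hα.1 B (sub hB)
  have hβT := hβ.1 T (sub hT)
  have hβB := hβ.1 B (sub hB)
  refine ⟨?_, fun heq => Or.inl ?_⟩
  · by_contra hlt
    push Not at hlt
    obtain ⟨f, hf⟩ := X.exists_supp' hu Su
    obtain ⟨g, hg⟩ := X.exists_supp' hz Sz
    obtain ⟨p, q, r, h⟩ := span_three hind hr3 (sp (sub ha)) (sp (sub hB)) (sp (sub hT))
      (sp (sub hQ))
    have hga : 0 < g a := lt_of_le_of_ne (hg.1 a (sub ha))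
      (fun h0 => haz (hg.ker X hz Sz (sp (sub ha)) h0.symm))
    have h1 := congrArg α h
    have h2 := congrArg β h
    have h3 := congrArg X.e h
    have h4 := congrArg f h
    have h5 := congrArg g h
    simp only [map_add, map_smul, smul_eq_mul, hαa, hβa, hβQ, eT, eB, ea, eQ, hf.2.1 T (sp hT'),
      hf.2.1 Q (sp hQ), hg.2.1 T (sp hT), hg.2.1 B (sp hB)] at h1 h2 h3 h4 h5
    have hαQ := hα.1 Q (sub hQ)
    have hgQ := hg.1 Q (sub hQ)
    have hfa := hf.1 a (sub ha)
    have hfB := hf.1 B (sub hB)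
    have hp : 0 ≤ p := by
      by_contra hp
      push Not at hp
      nlinarith
    have hpos : 0 < β T * α B := lt_of_le_of_lt (mul_nonneg hαT hβB) hlt
    have hβT' : 0 < β T := lt_of_le_of_ne hβT (fun h0 => by rw [← h0] at hpos; simp at hpos)
    have hαB' : 0 < α B := lt_of_le_of_ne hαB (fun h0 => by rw [← h0] at hpos; simp at hpos)
    have hr : r ≤ 0 := by
      by_contra hr
      push Not at hr
      have h6 : r * (β T * α B - α T * β B) = -(β B * α Q) := by
        linear_combination (-(α B)) * h2 + (β B) * h1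
      have h7 := mul_pos hr (sub_pos.2 hlt)
      have h8 := mul_nonneg hβB hαQ
      linarith
    have hq : 0 ≤ q := by
      by_contra hq
      push Not at hq
      have h6 := mul_neg_of_neg_of_pos hq hαB'
      have h7 := mul_nonpos_of_nonpos_of_nonneg hr hαT
      linarith
    rcases hq.eq_or_lt with hq0 | hq0
    · subst hq0
      have h6 : r * β T = 0 := by linarith
      have h7 := (mul_eq_zero.1 h6).resolve_right hβT'.ne'
      subst h7
      have h8 : p = 1 := by linarith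
      subst h8
      apply hua
      have : Q = a := by rw [h]; simp
      exact this ▸ hQ.2 (Finset.mem_insert_self _ _)
    · have hfB0 : f B = 0 := by
        have h6 := mul_nonneg hp hfa
        have h7 : q * f B ≤ 0 := by linarith
        by_contra h8
        have := mul_pos hq0 (lt_of_le_of_ne hfB (Ne.symm h8))
        linarith
      obtain ⟨p', q', h'⟩ := X.span_two hT.1 hB.1 hTB (X.rank_ins hρ hu Su) (sp hT')
        (hf.ker X hu Su (sp (sub hB)) hfB0) (sp hQ)
      have hp0 := (hind p (q - q') (r - p') (by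
        have : p • a + (q - q') • B + (r - p') • T =
          (p • a + q • B + r • T) - (p' • T + q' • B) := by module
        rw [this, ← h, ← h', sub_self])).1
      subst hp0
      apply huB
      refine X.sub_of_comb hQ.1 hT.1 (c := B) (p := 1 / q) (q := -r / q) (by positivity)
        (div_nonneg (by linarith) hq) (by field_simp; linarith) ?_
        (Finset.mem_inter.2 ⟨hQ.2 (Finset.mem_insert_self _ _), hT'.2 (Finset.mem_insert_self _ _)⟩)
      rw [h]
      match_scalars <;> (field_simp; try ring)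
  · have hψ : ∀ w ∈ X.L ρ, α B * β w = β B * α w := by
      intro w hw
      obtain ⟨p, q, r, h⟩ := span_three hind hr3 (sp (sub ha)) (sp (sub hB)) (sp (sub hT)) hw
      rw [h]
      simp only [map_add, map_smul, smul_eq_mul, hαa, hβa]
      linear_combination r * heq
    have hc : (insert k ρ).card = (insert j ρ).card := by
      rw [Finset.card_insert_of_notMem hk, Finset.card_insert_of_notMem hj]
    refine (X.L_eq_of_le Sk Sj hc (fun w hw => ?_)).symm
    rcases hαB.eq_or_lt with h0 | h0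
    · obtain ⟨x, hx, hsx⟩ := X.ex ρ Sρ
      have h1 := hψ x (X.mem_L hx hsx.ge)
      rw [← h0, zero_mul] at h1
      have h2 := (mul_eq_zero.1 h1.symm).resolve_right (hα.2.2 x hx hsx).ne'
      obtain ⟨p, q, h⟩ := X.span_two ha.1 hB.1 haB (X.rank_ins hρ hk Sk) (sp ha')
        (hα.ker X hk Sk (sp (sub hB)) h0.symm) hw
      rw [h]
      exact Submodule.add_mem _ (Submodule.smul_mem _ _ (sp ha))
        (Submodule.smul_mem _ _ (hβ.ker X hj Sj (sp (sub hB)) h2))
    · have hwρ := X.L_anti (Finset.subset_insert k ρ) hw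
      have h1 := hψ w hwρ
      rw [hα.2.1 w hw, mul_zero] at h1
      exact hβ.ker X hj Sj hwρ ((mul_eq_zero.1 h1).resolve_left h0.ne')

theorem penta_fix {ρ : Finset (Fin 8)} {z j k : Fin 8} (hz : z ∉ ρ) {T B a : W}
    (hT : T ∈ X.C (insert z ρ)) (hB : B ∈ X.C (insert z ρ)) (ha : a ∈ X.P)
    (hsa : X.s a = insert j (insert k ρ)) {α β : W →ₗ[ℝ] ℝ}
    (hα : X.Supp ρ (insert k ρ) α) (hβ : X.Supp ρ (insert j ρ) β)
    (nα : ¬ (α T = 0 ∧ α B = 0)) (nβ : ¬ (β T = 0 ∧ β B = 0)) : a ∉ X.L (insert z ρ) := by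
  intro h
  obtain ⟨t, ht, htρ, h2⟩ := X.cls hz (X.S_of_mem hT) (x := a)
    ⟨ha, by rw [hsa]; exact (Finset.subset_insert _ _).trans (Finset.subset_insert _ _)⟩ h
  rw [hsa] at ht
  simp only [Finset.mem_insert] at ht
  rcases ht with rfl | rfl | ht
  · exact nβ ⟨hβ.2.1 T (h2 ▸ Submodule.subset_span hT), hβ.2.1 B (h2 ▸ Submodule.subset_span hB)⟩
  · exact nα ⟨hα.2.1 T (h2 ▸ Submodule.subset_span hT), hα.2.1 B (h2 ▸ Submodule.subset_span hB)⟩
  · exact htρ ht

theorem restrict {x y x' : Fin 8} {ρ : Finset (Fin 8)} {f : W →ₗ[ℝ] ℝ} (hyx : y ≠ x)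
    (hx' : x' ≠ x) (hy : S {y, x}) (hρ : ρ = {x', x}) (hS : S ρ) (hf : X.Supp {x} {y, x} f)
    (hne : X.L {y, x} ≠ X.L {x', x}) : X.Supp ρ (insert y ρ) f := by
  subst hρ
  have h0 : ∀ z ∈ X.C {x', x}, 0 ≤ f z := fun z hz => hf.1 z (X.C_anti (by simp) hz)
  refine ⟨h0, fun w hw => hf.2.1 w (X.L_anti (Finset.insert_subset_insert _ (by simp)) hw),
    fun w hw hs => lt_of_le_of_ne (h0 w ⟨hw, hs.ge⟩) (fun h => hne ?_)⟩
  have h1 := X.vanish h0 hw hs h.symm
  refine (X.L_eq_of_le hS hy (by rw [Finset.card_pair hyx, Finset.card_pair hx'])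
    (fun v hv => ?_)).symm
  exact Supp.ker X (σ := {x}) (i := y) (by simpa using hyx) hy hf (X.L_anti (by simp) hv) (h1 v hv)

theorem defined {ρ ρ' : Finset (Fin 8)} (hρ : ρ.card = 2) (hρ' : ρ'.card = 2) {y : Fin 8}
    (hy : y ∉ ρ) (hy' : y ∉ ρ') {f : W →ₗ[ℝ] ℝ} (hf : X.Supp ρ (insert y ρ) f)
    (hf' : X.Supp ρ' (insert y ρ') f) {T B a a' : W} (hT : T ∈ X.C ρ) (hT' : T ∈ X.C ρ')
    (hB : B ∈ X.C ρ) (hB' : B ∈ X.C ρ') (hTB : X.s T ≠ X.s B) (ha : a ∈ X.C (insert y ρ))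
    (ha' : a' ∈ X.C (insert y ρ'))
    (hn : ¬ (X.s T ∩ X.s a ⊆ X.s a' ∨ X.s T ∩ X.s a' ⊆ X.s a ∨ X.s a ∩ X.s a' ⊆ X.s T)) :
    ¬ (f T = 0 ∧ f B = 0) := by
  rintro ⟨h1, h2⟩
  have Sa := X.S_of_mem ha
  have Sa' := X.S_of_mem ha'
  have t1 := hf.ker X hy Sa (Submodule.subset_span hT) h1
  have t2 := hf.ker X hy Sa (Submodule.subset_span hB) h2
  obtain ⟨p, q, h⟩ := X.span_two hT.1 hB.1 (fun h => hTB (by rw [h])) (X.rank_ins hρ' hy' Sa')
    (hf'.ker X hy' Sa' (Submodule.subset_span hT') h1)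
    (hf'.ker X hy' Sa' (Submodule.subset_span hB') h2) (Submodule.subset_span ha')
  refine hn (X.between hT.1 ha.1 ha'.1 (X.rank_ins hρ hy Sa) t1 (Submodule.subset_span ha) ?_)
  rw [h]
  exact Submodule.add_mem _ (Submodule.smul_mem _ _ t1) (Submodule.smul_mem _ _ t2)

theorem lift {ρ : Finset (Fin 8)} (hρ : ρ.card = 2) {x j k : Fin 8} (hx : x ∈ ρ) (hj : j ∉ ρ)
    (hk : k ∉ ρ) (h : X.L (insert j ρ) = X.L (insert k ρ)) {p a Q : W} (hp : p ∈ X.C {j, x})
    (hp' : p ∈ X.C {k, x}) (ha : a ∈ X.C (insert j ρ))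
    (hQ : Q ∈ X.C (insert j ρ) ∨ Q ∈ X.C (insert k ρ))
    (hn : ¬ (X.s p ∩ X.s a ⊆ X.s Q ∨ X.s p ∩ X.s Q ⊆ X.s a ∨ X.s a ∩ X.s Q ⊆ X.s p)) :
    X.L {j, x} = X.L {k, x} := by
  have Sa := X.S_of_mem ha
  have hQL : Q ∈ X.L (insert j ρ) := by
    rcases hQ with h1 | h1
    · exact Submodule.subset_span h1
    · rw [h]; exact Submodule.subset_span h1
  have hQP : Q ∈ X.P := by rcases hQ with h1 | h1 <;> exact h1.1
  have hpn : p ∉ X.L (insert j ρ) := fun hp2 =>
    hn (X.between hp.1 ha.1 hQP (X.rank_ins hρ hj Sa) hp2 (Submodule.subset_span ha) hQL)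
  have hlt : X.L (insert j ρ) < X.L (insert j ρ) ⊔ Submodule.span ℝ {p} := by
    refine lt_of_le_of_ne le_sup_left (fun h2 => hpn ?_)
    rw [h2]
    exact Submodule.mem_sup_right (Submodule.mem_span_singleton_self p)
  have h1 := Submodule.finrank_lt_finrank_of_lt hlt
  have h2 := X.rank_eq Sa
  rw [Finset.card_insert_of_notMem hj] at h2
  have aux : ∀ i : Fin 8, i ∉ ρ → p ∈ X.C {i, x} → X.L (insert j ρ) = X.L (insert i ρ) →
      X.L (insert j ρ) ⊔ Submodule.span ℝ {p} = X.L {i, x} := by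
    intro i hi hpi hL
    have h3 := X.rank_eq (X.S_of_mem hpi)
    rw [Finset.card_pair (fun h4 : i = x => hi (h4 ▸ hx))] at h3
    refine Submodule.eq_of_le_of_finrank_le (sup_le ?_ ?_) (by omega)
    · rw [hL]; exact X.L_anti (Finset.insert_subset_insert _ (by simpa using hx))
    · rw [Submodule.span_singleton_le_iff_mem]; exact Submodule.subset_span hpi
  rw [← aux j hj hp rfl, ← aux k hk hp' h]

end WR

end Pool.Agent.MP_d6d24d_co.H35
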